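import Pool.Agent.Work.MP_b8a914_gt.F.Defs

/-! Near coherence of filters and the question, interpreted inside a structure `(M, E)` for the
language of set theory. -/

namespace Pool.Agent.B8N
open Pool.Agent.Work.MP_63c7e0_lc Pool.Agent.Work.MP_f50f0f_gt Pool.Agent.B8F

universe u
variable {M : Type u} (E : M → M → Prop)

/-- `V` is a nonprincipal ultrafilter on `w`: a family of infinite subsets of `w`, closed under
supersets and intersections of two members, that holds every subset of `w` or its complement. -/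
def IsUlt (w V : M) : Prop :=
  (∀ A, E A V → InfSub E w A) ∧
  (∀ A B, E A V → Sub E A B → Sub E B w → E B V) ∧
  (∀ A B C, E A V → E B V → (∀ x, E x C ↔ E x A ∧ E x B) → E C V) ∧
  ∀ A B, Sub E A w → (∀ x, E x B ↔ E x w ∧ ¬ E x A) → E A V ∨ E B V

/-- Near coherence of filters: any two nonprincipal ultrafilters on `ω` have the same image under
some finite-to-one `f : ω → ω`. -/
def NCF : Prop :=
  ∀ w U V, IsOmega E w → IsUlt E w U → IsUlt E w V → ∃ f, IsFun E f w w ∧
    (∀ n P, (∀ x, E x P ↔ App E f x n) → IsFin E P) ∧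
    ∀ A P, (∀ x, E x P ↔ ∃ y, E y A ∧ App E f x y) → (E P U ↔ E P V)

/-- The question has the answer yes: the sequential fan embeds in `C_p(X)` for some Tychonoff
Menger space `X`. -/
def Q1 : Prop :=
  ∃ R add mul lt z o ρ X τ C π, IsReals E R add mul lt z o ∧ IsOrderTop E R lt ρ ∧
    IsTychonoff E X τ R ρ z o ∧ (∀ f, E f C ↔ IsCont E f X τ R ρ) ∧ IsPw E C X ρ π ∧
    IsMengerM E X τ ∧ FanEmbeds E C π

end Pool.Agent.B8N
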