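import Pool.Agent.Work.MP_b8a914_gt.N.Space

/-! The fan in the function space of the example. -/

set_option linter.unusedSectionVars false

namespace Pool.Agent.B8N
open Pool.Agent.Lib.ZFModel Pool.Agent.Work.MP_63c7e0_lc Pool.Agent.Work.MP_f50f0f_gt
  Pool.Agent.B8F Pool.Agent.B8P

set_option synthInstance.maxSize 100000

variable {M : Type 1} {E : M → M → Prop} [Fact (IsZFC E)] [CT E ℕ] [NatE E]

theorem fan_zf_cf : CF E fun p : FN E ℕ ℕ × ℕ => zf p.1.1 p.2 :=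
  CF.natRec (fun t : FN E ℕ ℕ => t.1 0 + 1) (fun t k y => y + (t.1 (k + 1) + 1))
    (fun t k => zf t.1 k) (fun _ => by simp [zf]) fun _ _ => Finset.sum_range_succ _ _

theorem gap_cs : CS E fun p : FN E ℕ ℕ × ℕ × ℕ => Gap p.1.1 p.2.1 p.2.2 := by
  have h1 : CF E fun q : (FN E ℕ ℕ × ℕ × ℕ) × ℕ => zf q.1.1.1 q.2 :=
    CF.comp (fun p : FN E ℕ ℕ × ℕ => zf p.1.1 p.2)
      (fun q : (FN E ℕ ℕ × ℕ × ℕ) × ℕ => (q.1.1, q.2)) (hg := fan_zf_cf)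
  unfold Gap
  infer_instance

theorem fan_lt_zf (y : ℕ → ℕ) (i : ℕ) : i < zf y i := by
  induction i with
  | zero => exact (Nat.zero_le _).trans_lt (lt_zf y 0)
  | succ i ih => exact (Nat.succ_le_of_lt ih).trans_lt (zf_mono y i.lt_succ_self)

theorem fan_gap_congr {y y' : ℕ → ℕ} {n k : ℕ} (h : ∀ i < k, y' i = y i) (hg : Gap y n k) :
    Gap y' n k := fun i hi => by
  have e : zf y' i = zf y i := Finset.sum_congr rfl fun j hj => by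
    have h1 := Finset.mem_range.1 hj
    have h2 := fan_lt_zf y' i
    rw [h j (by omega)]
  exact hg i (e ▸ hi)

theorem fan_gap_zero {y : ℕ → ℕ} {n k : ℕ} (h : k ≤ y 0) : Gap y n k := fun i hi => by
  have h1 := lt_zf y 0
  have h2 := (zf_mono y).monotone (Nat.zero_le i)
  omega

/-- finite boxes with one open set -/
theorem fan_box {TX T : Type} [CT E TX] [CT E T] {X ρ V : M} (hX : Is E TX X) (hV : E V ρ)
    {A : Set TX} (hA : A.Finite) : ∃ F, IsFin E F ∧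
      (∀ p, E p F → ∃ x V, E x X ∧ E V ρ ∧ IsPair E p x V) ∧
      ∀ G : FN E TX T, InBox E F (CT.code E G) ↔ ∀ x ∈ A, E (CT.code E (G.1 x)) V := by
  have hf := hA.image fun x : TX => pr E (CT.code E x) V
  obtain ⟨F, hF⟩ := exists_finite_set (zf' E) hf
  refine ⟨F, (isFin_iff' F).2 (hf.subset fun p hp => (hF p).1 hp), fun p hp => ?_,
    fun G => ⟨fun h x hx => ?_, ?_⟩⟩
  · obtain ⟨x, -, rfl⟩ := (hF p).1 hp
    exact ⟨_, _, (hX _).2 ⟨x, rfl⟩, hV, isPair_pr _ _⟩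
  · exact h _ V _ ⟨_, (hF _).2 ⟨x, hx, rfl⟩, isPair_pr _ _⟩ ((rep_code_fn G _ _).2 ⟨x, rfl, rfl⟩)
  · rintro h x V' y ⟨p, hp, h1⟩ h2
    obtain ⟨t, ht, rfl⟩ := (hF p).1 hp
    obtain ⟨rfl, rfl⟩ := pr_inj.1 (isPair_iff.1 h1)
    obtain ⟨t', h3, rfl⟩ := (rep_code_fn G _ _).1 h2
    rw [← CT.inj h3]
    exact h t ht

/-- a coded array of functions with a limit gives a fan -/
theorem fan_emb {TX T : Type} [CT E TX] [CT E T] {X ρ C π : M} (hX : Is E TX X)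
    (hπ : IsPw E C X ρ π) (g : ℕ × ℕ → FN E TX T) (hg : CF E g) (g0 : FN E TX T)
    (hgC : ∀ p, E (CT.code E (g p)) C) (hg0 : E (CT.code E g0) C)
    (conv : ∀ x n, ∃ m, ∀ k, m < k → (g (n, k)).1 x = g0.1 x)
    (iso : ∀ p, ∃ x V, E V ρ ∧ E (CT.code E ((g p).1 x)) V ∧ ¬ E (CT.code E (g0.1 x)) V ∧
      ∀ q, E (CT.code E ((g q).1 x)) V → q = p)
    (lim : ∀ h : ℕ → ℕ, CF E h → ∃ (A : Set TX) (V : M), A.Finite ∧ E V ρ ∧
      (∀ x ∈ A, E (CT.code E (g0.1 x)) V) ∧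
      ∀ n k, (∀ x ∈ A, E (CT.code E ((g (n, k)).1 x)) V) → h n < k) :
    FanEmbeds E C π := by
  have := (zf' E).nonempty
  obtain ⟨w, hw⟩ := exists_is E ℕ
  obtain ⟨W, hW⟩ := exists_is E (ℕ × ℕ)
  obtain ⟨P, hP⟩ := exists_is E (FN E TX T)
  obtain ⟨f, hf, hr⟩ := isFun_of_cf hW hP g
  obtain ⟨s, hs⟩ := exists_sing (zf' E) W
  obtain ⟨S, hS⟩ := exists_union (zf' E) W s
  obtain ⟨s', hs'⟩ := exists_sing (zf' E) (pr E W (CT.code E g0))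
  obtain ⟨e, he⟩ := exists_union (zf' E) f s'
  obtain ⟨Q, hQ⟩ := (zf' E).powerset S
  obtain ⟨σ, hσ⟩ := (zf' E).sep Q fun U => E W U → ∀ n, E n w → ∃ m, E m w ∧
    ∀ k p, E k w → E m k → IsPair E p n k → E p U
  have hWW : ¬ E W W := not_mem_self (zf' E) W
  have hne : ∀ p : ℕ × ℕ, CT.code E p ≠ W := fun p h => hWW ((hW _).2 ⟨p, h⟩)
  have hS' : ∀ p, E p S ↔ E p W ∨ p = W := fun p => (hS p).trans (or_congr Iff.rfl (hs p))
  have hσ' : ∀ U, E U σ ↔ Sub E U S ∧ (E W U → ∀ n, E n w → ∃ m, E m w ∧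
      ∀ k p, E k w → E m k → IsPair E p n k → E p U) := fun U => by
    rw [hσ, hQ]
    exact Iff.rfl
  have hA : ∀ x y, App E e x y ↔ (∃ p : ℕ × ℕ, x = CT.code E p ∧ y = CT.code E (g p)) ∨
      (x = W ∧ y = CT.code E g0) := fun x y => by
    constructor
    · rintro ⟨p, hp, h1⟩
      rcases (he p).1 hp with h2 | h2
      · exact Or.inl ((hr x y).1 ⟨p, h2, h1⟩)
      · rw [(hs' p).1 h2] at h1
        exact Or.inr ⟨(pr_inj.1 (isPair_iff.1 h1)).1.symm, (pr_inj.1 (isPair_iff.1 h1)).2.symm⟩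
    · rintro (h1 | ⟨rfl, rfl⟩)
      · obtain ⟨p, hp, h2⟩ := (hr x y).2 h1
        exact ⟨p, (he p).2 (Or.inl hp), h2⟩
      · exact ⟨_, (he _).2 (Or.inr ((hs' _).2 rfl)), isPair_pr _ _⟩
  have hg1 : ∀ p, g p ≠ g0 := fun p h => by
    obtain ⟨x, V, -, h1, h2, -⟩ := iso p
    exact h2 (h ▸ h1)
  have hg2 : ∀ p q, g q = g p → q = p := fun p q h => by
    obtain ⟨x, V, -, h1, -, h2⟩ := iso p
    exact h2 q (h ▸ h1)
  have hdom : ∀ x y, App E e x y → E x S := fun x y h => by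
    rcases (hA x y).1 h with ⟨p, rfl, -⟩ | ⟨rfl, -⟩
    · exact (hS' _).2 (Or.inl ((hW _).2 ⟨p, rfl⟩))
    · exact (hS' _).2 (Or.inr rfl)
  refine ⟨S, σ, e, ⟨w, W, W, isOmega_of_is hw, fun p => (hW p).trans ⟨?_, ?_⟩, hWW, hS', hσ'⟩,
    ⟨fun p hp => ?_, fun x hx => ?_, fun x y y' h1 h2 => ?_⟩, fun x x' y h1 h2 => ?_,
    fun U => ⟨fun hU => ?_, ?_⟩⟩
  · rintro ⟨⟨n, k⟩, rfl⟩
    exact ⟨_, _, (hw _).2 ⟨n, rfl⟩, (hw _).2 ⟨k, rfl⟩, isPair_pr _ _⟩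
  · rintro ⟨a, b, ha, hb, hp⟩
    obtain ⟨n, rfl⟩ := (hw a).1 ha
    obtain ⟨k, rfl⟩ := (hw b).1 hb
    exact ⟨(n, k), (isPair_iff.1 hp).symm⟩
  · rcases (he p).1 hp with h2 | h2
    · obtain ⟨x, y, -, -, h3⟩ := hf.1 p h2
      obtain ⟨t, rfl, rfl⟩ := (hr x y).1 ⟨p, h2, h3⟩
      exact ⟨_, _, (hS' _).2 (Or.inl ((hW _).2 ⟨t, rfl⟩)), hgC t, h3⟩
    · rw [(hs' p).1 h2]
      exact ⟨_, _, (hS' _).2 (Or.inr rfl), hg0, isPair_pr _ _⟩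
  · rcases (hS' x).1 hx with h1 | h1
    · obtain ⟨p, rfl⟩ := (hW x).1 h1
      exact ⟨_, (hA _ _).2 (Or.inl ⟨p, rfl, rfl⟩)⟩
    · exact ⟨_, (hA _ _).2 (Or.inr ⟨h1, rfl⟩)⟩
  · rcases (hA _ _).1 h1 with ⟨p, h3, rfl⟩ | ⟨h3, rfl⟩ <;>
      rcases (hA _ _).1 h2 with ⟨q, h4, rfl⟩ | ⟨h4, rfl⟩
    · rw [CT.inj (h3.symm.trans h4)]
    · exact absurd (h3.symm.trans h4) (hne p)
    · exact absurd (h4.symm.trans h3) (hne q)
    · rfl
  · rcases (hA _ _).1 h1 with ⟨p, rfl, h3⟩ | ⟨h5, h3⟩ <;>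
      rcases (hA _ _).1 h2 with ⟨q, rfl, h4⟩ | ⟨h6, h4⟩
    · rw [hg2 _ _ (CT.inj (h3.symm.trans h4))]
    · exact absurd (CT.inj (h3.symm.trans h4)) (hg1 p)
    · exact absurd (CT.inj (h4.symm.trans h3)) (hg1 q)
    · exact h5.trans h6.symm
  · obtain ⟨V, hV⟩ := (zf' E).sep C fun f => ∃ F, IsFin E F ∧
      (∀ p, E p F → ∃ x V, E x X ∧ E V ρ ∧ IsPair E p x V) ∧
      (∀ x V y, App E F x V → App E f x y → E y V) ∧
      ∀ t u, App E e t u → (∀ x V y, App E F x V → App E u x y → E y V) → E t U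
    obtain ⟨hU1, hU2⟩ := (hσ' U).1 hU
    refine ⟨V, (hπ V).2 ⟨fun f hf => ((hV f).1 hf).1, fun f hf => ?_⟩, fun x => ⟨fun hx => ?_, ?_⟩⟩
    · obtain ⟨-, F, h1, h2, h3, h4⟩ := (hV f).1 hf
      exact ⟨F, h1, h2, h3, fun g' h5 h6 => (hV g').2 ⟨h5, F, h1, h2, h6, h4⟩⟩
    · rcases (hS' x).1 (hU1 x hx) with h1 | h1
      · obtain ⟨p, rfl⟩ := (hW x).1 h1
        obtain ⟨y, V', h2, h3, h4, h5⟩ := iso p
        obtain ⟨F, h6, h7, h8⟩ := fan_box (T := T) hX h2 (Set.finite_singleton y)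
        refine ⟨_, (hV _).2 ⟨hgC p, F, h6, h7, (h8 _).2 fun _ h9 => h9 ▸ h3, fun t u h9 h10 => ?_⟩,
          (hA _ _).2 (Or.inl ⟨p, rfl, rfl⟩)⟩
        rcases (hA _ _).1 h9 with ⟨q, rfl, rfl⟩ | ⟨-, rfl⟩
        · rw [h5 q ((h8 _).1 h10 y rfl)]
          exact hx
        · exact absurd ((h8 _).1 h10 y rfl) h4
      · subst h1
        obtain ⟨h, hh, hh'⟩ := CF.choice (E := E)
          (fun (n : ℕ) (m : ℕ) => ∀ k : ℕ, m < k → E (CT.code E (n, k)) U) fun n => by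
            obtain ⟨m, hm, h2⟩ := hU2 hx _ ((hw _).2 ⟨n, rfl⟩)
            obtain ⟨m, rfl⟩ := (hw m).1 hm
            exact ⟨m, fun k hk => h2 _ _ ((hw _).2 ⟨k, rfl⟩) (E_nat.2 hk) (isPair_pr _ _)⟩
        obtain ⟨A, V', h2, h3, h4, h5⟩ := lim h hh
        obtain ⟨F, h6, h7, h8⟩ := fan_box (T := T) hX h3 h2
        refine ⟨_, (hV _).2 ⟨hg0, F, h6, h7, (h8 _).2 h4, fun t u h9 h10 => ?_⟩,
          (hA _ _).2 (Or.inr ⟨rfl, rfl⟩)⟩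
        rcases (hA _ _).1 h9 with ⟨⟨n, k⟩, rfl, rfl⟩ | ⟨rfl, -⟩
        · exact hh' n k (h5 n k ((h8 _).1 h10))
        · exact hx
    · rintro ⟨y, h1, h2⟩
      obtain ⟨-, F, -, -, h3, h4⟩ := (hV y).1 h1
      exact h4 x y h2 h3
  · rintro ⟨V, hV, hU⟩
    refine (hσ' U).2 ⟨fun x hx => ?_, fun hi n hn => ?_⟩
    · obtain ⟨y, -, h1⟩ := (hU x).1 hx
      exact hdom x y h1
    obtain ⟨n, rfl⟩ := (hw n).1 hn
    obtain ⟨y, h1, h2⟩ := (hU W).1 hi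
    obtain rfl : y = CT.code E g0 := by
      rcases (hA _ _).1 h2 with ⟨q, h3, -⟩ | ⟨-, h3⟩
      · exact absurd h3.symm (hne q)
      · exact h3
    obtain ⟨F, h3, -, h4, h5⟩ := ((hπ V).1 hV).2 _ h1
    have h6 : {x : TX | ∃ V', App E F (CT.code E x) V'}.Finite := by
      refine (((isFin_iff' F).1 h3).biUnion
        (t := fun p => {x : TX | ∃ V', IsPair E p (CT.code E x) V'})
        fun p _ => Set.Subsingleton.finite ?_).subset ?_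
      · rintro x ⟨_, hx⟩ x' ⟨_, hx'⟩
        exact CT.inj (pair_inj (zf' E) hx hx').1
      · rintro x ⟨V', p, hp, hx⟩
        exact Set.mem_biUnion hp ⟨V', hx⟩
    choose m hm using fun x => conv x n
    obtain ⟨m0, hm0⟩ := (h6.image m).bddAbove
    refine ⟨_, (hw _).2 ⟨m0, rfl⟩, fun k p hk h7 h8 => ?_⟩
    obtain ⟨k, rfl⟩ := (hw k).1 hk
    rw [isPair_iff.1 h8]
    refine (hU _).2 ⟨_, h5 _ (hgC (n, k)) fun x V' y h9 h10 => ?_,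
      (hA _ _).2 (Or.inl ⟨(n, k), rfl, rfl⟩)⟩
    obtain ⟨t, rfl, rfl⟩ := (rep_code_fn _ _ _).1 h10
    rw [hm t k ((hm0 ⟨t, ⟨V', h9⟩, rfl⟩).trans_lt (E_nat.1 h7))]
    exact h4 _ _ _ h9 ((rep_code_fn g0 _ _).2 ⟨t, rfl, rfl⟩)

/-- open intervals are open -/
theorem fan_ivl {T : Type} [CT E T] (D : RD E T) {ρ : M} (hρ : IsOrderTop E D.R D.lt ρ)
    (a b : T) : ∃ V, E V ρ ∧ ∀ t : T, E (CT.code E t) V ↔ D.v a < D.v t ∧ D.v t < D.v b := by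
  have := (zf' E).nonempty
  have h1 : ∀ s t : T, App E D.lt (CT.code E s) (CT.code E t) ↔ D.v s < D.v t := fun s t =>
    (D.lt_iff _ _).trans ⟨fun ⟨s', t', h2, h3, h4⟩ => by rwa [CT.inj h2, CT.inj h3],
      fun h2 => ⟨s, t, rfl, rfl, h2⟩⟩
  obtain ⟨V, hV⟩ := (zf' E).sep D.R fun y =>
    App E D.lt (CT.code E a) y ∧ App E D.lt y (CT.code E b)
  refine ⟨V, (hρ V).2 ⟨fun y hy => ((hV y).1 hy).1, fun y hy => ⟨_, _, ((hV y).1 hy).2.1,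
    ((hV y).1 hy).2.2, fun z h2 h3 => (hV z).2 ⟨?_, h2, h3⟩⟩⟩, fun t => (hV _).trans ?_⟩
  · obtain ⟨s, t, -, rfl, -⟩ := (D.lt_iff _ _).1 h2
    exact (D.is _).2 ⟨t, rfl⟩
  · rw [h1, h1]
    exact and_iff_right ((D.is _).2 ⟨t, rfl⟩)

/-- The fan: pairs of numbers and the empty set as the extra point `i` (a coded type
`Option (ℕ × ℕ)`).  `e i = 0`, `e (n, k) y = c (pr2 n k + 1)` if `Gap y n k`, else `c 0`.
`Gap y n k` depends on the first `k` values of `y`, fails for `k ≥ zf y n`, holds if `k ≤ y 0`.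
For `U` open in the fan take `V` = all `f ∈ C` that lie in a finite box `F` such that every `s`
with `e s` in the box is in `U`.  At `(n, k)`: one point `y` with `y 0 = k` and an interval of
length below `2` around `c (pr2 n k + 1)`.  At `i`: `h` coded with `(n, k) ∈ U` for `k > h n`;
points `y0`, `y1` from `dom`, `y2` from `big` above `h n` for `n < n0`; the open set
`{t | t < c 1}`. -/
theorem fan_Y (I : IfaceY E) {τ : M} (h : IsTopY I.Y τ) {T : Type} [CT E T] (D : RD E T)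
    {ρ C π : M} (hρ : IsOrderTop E D.R D.lt ρ)
    (hC : ∀ f, E f C ↔ IsCont E f (CT.code E I.Y) τ D.R ρ) (hπ : IsPw E C (CT.code E I.Y) ρ π) :
    FanEmbeds E C π := by
  classical
  have hG : CS E fun q : (ℕ × ℕ) × PY I.Y => Gap q.2.1.1 q.1.1 q.1.2 :=
    gap_cs.comp fun q : (ℕ × ℕ) × PY I.Y => (q.2.1, q.1.1, q.1.2)
  have hc := D.cf
  have hp : CF E fun q : (ℕ × ℕ) × PY I.Y => pr2 q.1.1 q.1.2 :=
    CF.comp (fun p : ℕ × ℕ => pr2 p.1 p.2) (fun q : (ℕ × ℕ) × PY I.Y => q.1) (hg := prod_pr2_cf)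
  have hp' : CF E fun q : (ℕ × ℕ) × PY I.Y => D.c (pr2 q.1.1 q.1.2 + 1) :=
    CF.comp D.c fun q : (ℕ × ℕ) × PY I.Y => pr2 q.1.1 q.1.2 + 1
  let u : (ℕ × ℕ) × PY I.Y → T := fun q =>
    if Gap q.2.1.1 q.1.1 q.1.2 then D.c (pr2 q.1.1 q.1.2 + 1) else D.c 0
  have hu : CF E u := CF.ite _ _ fun _ => D.c 0
  let g : ℕ × ℕ → FN E (PY I.Y) T := fun p =>
    ⟨fun y => u (p, y), CF.comp u (fun y : PY I.Y => (p, y))
      (hf := CF.pair (fun _ => p) fun y => y)⟩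
  have hg : CF E g := CF.lam g (h := hu)
  let g0 : FN E (PY I.Y) T := ⟨fun _ => D.c 0, CF.const _⟩
  have e1 : ∀ n k (y : PY I.Y), Gap y.1.1 n k → (g (n, k)).1 y = D.c (pr2 n k + 1) :=
    fun n k y h1 => if_pos h1
  have e2 : ∀ n k (y : PY I.Y), ¬ Gap y.1.1 n k → (g (n, k)).1 y = D.c 0 :=
    fun n k y h1 => if_neg h1
  refine fan_emb (is_sub I.Y) hπ g hg g0 (fun p => (hC _).2 (cont_of_lc h D.is _ fun y => ?_))
    ((hC _).2 (cont_of_lc h D.is _ fun y => ⟨0, fun _ _ => rfl⟩)) (fun y n => ?_) ?_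
    fun f hf => ?_
  · obtain ⟨n, k⟩ := p
    refine ⟨k, fun y' h1 => ?_⟩
    by_cases h2 : Gap y.1.1 n k
    · rw [e1 n k y h2, e1 n k y' (fan_gap_congr h1 h2)]
    · rw [e2 n k y h2, e2 n k y' fun h3 => h2 (fan_gap_congr (fun i hi => (h1 i hi).symm) h3)]
  · exact ⟨zf y.1.1 n, fun k hk => e2 n k y fun h1 => h1 n ⟨(fan_lt_zf _ n).le, hk.le⟩⟩
  · rintro ⟨n, k⟩
    obtain ⟨y, hy, h1⟩ := I.big k
    obtain ⟨V, h2, h3⟩ := fan_ivl D hρ (D.c (pr2 n k)) (D.c (pr2 n k + 2))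
    have h4 : ∀ j, E (CT.code E (D.c j)) V ↔ j = pr2 n k + 1 := fun j => by
      rw [h3, D.vc, D.vc, D.vc, Nat.cast_lt, Nat.cast_lt]
      omega
    refine ⟨⟨y, hy⟩, V, h2, ?_, fun h5 => Nat.succ_ne_zero _ ((h4 0).1 h5).symm, ?_⟩
    · rw [e1 n k ⟨y, hy⟩ (fan_gap_zero h1.ge)]
      exact (h4 _).2 rfl
    · rintro ⟨n', k'⟩ h5
      by_cases h6 : Gap y.1 n' k'
      · rw [e1 n' k' ⟨y, hy⟩ h6, h4] at h5
        obtain ⟨rfl, rfl⟩ := prod_pr2_inj (Nat.succ_injective h5)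
        rfl
      · rw [e2 n' k' ⟨y, hy⟩ h6, h4] at h5
        exact absurd h5.symm (Nat.succ_ne_zero _)
  · obtain ⟨y0, hy0, y1, hy1, n0, h1⟩ := I.dom f hf
    obtain ⟨y2, hy2, h2⟩ := I.big (∑ n ∈ Finset.range n0, f n)
    obtain ⟨a, ha⟩ := D.rat (-1)
    obtain ⟨V, h3, h4⟩ := fan_ivl D hρ a (D.c 1)
    have h5 : E (CT.code E (D.c 0)) V := by
      rw [h4, ha, D.vc, D.vc]
      norm_num
    have h6 : ∀ n k (y : PY I.Y), E (CT.code E ((g (n, k)).1 y)) V → ¬ Gap y.1.1 n k :=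
      fun n k y h7 h8 => by
        rw [e1 n k y h8, h4, D.vc, D.vc, Nat.cast_lt] at h7
        omega
    refine ⟨{⟨y0, hy0⟩, ⟨y1, hy1⟩, ⟨y2, hy2⟩}, V, Set.toFinite _, h3, fun _ _ => h5,
      fun n k h7 => ?_⟩
    by_contra h8
    have h9 : k ≤ f n := not_lt.1 h8
    rcases le_or_gt n0 n with h10 | h10
    · rcases h1 n h10 with h11 | h11
      · exact h6 n k _ (h7 ⟨y0, hy0⟩ (by simp)) (h11.mono h9)
      · exact h6 n k _ (h7 ⟨y1, hy1⟩ (by simp)) (h11.mono h9)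
    · refine h6 n k _ (h7 ⟨y2, hy2⟩ (by simp)) (fan_gap_zero ?_)
      have h11 := Finset.single_le_sum (f := f) (fun _ _ => Nat.zero_le _)
        (Finset.mem_range.2 h10)
      show k ≤ y2.1 0
      omega

theorem q1_of_iface (I : IfaceY E) (hs : ∀ a, Small.{0} {x // E x a}) : Q1 E := by
  obtain ⟨T, _, ⟨D⟩⟩ := exists_RD E
  obtain ⟨τ, hτ⟩ := exists_topY I.Y
  obtain ⟨ρ, hρ⟩ := exists_orderTop (E := E) D.R D.lt
  obtain ⟨C, π, hC, hπ⟩ := exists_Cp (E := E) (CT.code E I.Y) τ D.R ρ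
  exact ⟨_, _, _, _, _, _, ρ, _, τ, C, π, D.reals, hρ, tych_Y hτ D ρ, hC, hπ,
    menger_Y I hs hτ, fan_Y I hτ D hρ hC hπ⟩

end Pool.Agent.B8N
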