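import Pool.Agent.Work.MP_b8a914_gt.P.Prod
import Pool.Agent.Work.MP_b8a914_gt.F.Add
import Pool.Agent.Work.MP_b8a914_gt.N.Defs
import Pool.Agent.Work.MP_b8a914_gt.F.Defs

-- merged part: Pool.Agent.Work.MP_b8a914_gt.N.XD
section
/-! Codes of words and gaps. -/

namespace Pool.Agent.B8N
open Pool.Agent.B8F Pool.Agent.B8P

/-- the number of the word `y 0, …, y (k - 1)` -/
def wd (y : ℕ → ℕ) : ℕ → ℕ
  | 0 => 0
  | k + 1 => pr2 (wd y k) (y k) + 1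

/-- no running sum of `y` lies in `[n, k]` -/
def Gap (y : ℕ → ℕ) (n k : ℕ) : Prop := ∀ i, ¬ (n ≤ zf y i ∧ zf y i ≤ k)

theorem wd_congr {y y' : ℕ → ℕ} {k : ℕ} (h : ∀ i < k, y i = y' i) : wd y k = wd y' k := by
  induction k with
  | zero => rfl
  | succ k ih => rw [wd, wd, ih fun i hi => h i (hi.trans k.lt_succ_self), h k k.lt_succ_self]

theorem pr2_inj' {a b c d : ℕ} (h : pr2 a b = pr2 c d) : a = c ∧ b = d := by
  unfold pr2 at h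
  have e : a + b = c + d := by
    rcases lt_trichotomy (a + b) (c + d) with h1 | h1 | h1
    · exfalso; nlinarith
    · exact h1
    · exfalso; nlinarith
  rw [e] at h
  omega

theorem wd_inj {y y' : ℕ → ℕ} {k l : ℕ} (h : wd y k = wd y' l) :
    k = l ∧ ∀ i < k, y i = y' i := by
  induction k generalizing l with
  | zero =>
    cases l with
    | zero => exact ⟨rfl, fun i hi => absurd hi (Nat.not_lt_zero i)⟩
    | succ l => exact absurd h.symm (Nat.succ_ne_zero _)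
  | succ k ih =>
    cases l with
    | zero => exact absurd h (Nat.succ_ne_zero _)
    | succ l =>
      obtain ⟨h1, h2⟩ := pr2_inj' (Nat.succ_injective h)
      obtain ⟨rfl, h3⟩ := ih h1
      refine ⟨rfl, fun i hi => ?_⟩
      rcases Nat.lt_succ_iff_lt_or_eq.1 hi with h4 | rfl
      · exact h3 i h4
      · exact h2

theorem Gap.mono {y : ℕ → ℕ} {n k k' : ℕ} (h : Gap y n k) (hk : k' ≤ k) : Gap y n k' :=
  fun i hi => h i ⟨hi.1, hi.2.trans hk⟩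

end Pool.Agent.B8N
end

-- merged part: Pool.Agent.Work.MP_b8a914_gt.N.Iface
section
/-! The combinatorial properties of the generic models that are used inside the models. -/

namespace Pool.Agent.B8N
open Pool.Agent.Lib.ZFModel Pool.Agent.B8F Pool.Agent.B8P

variable {M : Type 1}

/-- reflection with three options -/
def RefN (E : M → M → Prop) [Fact (IsZFC E)] [CT E ℕ] : Prop :=
  ∀ Rel : FN E ℕ ℕ → ℕ → Prop, CS E (fun t : FN E ℕ ℕ × ℕ => Rel t.1 t.2) →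
    (∀ P, ∃ ε < 3, Rel P ε) → ∃ z : ℕ → ℕ, CF E z ∧ StrictMono z ∧
      ∀ A : PW E ℕ, ∃ B : Set ℕ, (B ⊆ A.1 ∨ Disjoint B A.1) ∧
        ∃ (P : FN E ℕ ℕ) (ε : ℕ), Rel P ε ∧ KeyP z B P.1 fun k => 3 * k + ε

/-- the example -/
structure IfaceY (E : M → M → Prop) [Fact (IsZFC E)] [CT E ℕ] where
  Y : PW E (FN E ℕ ℕ)
  men : ∀ φ : ℕ → ℕ, CF E φ → (∀ y ∈ Y.1, ∀ n, ∃ k, φ (pr2 n (wd y.1 k)) = 1) →
    ∃ g : ℕ → ℕ, CF E g ∧ ∀ y ∈ Y.1, ∃ n k, wd y.1 k ≤ g n ∧ φ (pr2 n (wd y.1 k)) = 1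
  dom : ∀ h : ℕ → ℕ, CF E h → ∃ y0 ∈ Y.1, ∃ y1 ∈ Y.1, ∃ n0, ∀ n, n0 ≤ n →
    Gap y0.1 n (h n) ∨ Gap y1.1 n (h n)
  big : ∀ k, ∃ y ∈ Y.1, y.1 0 = k

end Pool.Agent.B8N
end

-- merged part: Pool.Agent.Work.MP_b8a914_gt.N.Reals
section
/-! The real line of a model with the true natural numbers: the reals whose cut is coded. -/

namespace Pool.Agent.B8N
open Pool.Agent.Lib.ZFModel Pool.Agent.Work.MP_63c7e0_lc Pool.Agent.Work.MP_f50f0f_gt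
  Pool.Agent.B8F

set_option synthInstance.maxSize 100000

variable {M : Type 1}

/-- a typed copy of the real line of the model -/
structure RD (E : M → M → Prop) [Fact (IsZFC E)] [CT E ℕ] (T : Type) [CT E T] where
  v : T → ℝ
  c : ℕ → T
  R : M
  add : M
  mul : M
  lt : M
  is : Is E T R
  inj : Function.Injective v
  cf : CF E c
  vc : ∀ n, v (c n) = n
  rat : ∀ q : ℚ, ∃ t, v t = q
  lt_iff : ∀ x y, App E lt x y ↔ ∃ s t, x = CT.code E s ∧ y = CT.code E t ∧ v s < v t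
  reals : IsReals E R add mul lt (CT.code E (c 0)) (CT.code E (c 1))

variable (E : M → M → Prop) [Fact (IsZFC E)] [CT E ℕ] [NatE E]

set_option linter.unusedSectionVars false

/-- codes of rational numbers -/
abbrev RealsQ : Type := ℕ × ℕ × ℕ

/-- the value of a code -/
noncomputable def Reals_q (t : RealsQ) : ℝ := ((t.1 : ℝ) - t.2.1) / ((t.2.2 : ℝ) + 1)

theorem Reals_surj (x : ℚ) : ∃ t, Reals_q t = x := by
  refine ⟨(x.num.toNat, (-x.num).toNat, x.den - 1), ?_⟩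
  have h3 : ((x.den - 1 : ℕ) : ℝ) + 1 = x.den := by
    rw [Nat.cast_pred x.den_pos]; ring
  have h5 : (x.num.toNat : ℤ) - (-x.num).toNat = x.num := Int.toNat_sub_toNat_neg _
  have h6 : ((x.num.toNat : ℕ) : ℝ) - (((-x.num).toNat : ℕ) : ℝ) = x.num := by
    rw [← Int.cast_natCast x.num.toNat, ← Int.cast_natCast (-x.num).toNat, ← Int.cast_sub, h5]
  show (((x.num.toNat : ℕ) : ℝ) - (((-x.num).toNat : ℕ) : ℝ)) / (((x.den - 1 : ℕ) : ℝ) + 1) = x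
  rw [h3, h6, Rat.cast_def]

theorem Reals_btwn {x y : ℝ} (h : x < y) : ∃ t, x < Reals_q t ∧ Reals_q t < y := by
  obtain ⟨r, h1, h2⟩ := exists_rat_btwn h
  obtain ⟨t, ht⟩ := Reals_surj r
  exact ⟨t, ht ▸ h1, ht ▸ h2⟩

theorem Reals_q_lt (s t : RealsQ) : Reals_q s < Reals_q t ↔
    s.1 * (t.2.2 + 1) + t.2.1 * (s.2.2 + 1) < t.1 * (s.2.2 + 1) + s.2.1 * (t.2.2 + 1) := by
  unfold Reals_q
  rw [div_lt_div_iff₀ (by positivity) (by positivity), ← @Nat.cast_lt ℝ]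
  push_cast
  constructor <;> intro h <;> linarith

/-- sum of codes -/
def Reals_qa (s t : RealsQ) : RealsQ :=
  (s.1 * (t.2.2 + 1) + t.1 * (s.2.2 + 1), s.2.1 * (t.2.2 + 1) + t.2.1 * (s.2.2 + 1),
    s.2.2 * t.2.2 + s.2.2 + t.2.2)

/-- product of codes -/
def Reals_qm (s t : RealsQ) : RealsQ :=
  (s.1 * t.1 + s.2.1 * t.2.1, s.1 * t.2.1 + s.2.1 * t.1, s.2.2 * t.2.2 + s.2.2 + t.2.2)

theorem Reals_q_add (s t : RealsQ) : Reals_q (Reals_qa s t) = Reals_q s + Reals_q t := by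
  unfold Reals_q Reals_qa
  rw [div_add_div _ _ (by positivity) (by positivity), div_eq_div_iff (by positivity) (by positivity)]
  push_cast
  ring

theorem Reals_q_mul (s t : RealsQ) : Reals_q (Reals_qm s t) = Reals_q s * Reals_q t := by
  unfold Reals_q Reals_qm
  rw [div_mul_div_comm, div_eq_div_iff (by positivity) (by positivity)]
  push_cast
  ring

theorem Reals_q_neg (s : RealsQ) : Reals_q (s.2.1, s.1, s.2.2) = -Reals_q s := by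
  unfold Reals_q
  ring

theorem Reals_q_nat (n : ℕ) : Reals_q (n, 0, 0) = n := by simp [Reals_q]

theorem Reals_add_iff (r x y : ℝ) :
    r < x + y ↔ ∃ s t, Reals_q s < x ∧ Reals_q t < y ∧ r < Reals_q (Reals_qa s t) := by
  constructor
  · intro h
    obtain ⟨s, h1, h2⟩ := Reals_btwn (show r - y < x by linarith)
    obtain ⟨t, h3, h4⟩ := Reals_btwn (show r - Reals_q s < y by linarith)
    exact ⟨s, t, h2, h4, by rw [Reals_q_add]; linarith⟩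
  · rintro ⟨s, t, h1, h2, h3⟩
    rw [Reals_q_add] at h3
    linarith

theorem Reals_mul_iff (r a y : ℝ) : r < a * y ↔
    ∃ s t, Reals_q s < y ∧ ¬ Reals_q t < y ∧ r < a * Reals_q s ∧ r < a * Reals_q t := by
  constructor
  · intro h
    have h1 : {z : ℝ | r < a * z} ∈ nhds y :=
      (isOpen_lt continuous_const (continuous_const.mul continuous_id)).mem_nhds h
    obtain ⟨l, u, ⟨h2, h3⟩, h4⟩ := mem_nhds_iff_exists_Ioo_subset.1 h1
    obtain ⟨s, h5, h6⟩ := Reals_btwn h2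
    obtain ⟨t, h7, h8⟩ := Reals_btwn h3
    exact ⟨s, t, h6, not_lt.2 h7.le, h4 ⟨h5, h6.trans h3⟩, h4 ⟨h2.trans h7, h8⟩⟩
  · rintro ⟨s, t, h1, h2, h3, h4⟩
    rcases le_total 0 a with ha | ha
    · exact h3.trans_le (mul_le_mul_of_nonneg_left h1.le ha)
    · exact h4.trans_le (mul_le_mul_of_nonpos_left (not_lt.1 h2) ha)

section
variable {T T' : Type} [CT E T] [CT E T']

/-- real functions with coded cuts -/
def RealsCR (f : T → ℝ) : Prop := CS E fun p : T × RealsQ => Reals_q p.2 < f p.1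

variable {E}

theorem Reals_at {f : T → ℝ} (h : RealsCR E f) (a : T' → T) (b : T' → RealsQ) [CF E a] [CF E b] :
    CS E fun t => Reals_q (b t) < f (a t) := CS.comp h fun t => (a t, b t)

theorem Reals_comp {f : T → ℝ} (h : RealsCR E f) (a : T' → T) [CF E a] :
    RealsCR E fun t => f (a t) := by
  have : CF E fun p : T' × RealsQ => a p.1 := CF.comp a fun p : T' × RealsQ => p.1
  exact Reals_at h (fun p : T' × RealsQ => a p.1) fun p => p.2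

theorem Reals_congr {f g : T → ℝ} (h : RealsCR E f) (e : ∀ t, g t = f t) : RealsCR E g := by
  rw [funext e]; exact h

variable (E) in
theorem Reals_crq0 : RealsCR E Reals_q :=
  (inferInstance : CS E fun p : RealsQ × RealsQ =>
    p.2.1 * (p.1.2.2 + 1) + p.1.2.1 * (p.2.2.2 + 1) <
      p.1.1 * (p.2.2.2 + 1) + p.2.2.1 * (p.1.2.2 + 1)).congr fun p => Reals_q_lt p.2 p.1

theorem Reals_crq (b : T → RealsQ) [CF E b] : RealsCR E fun t => Reals_q (b t) :=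
  Reals_comp (Reals_crq0 E) b

variable (E) in
theorem Reals_cfa : CF E fun p : RealsQ × RealsQ => Reals_qa p.1 p.2 := by
  unfold Reals_qa
  infer_instance

variable (E) in
theorem Reals_cfm : CF E fun p : RealsQ × RealsQ => Reals_qm p.1 p.2 := by
  unfold Reals_qm
  infer_instance

theorem Reals_lt {f g : T → ℝ} (hf : RealsCR E f) (hg : RealsCR E g) :
    CS E fun t => f t < g t := by
  have h1 : CS E fun p : T × RealsQ => Reals_q p.2 < f p.1 := hf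
  have h2 : CS E fun p : T × RealsQ => Reals_q p.2 < g p.1 := hg
  refine (inferInstance : CS E fun t => ∃ r, ¬ Reals_q r < f t ∧ Reals_q r < g t).congr
    fun t => ⟨fun h => ?_, fun ⟨r, h3, h4⟩ => (not_lt.1 h3).trans_lt h4⟩
  obtain ⟨r, h3, h4⟩ := Reals_btwn h
  exact ⟨r, not_lt.2 h3.le, h4⟩

theorem Reals_add {f g : T → ℝ} (hf : RealsCR E f) (hg : RealsCR E g) :
    RealsCR E fun t => f t + g t := by
  have h1 : CS E fun p : ((T × RealsQ) × RealsQ) × RealsQ => Reals_q p.1.2 < f p.1.1.1 :=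
    Reals_at hf _ _
  have h2 : CS E fun p : ((T × RealsQ) × RealsQ) × RealsQ => Reals_q p.2 < g p.1.1.1 :=
    Reals_at hg _ _
  have h0 : CF E fun p : ((T × RealsQ) × RealsQ) × RealsQ => Reals_qa p.1.2 p.2 :=
    CF.comp (fun p : RealsQ × RealsQ => Reals_qa p.1 p.2)
      (fun p : ((T × RealsQ) × RealsQ) × RealsQ => (p.1.2, p.2)) (hg := Reals_cfa E)
  have h3 : CS E fun p : ((T × RealsQ) × RealsQ) × RealsQ =>
      Reals_q p.1.1.2 < Reals_q (Reals_qa p.1.2 p.2) := Reals_at (Reals_crq0 E) _ _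
  exact (inferInstance : CS E fun p : T × RealsQ => ∃ s t, Reals_q s < f p.1 ∧ Reals_q t < g p.1 ∧
    Reals_q p.2 < Reals_q (Reals_qa s t)).congr fun p => Reals_add_iff _ _ _

theorem Reals_neg {f : T → ℝ} (hf : RealsCR E f) : RealsCR E fun t => -f t :=
  (Reals_lt (Reals_comp hf fun p : T × RealsQ => p.1)
    (Reals_crq fun p : T × RealsQ => (p.2.2.1, p.2.1, p.2.2.2))).congr fun p => by
      rw [Reals_q_neg]; exact lt_neg

theorem Reals_step {f g : T → ℝ} (hg : RealsCR E g)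
    (hf : RealsCR E fun p : T × RealsQ => f p.1 * Reals_q p.2) : RealsCR E fun t => f t * g t := by
  have h1 : CS E fun p : ((T × RealsQ) × RealsQ) × RealsQ => Reals_q p.1.2 < g p.1.1.1 :=
    Reals_at hg _ _
  have h2 : CS E fun p : ((T × RealsQ) × RealsQ) × RealsQ => Reals_q p.2 < g p.1.1.1 :=
    Reals_at hg _ _
  have h3 : CS E fun p : ((T × RealsQ) × RealsQ) × RealsQ =>
      Reals_q p.1.1.2 < f p.1.1.1 * Reals_q p.1.2 :=
    Reals_at hf (fun p : ((T × RealsQ) × RealsQ) × RealsQ => (p.1.1.1, p.1.2)) _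
  have h4 : CS E fun p : ((T × RealsQ) × RealsQ) × RealsQ =>
      Reals_q p.1.1.2 < f p.1.1.1 * Reals_q p.2 :=
    Reals_at hf (fun p : ((T × RealsQ) × RealsQ) × RealsQ => (p.1.1.1, p.2)) _
  exact (inferInstance : CS E fun p : T × RealsQ => ∃ s t, Reals_q s < g p.1 ∧
    ¬ Reals_q t < g p.1 ∧ Reals_q p.2 < f p.1 * Reals_q s ∧
      Reals_q p.2 < f p.1 * Reals_q t).congr fun p => Reals_mul_iff _ _ _

theorem Reals_mul {f g : T → ℝ} (hf : RealsCR E f) (hg : RealsCR E g) :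
    RealsCR E fun t => f t * g t := by
  have h0 : CF E fun p : (T × RealsQ) × RealsQ => Reals_qm p.1.2 p.2 :=
    CF.comp (fun p : RealsQ × RealsQ => Reals_qm p.1 p.2)
      (fun p : (T × RealsQ) × RealsQ => (p.1.2, p.2)) (hg := Reals_cfm E)
  have h1 : RealsCR E fun p : (T × RealsQ) × RealsQ => Reals_q p.1.2 * Reals_q p.2 :=
    Reals_congr (Reals_crq fun p : (T × RealsQ) × RealsQ => Reals_qm p.1.2 p.2) fun p =>
      (Reals_q_mul _ _).symm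
  have h2 : RealsCR E fun p : T × RealsQ => Reals_q p.2 * f p.1 :=
    Reals_step (f := fun p : T × RealsQ => Reals_q p.2) (g := fun p : T × RealsQ => f p.1)
      (Reals_comp hf fun p : T × RealsQ => p.1) h1
  exact Reals_step hg (Reals_congr h2 fun p => mul_comm _ _)

end

/-- the reals with a coded cut -/
def RealsT : Type := {x : ℝ // CS E fun t : RealsQ => Reals_q t < x}

variable {E} in
/-- the cut of a real -/
def Reals_cut (x : RealsT E) : PW E RealsQ := ⟨{t | Reals_q t < x.1}, x.2⟩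

theorem Reals_ext {x y : ℝ} (h : ∀ t, Reals_q t < x ↔ Reals_q t < y) : x = y := by
  refine le_antisymm (not_lt.1 fun h1 => ?_) (not_lt.1 fun h1 => ?_)
  · obtain ⟨t, h2, h3⟩ := Reals_btwn h1
    exact lt_asymm h2 ((h t).1 h3)
  · obtain ⟨t, h2, h3⟩ := Reals_btwn h1
    exact lt_asymm h2 ((h t).2 h3)

noncomputable instance Reals_ct : CT E (RealsT E) where
  code x := CT.code E (Reals_cut x)
  inj := fun x y h => Subtype.ext (Reals_ext fun t => by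
    have h1 : Reals_cut x = Reals_cut y := CT.inj h
    exact Set.ext_iff.1 (congrArg Subtype.val h1) t)
  set := by
    have h1 : CS E fun p : (PW E RealsQ × RealsQ) × RealsQ => Reals_q p.2 < Reals_q p.1.2 :=
      Reals_at (Reals_crq0 E) _ _
    have h2 : CS E fun p : (PW E RealsQ × RealsQ) × RealsQ => Reals_q p.1.2 < Reals_q p.2 :=
      Reals_at (Reals_crq0 E) _ _
    have h : CS E fun U : PW E RealsQ => ∃ x : RealsT E, Reals_cut x = U := by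
      refine (inferInstance : CS E fun U : PW E RealsQ => (∃ t, t ∈ U.1) ∧
        (∃ b, ∀ t, t ∈ U.1 → Reals_q t < Reals_q b) ∧
        ∀ s, s ∈ U.1 ↔ ∃ t, t ∈ U.1 ∧ Reals_q s < Reals_q t).congr fun U => ⟨?_, ?_⟩
      · rintro ⟨x, rfl⟩
        obtain ⟨s, -, h3⟩ := Reals_btwn (sub_one_lt x.1)
        obtain ⟨b, h4, -⟩ := Reals_btwn (lt_add_one x.1)
        refine ⟨⟨s, h3⟩, ⟨b, fun t (ht : Reals_q t < x.1) => ht.trans h4⟩,
          fun s => ⟨fun hs => ?_, fun ⟨t, ht, h5⟩ => lt_trans h5 ht⟩⟩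
        obtain ⟨t, h5, h6⟩ := Reals_btwn (show Reals_q s < x.1 from hs)
        exact ⟨t, h6, h5⟩
      · rintro ⟨⟨t0, h3⟩, ⟨b, h4⟩, h5⟩
        have e : ∀ s, Reals_q s < sSup (Reals_q '' U.1) ↔ s ∈ U.1 := fun s => by
          have hne : (Reals_q '' U.1).Nonempty := ⟨_, t0, h3, rfl⟩
          have hbd : BddAbove (Reals_q '' U.1) :=
            ⟨Reals_q b, by rintro _ ⟨t, ht, rfl⟩; exact (h4 t ht).le⟩
          rw [lt_csSup_iff hbd hne, h5]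
          exact ⟨by rintro ⟨_, ⟨t, ht, rfl⟩, h6⟩; exact ⟨t, ht, h6⟩,
            fun ⟨t, ht, h6⟩ => ⟨_, ⟨t, ht, rfl⟩, h6⟩⟩
        exact ⟨⟨_, U.2.congr e⟩, Subtype.ext (Set.ext e)⟩
    obtain ⟨a, ha⟩ := cs_iff_coded.1 h
    refine ⟨a, fun x => (ha x).trans ⟨?_, ?_⟩⟩
    · rintro ⟨_, ⟨f, rfl⟩, rfl⟩; exact ⟨f, rfl⟩
    · rintro ⟨f, rfl⟩; exact ⟨_, ⟨f, rfl⟩, rfl⟩

theorem Reals_val : RealsCR E fun x : RealsT E => x.1 :=
  (CS.Em (fun p : RealsT E × RealsQ => p.2) fun p => p.1).congr fun p =>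
    (mem_code_pw (Reals_cut p.1) p.2).symm

variable {E}

theorem Reals_cf {T : Type} [CT E T] (φ : T → RealsT E) (h : RealsCR E fun t => (φ t).1) :
    CF E φ := by
  have h1 : CS E fun p : (T × RealsT E) × RealsQ => Reals_q p.2 < p.1.2.1 :=
    Reals_at (Reals_val E) (fun p : (T × RealsT E) × RealsQ => p.1.2) _
  have h2 : CS E fun p : (T × RealsT E) × RealsQ => Reals_q p.2 < (φ p.1.1).1 :=
    Reals_at h (fun p : (T × RealsT E) × RealsQ => p.1.1) _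
  exact CF.of_rel (fun t y => ∀ r, Reals_q r < y.1 ↔ Reals_q r < (φ t).1) fun t y =>
    ⟨fun e _ => e ▸ Iff.rfl, fun e => Subtype.ext (Reals_ext e)⟩

/-- the value of a real function with coded cuts -/
def Reals_mk {T : Type} [CT E T] {f : T → ℝ} (h : RealsCR E f) (t : T) : RealsT E :=
  ⟨f t, Reals_at h (fun _ => t) fun r => r⟩

theorem Reals_bin {f : RealsT E × RealsT E → ℝ} (h : RealsCR E f) {R : M}
    (hR : Is E (RealsT E) R) : ∃ g, (∃ W, Pool.Agent.Work.MP_58a5a1_lc.IsProd E W R R ∧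
      IsFun E g W R) ∧ ∀ x y n, Pool.Agent.Work.MP_d95c0d_gt.Val E g x y n ↔
      ∃ s t u : RealsT E, x = CT.code E s ∧ y = CT.code E t ∧ n = CT.code E u ∧
        u.1 = f (s, t) := by
  obtain ⟨W, hW⟩ := exists_is E (RealsT E × RealsT E)
  have : CF E (Reals_mk h) := Reals_cf _ h
  obtain ⟨g, h1, h2⟩ := isFun_of_cf hW hR (Reals_mk h)
  refine ⟨g, ⟨W, fun p => (hW p).trans ⟨?_, ?_⟩, h1⟩, fun x y n => ⟨?_, ?_⟩⟩
  · rintro ⟨⟨s, t⟩, rfl⟩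
    exact ⟨_, _, (hR _).2 ⟨s, rfl⟩, (hR _).2 ⟨t, rfl⟩, isPair_pr _ _⟩
  · rintro ⟨a, b, ha, hb, hp⟩
    obtain ⟨s, rfl⟩ := (hR a).1 ha
    obtain ⟨t, rfl⟩ := (hR b).1 hb
    exact ⟨(s, t), (isPair_iff.1 hp).symm⟩
  · rintro ⟨p, hp, h3⟩
    obtain ⟨⟨s, t⟩, rfl, rfl⟩ := (h2 _ _).1 h3
    obtain ⟨h4, h5⟩ := pr_inj.1 (isPair_iff.1 hp)
    exact ⟨s, t, _, h4.symm, h5.symm, rfl, rfl⟩
  · rintro ⟨s, t, u, rfl, rfl, rfl, h3⟩
    obtain rfl : u = Reals_mk h (s, t) := Subtype.ext h3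
    exact ⟨_, isPair_pr _ _, (h2 _ _).2 ⟨(s, t), rfl, rfl⟩⟩

theorem Reals_inv (x : RealsT E) (hx : x.1 ≠ 0) : ∃ y : RealsT E, x.1 * y.1 = 1 := by
  have h1 : RealsCR E fun r : RealsQ => Reals_q r * x.1 :=
    Reals_mul (Reals_crq0 E) (Reals_comp (Reals_val E) fun _ => x)
  have h2 : RealsCR E fun _ : RealsQ => Reals_q (1, 0, 0) := Reals_crq _
  have e : Reals_q (1, 0, 0) = 1 := by rw [Reals_q_nat, Nat.cast_one]
  refine ⟨⟨x.1⁻¹, ?_⟩, mul_inv_cancel₀ hx⟩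
  rcases hx.lt_or_gt with h | h
  · refine (Reals_lt h2 h1).congr fun r => ?_
    rw [e, ← one_div, lt_div_iff_of_neg h]
  · refine (Reals_lt h1 h2).congr fun r => ?_
    rw [e, ← one_div, lt_div_iff₀ h]

theorem Reals_sup (U : PW E (RealsT E)) (h0 : ∃ x, x ∈ U.1)
    (hb : ∃ b : ℝ, ∀ x ∈ U.1, x.1 ≤ b) :
    ∃ b : RealsT E, (∀ x ∈ U.1, x.1 ≤ b.1) ∧ ∀ c : ℝ, (∀ x ∈ U.1, x.1 ≤ c) → b.1 ≤ c := by
  obtain ⟨x0, h0⟩ := h0
  obtain ⟨b, hb⟩ := hb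
  have hbd : BddAbove (Subtype.val '' U.1) := ⟨b, by rintro _ ⟨x, hx, rfl⟩; exact hb x hx⟩
  have hne : (Subtype.val '' U.1).Nonempty := ⟨_, x0, h0, rfl⟩
  have h1 : CS E fun p : RealsQ × RealsT E => Reals_q p.1 < p.2.1 :=
    Reals_at (Reals_val E) (fun p : RealsQ × RealsT E => p.2) _
  refine ⟨⟨sSup (Subtype.val '' U.1), (inferInstance : CS E fun r : RealsQ =>
    ∃ x : RealsT E, x ∈ U.1 ∧ Reals_q r < x.1).congr fun r => ?_⟩,
    fun x hx => le_csSup hbd ⟨x, hx, rfl⟩,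
    fun c hc => csSup_le hne (by rintro _ ⟨x, hx, rfl⟩; exact hc x hx)⟩
  rw [lt_csSup_iff hbd hne]
  exact ⟨by rintro ⟨_, ⟨t, ht, rfl⟩, h6⟩; exact ⟨t, ht, h6⟩,
    fun ⟨t, ht, h6⟩ => ⟨_, ⟨t, ht, rfl⟩, h6⟩⟩

theorem Reals_mon {R g : M} (hR : Is E (RealsT E) R) {f : ℝ → ℝ → ℝ}
    (h0 : ∃ W, Pool.Agent.Work.MP_58a5a1_lc.IsProd E W R R ∧ IsFun E g W R)
    (hg : ∀ x y n, Pool.Agent.Work.MP_d95c0d_gt.Val E g x y n ↔
      ∃ s t u : RealsT E, x = CT.code E s ∧ y = CT.code E t ∧ n = CT.code E u ∧ u.1 = f s.1 t.1)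
    (e : RealsT E) (f1 : ∀ a b, f a b = f b a) (f2 : ∀ a b c, f (f a b) c = f a (f b c))
    (f3 : ∀ a, f a e.1 = a) : IsCommMon E R g (CT.code E e) := by
  refine ⟨h0, (hR _).2 ⟨e, rfl⟩, fun x y n h => ?_, fun x y w s t u h1 h2 h3 => ?_,
    fun x hx => ?_⟩
  · obtain ⟨s, t, u, rfl, rfl, rfl, h1⟩ := (hg _ _ _).1 h
    exact (hg _ _ _).2 ⟨t, s, u, rfl, rfl, rfl, h1.trans (f1 _ _)⟩
  · obtain ⟨x, y, s, rfl, rfl, rfl, e1⟩ := (hg _ _ _).1 h1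
    obtain ⟨s', w, u, q1, rfl, rfl, e2⟩ := (hg _ _ _).1 h2
    obtain ⟨y', w', t, q2, q3, rfl, e3⟩ := (hg _ _ _).1 h3
    obtain rfl := CT.inj q1
    obtain rfl := CT.inj q2
    obtain rfl := CT.inj q3
    exact (hg _ _ _).2 ⟨x, t, u, rfl, rfl, rfl, by rw [e2, e1, e3, f2]⟩
  · obtain ⟨x, rfl⟩ := (hR _).1 hx
    exact (hg _ _ _).2 ⟨x, e, x, rfl, rfl, rfl, (f3 _).symm⟩

variable (E)

/-- `T = {x : ℝ // CS E fun t : ℕ × ℕ × ℕ => q t < x}` with `q (i, j, k) = (i - j) / (k + 1)`, coded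
by its cut in `PW E (ℕ × ℕ × ℕ)`.  The relations `q s < q t`, `q r < q s + q t`, `q r < q s * q t`
are polynomial inequalities in `ℕ`, so coded.  Cuts: nonempty, bounded, closed downwards, no
largest value.  Cut of `x + y`, of `-x`, of `x * y` (some rational box around `(x, y)` has its four
corner products above `q r`), of `x⁻¹`, of a supremum (union) are coded. -/
theorem exists_RD : ∃ (T : Type) (_ : CT E T), Nonempty (RD E T) := by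
  obtain ⟨R, hR⟩ := exists_is E (RealsT E)
  have v1 : RealsCR E fun p : RealsT E × RealsT E => p.1.1 :=
    Reals_comp (Reals_val E) fun p : RealsT E × RealsT E => p.1
  have v2 : RealsCR E fun p : RealsT E × RealsT E => p.2.1 :=
    Reals_comp (Reals_val E) fun p : RealsT E × RealsT E => p.2
  obtain ⟨add, a0, ha⟩ := Reals_bin (Reals_add v1 v2) hR
  obtain ⟨mul, m0, hm⟩ := Reals_bin (Reals_mul v1 v2) hR
  obtain ⟨lt, hl0⟩ := cs_iff_coded.1 (Reals_lt v1 v2)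
  have hl : ∀ x y, App E lt x y ↔
      ∃ s t : RealsT E, x = CT.code E s ∧ y = CT.code E t ∧ s.1 < t.1 := fun x y => by
    constructor
    · rintro ⟨p, hp, h1⟩
      obtain ⟨⟨s, t⟩, h2, rfl⟩ := (hl0 p).1 hp
      obtain ⟨h4, h5⟩ := pr_inj.1 (isPair_iff.1 h1)
      exact ⟨s, t, h4.symm, h5.symm, h2⟩
    · rintro ⟨s, t, rfl, rfl, h⟩
      exact ⟨_, (hl0 _).2 ⟨(s, t), h, rfl⟩, isPair_pr _ _⟩
  have hc : RealsCR E fun n : ℕ => Reals_q (n, 0, 0) := Reals_crq fun n : ℕ => (n, 0, 0)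
  have vc : ∀ n : ℕ, (Reals_mk hc n).1 = n := Reals_q_nat
  have c0 : (Reals_mk hc 0).1 = 0 := (vc 0).trans Nat.cast_zero
  have c1 : (Reals_mk hc 1).1 = 1 := (vc 1).trans Nat.cast_one
  have ua : ∀ s t u : RealsT E, Pool.Agent.Work.MP_d95c0d_gt.Val E add (CT.code E s) (CT.code E t)
      (CT.code E u) ↔ u.1 = s.1 + t.1 := fun s t u => (ha _ _ _).trans ⟨by
    rintro ⟨s', t', u', q1, q2, q3, h⟩
    rw [CT.inj q1, CT.inj q2, CT.inj q3]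
    exact h, fun h => ⟨s, t, u, rfl, rfl, rfl, h⟩⟩
  have um : ∀ s t u : RealsT E, Pool.Agent.Work.MP_d95c0d_gt.Val E mul (CT.code E s) (CT.code E t)
      (CT.code E u) ↔ u.1 = s.1 * t.1 := fun s t u => (hm _ _ _).trans ⟨by
    rintro ⟨s', t', u', q1, q2, q3, h⟩
    rw [CT.inj q1, CT.inj q2, CT.inj q3]
    exact h, fun h => ⟨s, t, u, rfl, rfl, rfl, h⟩⟩
  have ul : ∀ s t : RealsT E, App E lt (CT.code E s) (CT.code E t) ↔ s.1 < t.1 := fun s t =>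
    (hl _ _).trans ⟨by
      rintro ⟨s', t', q1, q2, h⟩
      rw [CT.inj q1, CT.inj q2]
      exact h, fun h => ⟨s, t, rfl, rfl, h⟩⟩
  refine ⟨RealsT E, inferInstance, ⟨
    { v := Subtype.val, c := Reals_mk hc, R := R, add := add, mul := mul, lt := lt, is := hR
      inj := Subtype.val_injective, cf := Reals_cf _ hc, vc := vc
      rat := fun x => ?_, lt_iff := hl, reals := ?_ }⟩⟩
  · obtain ⟨t, ht⟩ := Reals_surj x
    exact ⟨Reals_mk (Reals_crq0 E) t, ht⟩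
  refine ⟨Reals_mon hR (f := fun a b => a + b) a0 ha _ add_comm add_assoc fun a => ?_,
    Reals_mon hR (f := fun a b => a * b) m0 hm _ mul_comm mul_assoc fun a => ?_,
    fun e => ?_, fun x hx => ?_, fun x hx h0 => ?_, fun x y w s t u v h1 h2 h3 h4 => ?_,
    fun p hp => ?_, fun x h => ?_, fun x y w h1 h2 => ?_, fun x y hx hy => ?_,
    fun x y w s t h1 h2 h3 => ?_, fun x y t h1 h2 h3 => ?_, fun S hS h0 hb => ?_⟩
  · rw [c0]; exact add_zero a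
  · rw [c1]; exact mul_one a
  · have h' : Reals_mk hc 0 = Reals_mk hc 1 := CT.inj e
    have h : (Reals_mk hc 0).1 = (Reals_mk hc 1).1 := congrArg Subtype.val h'
    rw [c0, c1] at h
    exact zero_ne_one h
  · obtain ⟨x, rfl⟩ := (hR _).1 hx
    exact ⟨_, (ua x (Reals_mk (Reals_neg (Reals_val E)) x) _).2
      (c0.trans (add_neg_cancel x.1).symm)⟩
  · obtain ⟨x, rfl⟩ := (hR _).1 hx
    obtain ⟨y, hy⟩ := Reals_inv x fun e => h0 (congrArg _ (Subtype.ext (e.trans c0.symm)))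
    exact ⟨_, (um x y _).2 (c1.trans hy.symm)⟩
  · obtain ⟨y, w, s, rfl, rfl, rfl, e1⟩ := (ha _ _ _).1 h1
    obtain ⟨t, u, v, rfl, rfl, rfl, e4⟩ := (ha _ _ _).1 h4
    obtain ⟨x, -, -, rfl, -⟩ := (hm _ _ _).1 h2
    have e2 := (um _ _ _).1 h2
    have e3 := (um _ _ _).1 h3
    refine (um _ _ _).2 ?_
    have e1' : s.1 = y.1 + w.1 := e1
    have e4' : v.1 = t.1 + u.1 := e4
    rw [e4', e1', e2, e3, mul_add]
  · obtain ⟨⟨s, t⟩, -, rfl⟩ := (hl0 p).1 hp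
    exact ⟨_, _, (hR _).2 ⟨s, rfl⟩, (hR _).2 ⟨t, rfl⟩, isPair_pr _ _⟩
  · obtain ⟨x, -, rfl, -⟩ := (hl _ _).1 h
    exact lt_irrefl _ ((ul _ _).1 h)
  · obtain ⟨x, y, rfl, rfl, e1⟩ := (hl _ _).1 h1
    obtain ⟨-, w, -, rfl, -⟩ := (hl _ _).1 h2
    exact (ul _ _).2 (e1.trans ((ul _ _).1 h2))
  · obtain ⟨x, rfl⟩ := (hR _).1 hx
    obtain ⟨y, rfl⟩ := (hR _).1 hy
    rcases lt_trichotomy x.1 y.1 with h | h | h
    · exact Or.inl ((ul _ _).2 h)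
    · exact Or.inr (Or.inl (congrArg _ (Subtype.ext h)))
    · exact Or.inr (Or.inr ((ul _ _).2 h))
  · obtain ⟨x, w, s, rfl, rfl, rfl, -⟩ := (ha _ _ _).1 h2
    obtain ⟨y, -, t, rfl, -, rfl, -⟩ := (ha _ _ _).1 h3
    refine (ul _ _).2 ?_
    rw [(ua _ _ _).1 h2, (ua _ _ _).1 h3]
    exact add_lt_add_left ((ul _ _).1 h1) _
  · obtain ⟨x, y, t, rfl, rfl, rfl, -⟩ := (hm _ _ _).1 h3
    have e1 := (ul _ _).1 h1
    have e2 := (ul _ _).1 h2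
    refine (ul _ _).2 ?_
    rw [c0] at e1 e2 ⊢
    rw [(um _ _ _).1 h3]
    exact mul_pos e1 e2
  · obtain ⟨U, rfl⟩ := pw_of_sub hR hS
    have key : ∀ b : RealsT E, IsUB E R lt (CT.code E U) (CT.code E b) ↔ ∀ x ∈ U.1, x.1 ≤ b.1 :=
      fun b => ⟨fun h x hx => not_lt.1 fun h1 => h.2 _ ((mem_code_pw _ _).2 hx) ((ul _ _).2 h1),
        fun h => ⟨(hR _).2 ⟨b, rfl⟩, fun y hy h1 => by
          obtain ⟨t, ht, rfl⟩ := (E_code_pw _ _).1 hy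
          exact not_lt.2 (h t ht) ((ul _ _).1 h1)⟩⟩
    obtain ⟨x0, h0⟩ := h0
    obtain ⟨x0, h0, -⟩ := (E_code_pw _ _).1 h0
    obtain ⟨b, hb⟩ := hb
    obtain ⟨b, rfl⟩ := (hR _).1 hb.1
    obtain ⟨s, h1, h2⟩ := Reals_sup U ⟨x0, h0⟩ ⟨b.1, (key b).1 hb⟩
    refine ⟨_, (key s).2 h1, fun c hc' h3 => ?_⟩
    obtain ⟨c, rfl⟩ := (hR _).1 hc'.1
    exact not_lt.2 (h2 _ ((key c).1 hc')) ((ul _ _).1 h3)

end Pool.Agent.B8N
end

-- merged part: Pool.Agent.Work.MP_b8a914_gt.N.Space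
section
/-! The example as a space of the model: Tychonoff and Menger. -/

set_option linter.unusedSectionVars false

namespace Pool.Agent.B8N
open Pool.Agent.Lib.ZFModel Pool.Agent.Work.MP_63c7e0_lc Pool.Agent.Work.MP_f50f0f_gt
  Pool.Agent.B8F Pool.Agent.B8P

set_option synthInstance.maxSize 100000

variable {M : Type 1} {E : M → M → Prop} [Fact (IsZFC E)] [CT E ℕ] [NatE E]

/-- the points of `Y` -/
abbrev PY (Y : PW E (FN E ℕ ℕ)) : Type := {f : FN E ℕ ℕ // f ∈ Y.1}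

/-- `τ` is the topology of `Y` as a subspace of the Baire space -/
def IsTopY (Y : PW E (FN E ℕ ℕ)) (τ : M) : Prop :=
  ∀ U, E U τ ↔ ∃ V : PW E (PY Y), CT.code E V = U ∧
    ∀ f ∈ V.1, ∃ k, ∀ g : PY Y, (∀ i < k, g.1.1 i = f.1.1 i) → g ∈ V.1

theorem exists_topY (Y : PW E (FN E ℕ ℕ)) : ∃ τ, IsTopY Y τ := by
  have h : CS E fun V : PW E (PY Y) =>
      ∀ f, f ∈ V.1 → ∃ k, ∀ g : PY Y, (∀ i, i < k → g.1.1 i = f.1.1 i) → g ∈ V.1 := inferInstance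
  let S : PW E (PW E (PY Y)) := ⟨{V | ∀ f, f ∈ V.1 → ∃ k, ∀ g : PY Y,
    (∀ i, i < k → g.1.1 i = f.1.1 i) → g ∈ V.1}, h⟩
  exact ⟨CT.code E S, fun U => (E_code_pw S U).trans
    ⟨fun ⟨V, h1, h2⟩ => ⟨V, h2, h1⟩, fun ⟨V, h1, h2⟩ => ⟨V, h2, h1⟩⟩⟩

/-- the open sets are the subsets with a cylinder around each point -/
theorem space_open {Y : PW E (FN E ℕ ℕ)} {τ : M} (h : IsTopY Y τ) (U : M) :
    E U τ ↔ Sub E U (CT.code E Y) ∧ ∀ f : PY Y, E (CT.code E f) U →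
      ∃ k, ∀ g : PY Y, (∀ i < k, g.1.1 i = f.1.1 i) → E (CT.code E g) U := by
  refine (h U).trans ⟨?_, fun ⟨h1, h2⟩ => ?_⟩
  · rintro ⟨V, rfl, hV⟩
    refine ⟨fun x hx => ?_, fun f hf => ?_⟩
    · obtain ⟨t, -, rfl⟩ := (E_code_pw V x).1 hx
      exact (is_sub Y _).2 ⟨t, rfl⟩
    · obtain ⟨k, hk⟩ := hV f ((mem_code_pw V f).1 hf)
      exact ⟨k, fun g hg => (mem_code_pw V g).2 (hk g hg)⟩
  · obtain ⟨V, rfl⟩ := pw_of_sub (is_sub Y) h1
    refine ⟨V, rfl, fun f hf => ?_⟩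
    obtain ⟨k, hk⟩ := h2 f ((mem_code_pw V f).2 hf)
    exact ⟨k, fun g hg => (mem_code_pw V g).1 (hk g hg)⟩

theorem isTop_Y {Y : PW E (FN E ℕ ℕ)} {τ : M} (h : IsTopY Y τ) : IsTop E (CT.code E Y) τ := by
  refine ⟨fun U hU => ((space_open h U).1 hU).1,
    (space_open h _).2 ⟨fun _ hx => hx, fun f _ => ⟨0, fun g _ => (is_sub Y _).2 ⟨g, rfl⟩⟩⟩,
    fun U V W hU hV hW => ?_, fun S W hS hW => ?_⟩
  · obtain ⟨h1, h2⟩ := (space_open h U).1 hU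
    obtain ⟨-, h3⟩ := (space_open h V).1 hV
    refine (space_open h W).2 ⟨fun x hx => h1 x ((hW x).1 hx).1, fun f hf => ?_⟩
    obtain ⟨k, hk⟩ := h2 f ((hW _).1 hf).1
    obtain ⟨l, hl⟩ := h3 f ((hW _).1 hf).2
    exact ⟨k + l, fun g hg => (hW _).2
      ⟨hk g fun i hi => hg i (by omega), hl g fun i hi => hg i (by omega)⟩⟩
  · refine (space_open h W).2 ⟨fun x hx => ?_, fun f hf => ?_⟩
    · obtain ⟨U, h1, h2⟩ := (hW x).1 hx
      exact ((space_open h U).1 (hS U h1)).1 x h2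
    · obtain ⟨U, h1, h2⟩ := (hW _).1 hf
      obtain ⟨k, hk⟩ := ((space_open h U).1 (hS U h1)).2 f h2
      exact ⟨k, fun g hg => (hW _).2 ⟨U, h1, hk g hg⟩⟩

/-- coded locally constant functions are continuous -/
theorem cont_of_lc {Y : PW E (FN E ℕ ℕ)} {τ : M} (h : IsTopY Y τ) {T : Type} [CT E T] {R ρ : M}
    (hR : Is E T R) (f : FN E (PY Y) T)
    (hf : ∀ y : PY Y, ∃ k, ∀ g : PY Y, (∀ i < k, g.1.1 i = y.1.1 i) → f.1 g = f.1 y) :
    IsCont E (CT.code E f) (CT.code E Y) τ R ρ := by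
  refine ⟨(prod_isFun_iff (is_sub Y) hR _).2 ⟨f, rfl⟩, fun V U _ hU =>
    (space_open h U).2 ⟨fun x hx => ?_, fun y hy => ?_⟩⟩
  · obtain ⟨z, -, h1⟩ := (hU x).1 hx
    obtain ⟨t, rfl, -⟩ := (rep_code_fn f _ _).1 h1
    exact (is_sub Y _).2 ⟨t, rfl⟩
  · obtain ⟨z, hz, h1⟩ := (hU _).1 hy
    obtain ⟨t, h2, rfl⟩ := (rep_code_fn f _ _).1 h1
    obtain rfl : y = t := CT.inj h2
    obtain ⟨k, hk⟩ := hf y
    exact ⟨k, fun g hg => (hU _).2 ⟨_, hz, (rep_code_fn f _ _).2 ⟨g, rfl, by rw [hk g hg]⟩⟩⟩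

theorem tych_Y {Y : PW E (FN E ℕ ℕ)} {τ : M} (h : IsTopY Y τ) {T : Type} [CT E T] (D : RD E T)
    (ρ : M) : IsTychonoff E (CT.code E Y) τ D.R ρ (CT.code E (D.c 0)) (CT.code E (D.c 1)) := by
  classical
  have := (zf' E).nonempty
  refine ⟨isTop_Y h, fun x s hx hs => ?_, fun C x hC hx hxC => ?_⟩
  · obtain ⟨U, hU⟩ := (zf' E).sep (CT.code E Y) fun z => ¬ E z s
    refine ⟨fun z hz => ((hs z).1 hz).symm ▸ hx, U,
      (space_open h U).2 ⟨fun z hz => ((hU z).1 hz).1, fun f hf => ?_⟩, hU⟩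
    obtain ⟨y, rfl⟩ := (is_sub Y x).1 hx
    have h1 : ∃ i, f.1.1 i ≠ y.1.1 i := by
      by_contra h2
      have h3 : f = y := Subtype.ext (Subtype.ext (funext fun i => by_contra fun h4 => h2 ⟨i, h4⟩))
      exact ((hU _).1 hf).2 ((hs _).2 (by rw [h3]))
    obtain ⟨i, hi⟩ := h1
    refine ⟨i + 1, fun g hg => (hU _).2 ⟨(is_sub Y _).2 ⟨g, rfl⟩, fun h2 => hi ?_⟩⟩
    have h3 : g = y := CT.inj ((hs _).1 h2)
    rw [← h3, hg i i.lt_succ_self]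
  · obtain ⟨h1, U, hU, h2⟩ := hC
    obtain ⟨y, rfl⟩ := (is_sub Y x).1 hx
    obtain ⟨k, hk⟩ := ((space_open h U).1 hU).2 y ((h2 _).2 ⟨hx, hxC⟩)
    have h3 : CS E fun g : PY Y => ∀ i, i < k → g.1.1 i = y.1.1 i := inferInstance
    let f : FN E (PY Y) T :=
      ⟨fun g => if ∀ i, i < k → g.1.1 i = y.1.1 i then D.c 0 else D.c 1,
        CF.ite (fun g : PY Y => ∀ i, i < k → g.1.1 i = y.1.1 i) (fun _ => D.c 0) fun _ => D.c 1⟩
    have e0 : ∀ g : PY Y, (∀ i, i < k → g.1.1 i = y.1.1 i) → f.1 g = D.c 0 := fun g hg => if_pos hg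
    have e1 : ∀ g : PY Y, ¬ (∀ i, i < k → g.1.1 i = y.1.1 i) → f.1 g = D.c 1 :=
      fun g hg => if_neg hg
    refine ⟨CT.code E f, cont_of_lc h D.is f fun z => ⟨k, fun g hg => ?_⟩,
      (rep_code_fn f _ _).2 ⟨y, rfl, by rw [e0 y fun _ _ => rfl]⟩, fun z hz => ?_⟩
    · by_cases h4 : ∀ i, i < k → z.1.1 i = y.1.1 i
      · rw [e0 z h4, e0 g fun i hi => (hg i hi).trans (h4 i hi)]
      · rw [e1 z h4, e1 g fun h5 => h4 fun i hi => (hg i hi).symm.trans (h5 i hi)]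
    · obtain ⟨g, rfl⟩ := (is_sub Y z).1 (h1 z hz)
      exact (rep_code_fn f _ _).2 ⟨g, rfl, by rw [e1 g fun h4 => ((h2 _).1 (hk g h4)).2 hz]⟩

theorem wd_cf : CF E fun p : FN E ℕ ℕ × ℕ => wd p.1.1 p.2 :=
  CF.natRec (fun _ : FN E ℕ ℕ => 0) (fun t k y => pr2 y (t.1 k) + 1)
    (hs := by unfold pr2; infer_instance) (fun t k => wd t.1 k) (fun _ => rfl) fun _ _ => rfl

/-- port of `B8P.x_menger` with `wd` for `wc`; the finite set at level `n` is given by the codes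
`≤ g n` -/
theorem menger_Y (I : IfaceY E) (hs : ∀ a, Small.{0} {x // E x a}) {τ : M} (h : IsTopY I.Y τ) :
    IsMengerM E (CT.code E I.Y) τ := by
  classical
  intro w' U Q hw' hU hc
  have hw1 := isOmega_iff.1 hw'
  obtain ⟨u, hu, hur⟩ := rep_of_isFun hw1 (is_el Q) hU
  have hwd := wd_cf (E := E)
  have hpr := prod_pr2_cf (E := E)
  let TT := PW E (PY I.Y)
  let C : ℕ → ℕ → TT → Prop := fun n c V => E (CT.code E V) (CT.code E (u n)) ∧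
    ∀ q : ℕ × PY I.Y, wd q.2.1.1 q.1 = c → q.2 ∈ V.1
  have hC : CS E fun p : (ℕ × ℕ) × TT => C p.1.1 p.1.2 p.2 := by
    have a1 : CF E fun p : (ℕ × ℕ) × TT => u p.1.1 := CF.comp u fun p : (ℕ × ℕ) × TT => p.1.1
    have a2 : CS E fun p : (ℕ × ℕ) × TT => E (CT.code E p.2) (CT.code E (u p.1.1)) := CS.Em _ _
    have a5 : CF E fun p : ((ℕ × ℕ) × TT) × ℕ × PY I.Y => wd p.2.2.1.1 p.2.1 :=
      CF.comp (fun p : FN E ℕ ℕ × ℕ => wd p.1.1 p.2)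
        fun p : ((ℕ × ℕ) × TT) × ℕ × PY I.Y => (p.2.2.1, p.2.1)
    have a3 : CS E fun p : ((ℕ × ℕ) × TT) × ℕ × PY I.Y => wd p.2.2.1.1 p.2.1 = p.1.1.2 :=
      CS.eq _ _
    have a4 : CS E fun p : ((ℕ × ℕ) × TT) × ℕ × PY I.Y => p.2.2 ∈ p.1.2.1 := CS.memPW _ _
    exact @CS.and _ _ _ _ _ _ _ a2 (@CS.all _ _ _ _ _ _ _
      (fun (p : (ℕ × ℕ) × TT) (q : ℕ × PY I.Y) => wd q.2.1.1 q.1 = p.1.2 → q.2 ∈ p.2.1)
      (@CS.imp _ _ _ _ _ _ _ a3 a4))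
  have hC' : CS E fun p : ℕ × ℕ => ∃ V, C p.1 p.2 V :=
    @CS.ex _ _ _ _ _ _ _ (fun (p : ℕ × ℕ) V => C p.1 p.2 V) hC
  have hA : CS E fun m : ℕ => ∃ p : ℕ × ℕ, pr2 p.1 p.2 = m ∧ ∃ V, C p.1 p.2 V := by
    have a1 : CF E fun q : ℕ × ℕ × ℕ => pr2 q.2.1 q.2.2 :=
      CF.comp (fun p : ℕ × ℕ => pr2 p.1 p.2) fun q : ℕ × ℕ × ℕ => q.2
    have a2 : CS E fun q : ℕ × ℕ × ℕ => pr2 q.2.1 q.2.2 = q.1 := CS.eq _ _
    have a3 := hC'.comp fun q : ℕ × ℕ × ℕ => q.2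
    exact @CS.ex _ _ _ _ _ _ _
      (fun (m : ℕ) (p : ℕ × ℕ) => pr2 p.1 p.2 = m ∧ ∃ V, C p.1 p.2 V)
      (@CS.and _ _ _ _ _ _ _ a2 a3)
  let φ : ℕ → ℕ := fun m => if ∃ p : ℕ × ℕ, pr2 p.1 p.2 = m ∧ ∃ V, C p.1 p.2 V then 1 else 0
  have hφ : CF E φ := CF.ite _ (fun _ => 1) fun _ => 0
  have hok : ∀ n c, φ (pr2 n c) = 1 ↔ ∃ V, C n c V := fun n c => by
    constructor
    · intro h0
      have h1 : ∃ p : ℕ × ℕ, pr2 p.1 p.2 = pr2 n c ∧ ∃ V, C p.1 p.2 V := by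
        by_contra h2
        exact absurd ((if_neg h2).symm.trans h0) zero_ne_one
      obtain ⟨p, h2, h3⟩ := h1
      obtain ⟨h4, h5⟩ := prod_pr2_inj h2
      rwa [h4, h5] at h3
    · intro h0
      exact if_pos ⟨(n, c), rfl, h0⟩
  obtain ⟨g, hg, hmain⟩ := I.men φ hφ fun x hx n => by
    obtain ⟨h1, h2⟩ := hc _ _ ((hur _ _).2 ⟨n, rfl, rfl⟩)
    obtain ⟨v, h3, h4⟩ := h2 _ ((is_sub I.Y _).2 ⟨⟨x, hx⟩, rfl⟩)
    obtain ⟨V, rfl, hV⟩ := (h v).1 (h1 v h3)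
    obtain ⟨k, hk⟩ := hV ⟨x, hx⟩ ((mem_code_pw V _).1 h4)
    refine ⟨k, (hok _ _).2 ⟨V, h3, fun q hq => hk _ fun i hi => ?_⟩⟩
    obtain ⟨h5, h6⟩ := wd_inj hq
    exact h6 i (h5 ▸ hi)
  have hC2 := hC'.comp fun p : (ℕ × ℕ) × TT => p.1
  obtain ⟨ψ, hψ, hψ'⟩ := CF.choice (E := E)
    (fun (p : ℕ × ℕ) (V : TT) => (∃ V, C p.1 p.2 V) → C p.1 p.2 V)
    (hr := @CS.imp _ _ _ _ _ _ _ hC2 hC) fun p => by
      by_cases h1 : ∃ V, C p.1 p.2 V
      · exact ⟨h1.choose, fun _ => h1.choose_spec⟩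
      · exact ⟨⟨∅, CS.const False⟩, fun h2 => absurd h2 h1⟩
  have e2 : CS E fun p : ℕ × TT => ∃ c : ℕ, c ≤ g p.1 ∧ (∃ V, C p.1 c V) ∧ p.2 = ψ (p.1, c) := by
    have a0 : CF E fun p : (ℕ × TT) × ℕ => g p.1.1 := CF.comp g fun p : (ℕ × TT) × ℕ => p.1.1
    have a1 : CS E fun p : (ℕ × TT) × ℕ => p.2 ≤ g p.1.1 := CS.le _ _
    have a2 := hC'.comp fun p : (ℕ × TT) × ℕ => (p.1.1, p.2)
    have a3 : CF E fun p : (ℕ × TT) × ℕ => ψ (p.1.1, p.2) :=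
      CF.comp ψ fun p : (ℕ × TT) × ℕ => (p.1.1, p.2)
    have a4 : CS E fun p : (ℕ × TT) × ℕ => p.1.2 = ψ (p.1.1, p.2) := CS.eq _ _
    exact @CS.ex _ _ _ _ _ _ _ (fun (p : ℕ × TT) (c : ℕ) => c ≤ g p.1 ∧
      (∃ V, C p.1 c V) ∧ p.2 = ψ (p.1, c))
      (@CS.and _ _ _ _ _ _ _ a1 (@CS.and _ _ _ _ _ _ _ a2 a4))
  let D : ℕ → PW E TT := fun j =>
    ⟨{V | ∃ c : ℕ, c ≤ g j ∧ (∃ V, C j c V) ∧ V = ψ (j, c)},
      e2.comp (fun V : TT => (j, V)) (hf := CF.pair (fun _ => j) fun V => V)⟩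
  have hD : CF E D := @CF.curry _ E _ _ _ _ _ D e2
  obtain ⟨Q', hQ'⟩ := exists_is E (PW E TT)
  obtain ⟨V, hV, hVr⟩ := isFun_of_cf hw1 hQ' D
  refine ⟨V, Q', hV, fun n c d h1 h2 => ?_, fun x hx => ?_⟩
  · obtain ⟨j, rfl, rfl⟩ := (hVr _ _).1 h2
    obtain ⟨j', h3, rfl⟩ := (hur _ _).1 h1
    obtain rfl : j = j' := CT.inj h3
    refine ⟨fun y hy => ?_, (isFin_code _).2
      (((Set.finite_le_nat (g j)).image fun c => ψ (j, c)).subset ?_)⟩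
    · obtain ⟨_, ⟨c, -, a2, rfl⟩, rfl⟩ := (E_code_pw _ _).1 hy
      exact (hψ' (j, c) a2).1
    · rintro _ ⟨c, a1, -, rfl⟩
      exact ⟨c, a1, rfl⟩
  · obtain ⟨t, rfl⟩ := (is_sub I.Y x).1 hx
    obtain ⟨j, k, h3, h4⟩ := hmain t.1 t.2
    have h5 := (hok _ _).1 h4
    exact ⟨_, _, _, (hVr _ _).2 ⟨j, rfl, rfl⟩,
      (mem_code_pw (D j) _).2 ⟨wd t.1.1 k, h3, h5, rfl⟩,
      (mem_code_pw _ t).2 ((hψ' (j, wd t.1.1 k) h5).2 (k, t) rfl)⟩

theorem exists_orderTop (R lt : M) : ∃ ρ, IsOrderTop E R lt ρ := by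
  have := (zf' E).nonempty
  obtain ⟨Q, hQ⟩ := (zf' E).powerset R
  obtain ⟨ρ, hρ⟩ := (zf' E).sep Q fun U => ∀ x, E x U → ∃ a b, App E lt a x ∧ App E lt x b ∧
    ∀ y, App E lt a y → App E lt y b → E y U
  refine ⟨ρ, fun U => ?_⟩
  rw [hρ, hQ]
  exact Iff.rfl

theorem exists_Cp (X τ R ρ : M) :
    ∃ C π, (∀ f, E f C ↔ IsCont E f X τ R ρ) ∧ IsPw E C X ρ π := by
  have := (zf' E).nonempty
  obtain ⟨W, -, hW⟩ := exists_rel (zf' E) X R fun x _ => x = x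
  obtain ⟨P, hP⟩ := (zf' E).powerset W
  obtain ⟨C, hC⟩ := (zf' E).sep P fun f => IsFun E f X R ∧
    ∀ V U, E V ρ → (∀ x, E x U ↔ ∃ y, E y V ∧ App E f x y) → E U τ
  obtain ⟨Q, hQ⟩ := (zf' E).powerset C
  obtain ⟨π, hπ⟩ := (zf' E).sep Q fun U => ∀ f, E f U → ∃ F, IsFin E F ∧
    (∀ p, E p F → ∃ x V, E x X ∧ E V ρ ∧ IsPair E p x V) ∧
    (∀ x V y, App E F x V → App E f x y → E y V) ∧
    ∀ g, E g C → (∀ x V y, App E F x V → App E g x y → E y V) → E g U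
  refine ⟨C, π, fun f => (hC f).trans ⟨fun h => h.2, fun h => ⟨(hP f).2 fun p hp => ?_, h⟩⟩,
    fun U => ?_⟩
  · obtain ⟨x, y, hx, hy, h1⟩ := h.1.1 p hp
    obtain ⟨q, hq, h2⟩ := (hW x y).2 ⟨hx, hy, rfl⟩
    rwa [pair_unique (zf' E) h1 h2]
  · rw [hπ, hQ]
    exact Iff.rfl

end Pool.Agent.B8N
end
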