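import Pool.Agent.Work.MP_b8a914_gt.F.Gen1
import Pool.Agent.Work.MP_b8a914_gt.F.Add
import Pool.Agent.Work.MP_b8a914_gt.F.RT
import Pool.Agent.Work.MP_b8a914_gt.N.Space
import Pool.Agent.Lib.ZFModel.ZFC

-- merged part: Pool.Agent.Work.MP_b8a914_gt.N.Sys
section
/-! Systems of frames with promises: the definitions. -/

namespace Pool.Agent.B8N
open Filter Topology Function Set Pool.Agent.B8F

abbrev Fr (I : Type) := Pt I → Pt I

/-- a promise: a coordinate and a table of open sets -/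
abbrev Prm (I : Type) := I × (ℕ → ℕ → Set (Pt I × (ℕ → ℕ)))

/-- finite patterns of values -/
abbrev Pat (I : Type) := Finset (I × ℕ × ℕ)

variable {I : Type}

def InB (L : Pat I) (x : Pt I) : Prop := ∀ t ∈ L, x t.1 t.2.1 = t.2.2

def Over (a : Set I) (L : Pat I) : Prop := ∀ t ∈ L, t.1 ∈ a

/-- the point is covered in time -/
def Oset (γ : Prm I) (φ : I) (x : Pt I) : Prop := ∃ k, ∃ n ≤ x γ.1 k, (x, x φ) ∈ γ.2 k n

/-- the point is never covered at level `k` -/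
def Cset (γ : Prm I) (φ : I) (k : ℕ) (x : Pt I) : Prop := ∀ n, (x, x φ) ∉ γ.2 k n

def Dcd (γ : Prm I) (φ : I) (m : Fr I) : Prop :=
  (∀ v, Oset γ φ (m v)) ∨ ∃ k, ∀ v, Cset γ φ k (m v)

variable [LinearOrder I]

/-- the value at a splitting level bounds the parameter -/
def Big (p : Fr I) : Prop := ∀ β u n l, IsLen p β u n l → u β n ≤ p u β l

structure Gd (a : Set I) (p : Fr I) : Prop where
  mi : IsMi p
  supp : Supp a p
  big : Big p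

def PrmOK (a : Set I) (γ : Prm I) : Prop :=
  γ.1 ∈ a ∧ (∀ k n, IsOpen (γ.2 k n)) ∧
    ∀ k n y, DepOn (a ∩ Iio γ.1) fun x => (x, y) ∈ γ.2 k n

variable [OrderTop I]

/-- `m` has the range of `m1` below `β` and of `m2` everywhere -/
def IsMix (β : I) (m1 m2 m : Fr I) : Prop := ∀ x, In ⊤ m x ↔ In β m1 x ∧ In ⊤ m2 x

def Mix (a : Set I) (P : Set (Fr I)) : Prop :=
  ∀ β ∈ a, ∀ m1 ∈ P, ∀ m2 ∈ P, Le β m1 m2 → ∃ m ∈ P, IsMix β m1 m2 m

def Box (a : Set I) (P : Set (Fr I)) : Prop :=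
  ∀ m ∈ P, ∀ L, Over a L → (∃ v, InB L (m v)) → ∃ m' ∈ P, Le ⊤ m' m ∧ ∀ v, InB L (m' v)

def Prom (Φ : Set I) (Γ : Set (Prm I)) (P : Set (Fr I)) : Prop :=
  ∀ m ∈ P, ∀ φ ∈ Φ, ∀ γ ∈ Γ, ∃ m' ∈ P, Le ⊤ m' m ∧ Dcd γ φ m'

/-- a class of frames with the three closure properties -/
structure Cls (a Φ : Set I) (Γ : Set (Prm I)) (P : Set (Fr I)) : Prop where
  ac : a.Countable
  top : a ⊆ Iio ⊤
  sub : Φ ⊆ a
  Γc : Γ.Countable
  prm : ∀ γ ∈ Γ, PrmOK a γ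
  gd : ∀ m ∈ P, Gd a m
  one : id ∈ P
  mix : Mix a P
  box : Box a P
  prom : Prom Φ Γ P

/-- a system: a countable class -/
structure Sys (I : Type) [LinearOrder I] [OrderTop I] where
  a : Set I
  Φ : Set I
  Γ : Set (Prm I)
  s : Set (Fr I)
  cls : Cls a Φ Γ s
  sc : s.Countable

def SLe (σ' σ : Sys I) : Prop := σ.a ⊆ σ'.a ∧ σ.Φ ⊆ σ'.Φ ∧ σ.Γ ⊆ σ'.Γ ∧ σ.s ⊆ σ'.s

theorem SLe.rfl' {σ : Sys I} : SLe σ σ := ⟨Subset.rfl, Subset.rfl, Subset.rfl, Subset.rfl⟩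

theorem SLe.trans {σ σ' σ'' : Sys I} (h : SLe σ'' σ') (h' : SLe σ' σ) : SLe σ'' σ :=
  ⟨h'.1.trans h.1, h'.2.1.trans h.2.1, h'.2.2.1.trans h.2.2.1, h'.2.2.2.trans h.2.2.2⟩

theorem Gd.mono {a b : Set I} {p : Fr I} (h : Gd a p) (hab : a ⊆ b) : Gd b p :=
  ⟨h.mi, h.supp.mono hab, h.big⟩

theorem PrmOK.mono {a b : Set I} {γ : Prm I} (h : PrmOK a γ) (hab : a ⊆ b) : PrmOK b γ :=
  ⟨hab h.1, h.2.1, fun k n y => (h.2.2 k n y).mono (inter_subset_inter_left _ hab)⟩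

end Pool.Agent.B8N
end

-- merged part: Pool.Agent.Work.MP_b8a914_gt.N.Basic
section
/-! Ranges of frames: dependence, closedness, open projections, boxes. -/

set_option linter.unusedSectionVars false

namespace Pool.Agent.B8N
open Filter Topology Function Set Pool.Agent.B8F

variable {I : Type}

/-- patterns are clopen -/
theorem ev_InB {L : Pat I} {x : Pt I} (h : InB L x) : ∀ᶠ x' in 𝓝 x, InB L x' :=
  (eventually_all_finset L).2 fun t ht =>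
    (tendsto_pt.1 (tendsto_id (x := 𝓝 x)) t.1 t.2.1).mono fun _ hv => hv.trans (h t ht)

theorem InB.congr {a : Set I} {L : Pat I} (hL : Over a L) {x x' : Pt I} (h : InB L x)
    (e : ∀ γ ∈ a, x γ = x' γ) : InB L x' := fun t ht => by
  rw [← e _ (hL t ht)]
  exact h t ht

/-- a neighbourhood that depends on `a` holds a pattern over `a` (use `nhds_fin`, drop the
coordinates outside `a`) -/
theorem nhds_InB {a : Set I} {N : Pt I → Prop} (hd : DepOn a N) {x : Pt I}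
    (h : ∀ᶠ x' in 𝓝 x, N x') : ∃ L, Over a L ∧ InB L x ∧ ∀ x', InB L x' → N x' := by
  classical
  obtain ⟨F, n, h2⟩ := nhds_fin h
  refine ⟨((F.filter (· ∈ a)) ×ˢ Finset.range n).image fun t => (t.1, t.2, x t.1 t.2),
    fun t ht => ?_, fun t ht => ?_, fun v hv => ?_⟩
  · obtain ⟨t', h1, rfl⟩ := Finset.mem_image.1 ht
    exact (Finset.mem_filter.1 (Finset.mem_product.1 h1).1).2
  · obtain ⟨t', -, rfl⟩ := Finset.mem_image.1 ht
    rfl
  · have h3 := h2 (fun γ => if γ ∈ a then v γ else x γ) fun γ hγ i hi => by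
      by_cases h4 : γ ∈ a
      · simp only [if_pos h4]
        exact hv (γ, i, x γ i) (Finset.mem_image.2 ⟨(γ, i), Finset.mem_product.2
          ⟨Finset.mem_filter.2 ⟨hγ, h4⟩, Finset.mem_range.2 hi⟩, rfl⟩)
      · simp only [if_neg h4]
    exact (hd _ v fun γ hγ => if_pos hγ).mp h3

theorem ev_dep {a : Set I} {N : Pt I → Prop} (hd : DepOn a N) {x x1 : Pt I}
    (h : ∀ᶠ x' in 𝓝 x, N x') (e : ∀ γ ∈ a, x γ = x1 γ) : ∀ᶠ x' in 𝓝 x1, N x' := by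
  obtain ⟨L, h1, h2, h3⟩ := nhds_InB hd h
  exact (ev_InB (h2.congr h1 e)).mono h3

/-- the interior depends on the same coordinates -/
theorem dep_ev {a : Set I} {N : Pt I → Prop} (hd : DepOn a N) :
    DepOn a fun x => ∀ᶠ x' in 𝓝 x, N x' := fun _ _ e =>
  propext ⟨fun h => ev_dep hd h e, fun h => ev_dep hd h fun γ hγ => (e γ hγ).symm⟩

theorem countable_over {a : Set I} (ha : a.Countable) : {L : Pat I | Over a L}.Countable := by
  have h1 : (a ×ˢ (univ : Set (ℕ × ℕ))).Countable := ha.prod countable_univ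
  refine ((countable_ofPred_finite_subset h1).preimage Finset.coe_injective).mono fun L hL => ?_
  exact ⟨L.finite_toSet, fun t ht => ⟨hL t ht, trivial⟩⟩

variable [LinearOrder I]

theorem gd_id (a : Set I) : Gd a (id : Fr I) :=
  ⟨isMi_id, ⟨fun _ _ _ => rfl, fun _ _ h => h⟩, fun β u n l hl => by
    rw [hl.unique (isLen_id (fun _ => rfl) u n)]
    exact le_rfl⟩

/-- `IsLen` of the composite is found as in `IsMi.comp`; use `IsLen.unique` -/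
theorem Gd.comp {a : Set I} {p q : Fr I} (hp : Gd a p) (hq : Gd a q) : Gd a (p ∘ q) := by
  refine ⟨hp.mi.comp hq.mi, hp.supp.comp hq.supp, fun β u n l'' h => ?_⟩
  obtain ⟨l, hl⟩ := hq.mi.sec β u n
  obtain ⟨l', hl'⟩ := hp.mi.sec β (q u) l
  have h2 : IsLen (p ∘ q) β u n l' := fun v v' h1 h2 h3 h4 => by
    have := hl' (q v) (q v') (hq.mi.agB h1) (hq.mi.agB h2) (hl v u h1 .rfl' h3 .rfl').1
      (hl v' u h2 .rfl' h4 .rfl').1
    exact ⟨this.1, this.2.trans (hl v v' h1 h2 h3 h4).2⟩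
  rw [h.unique h2]
  exact (hq.big β u n l hl).trans (hp.big β (q u) l l' hl')

theorem gd_pre (F : Finset I) (n : ℕ) (u : Pt I) : Gd (F : Set I) (pre F n u) := by
  refine ⟨isMi_pre F n u, ⟨fun v γ h => pre_off h, fun v v' h γ hγ => ?_⟩, fun β v k l hl => ?_⟩
  · funext i
    simp only [pre, h γ hγ]
  · by_cases h : β ∈ F
    · have h2 : IsLen (pre F n u) β v k (k + n) := by
        refine fun a b _ _ h1 h2 => ⟨fun i hi => ?_, ?_⟩
        · simp only [pre, if_pos h]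
          split_ifs
          · rfl
          · exact (h1 _ (by omega)).trans (h2 _ (by omega)).symm
        · simp only [pre, if_pos h, if_neg (show ¬ k + n < n by omega), Nat.add_sub_cancel]
      rw [hl.unique h2]
      simp only [pre, if_pos h, if_neg (show ¬ k + n < n by omega), Nat.add_sub_cancel, le_refl]
    · rw [hl.unique (isLen_id (fun _ => pre_off h) v k), pre_off h]

theorem Gd.res {a : Set I} {p : Fr I} (hp : Gd a p) (β : I) : Gd (a ∩ Iio β) (res β p) := by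
  refine ⟨hp.mi.res β, hp.mi.supp_res hp.supp β, fun γ u n l hl => ?_⟩
  by_cases h : γ < β
  · rw [res_agB β p u γ h]
    refine hp.big γ u n l fun v v' a b c d => ?_
    rw [← res_agB β p v γ h, ← res_agB β p v' γ h]
    exact hl v v' a b c d
  · rw [hl.unique (isLen_id (fun v => res_ge p v (not_lt.1 h)) u n), res_ge p u (not_lt.1 h)]

/-- a box supported in `s` -/
theorem exists_box_in {s : Set I} {P : Pt I → Prop} (hd : DepOn s P) {u : Pt I}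
    (h : ∀ᶠ v in 𝓝 u, P v) : ∃ Ψ, Gd s Ψ ∧ ∀ v, P (Ψ v) := by
  classical
  obtain ⟨F, n, h2⟩ := nhds_fin h
  have g := gd_pre (F.filter (· ∈ s)) n u
  refine ⟨pre (F.filter (· ∈ s)) n u, ⟨g.mi, g.supp.mono fun γ hγ =>
    (Finset.mem_filter.1 (Finset.mem_coe.1 hγ)).2, g.big⟩, fun v => ?_⟩
  have h3 := h2 (fun γ => if γ ∈ s then pre (F.filter (· ∈ s)) n u v γ else u γ) fun γ hγ => by
    by_cases h4 : γ ∈ s
    · simp only [if_pos h4]
      exact pre_ag (Finset.mem_filter.2 ⟨hγ, h4⟩)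
    · simp only [if_neg h4]
      exact .rfl'
  exact (hd _ _ fun γ hγ => if_pos hγ).mp h3

/-- the value at `γ ∈ b` depends on the coordinates of `b` up to `γ` -/
theorem val_dep {b : Set I} {m : Fr I} (hm : IsMi m) (hs : Supp b m) {γ : I} (hγ : γ ∈ b)
    {u v : Pt I} (h : ∀ γ' ∈ b, γ' ≤ γ → u γ' = v γ') : m u γ = m v γ := by
  let w : Pt I := fun γ' => if γ' ≤ γ then u γ' else v γ'
  rw [hm.proj γ u w fun γ' h' => (if_pos h').symm]
  refine hs.2 w v (fun γ' h' => ?_) γ hγ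
  by_cases h2 : γ' ≤ γ
  · exact (if_pos h2).trans (h γ' h' h2)
  · exact if_neg h2

/-- membership in a range depends on the support only -/
theorem In.dep {a : Set I} {m : Fr I} (hs : Supp a m) {β : I} {x x' : Pt I} (h : In β m x)
    (e : ∀ γ ∈ a, γ < β → x γ = x' γ) : In β m x' := by
  classical
  obtain ⟨w, hw⟩ := h
  refine ⟨fun γ => if γ ∈ a then w γ else x' γ, fun γ hγ => ?_⟩
  by_cases h : γ ∈ a
  · rw [hs.2 _ w (fun _ a => if_pos a) γ h, hw γ hγ, e γ h hγ]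
  · rw [hs.1 _ _ h]
    exact if_neg h

/-- nothing happens between `β` and `β'` -/
theorem In.up {a : Set I} {m : Fr I} (hm : IsMi m) (hs : Supp a m) {β β' : I} {x : Pt I}
    (h : In β m x) (e : ∀ γ ∈ a, γ < β' → γ < β) : In β' m x := by
  classical
  have _ := hm
  obtain ⟨w, hw⟩ := h
  refine ⟨fun γ => if γ ∈ a then w γ else x γ, fun γ hγ => ?_⟩
  by_cases h : γ ∈ a
  · rw [hs.2 _ w (fun _ a => if_pos a) γ h, hw γ (e γ h hγ)]
  · rw [hs.1 _ _ h]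
    exact if_neg h

theorem in_res {m : Fr I} (hm : IsMi m) {β β' : I} (hb : β ≤ β') (x : Pt I) :
    In β' (res β m) x ↔ In β m x := by
  refine ⟨fun ⟨w, hw⟩ => ⟨w, (res_agB β m w).symm.trans (hw.mono hb)⟩, fun ⟨w, hw⟩ => ?_⟩
  refine ⟨fun γ => if γ < β then w γ else x γ, fun γ _ => ?_⟩
  by_cases h : γ < β
  · rw [res_agB β m _ γ h, ← hw γ h]
    exact hm.agB (β := β) (fun γ' h' => if_pos h') γ h
  · rw [res_ge m _ (not_lt.1 h)]
    exact if_neg h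

/-- restriction of a frame to `a` (put `0` at the other coordinates before applying `Ψ`) -/
theorem exists_rst {a : Set I} (ha : a.Countable) {Ψ : Fr I} (h : IsMi Ψ) :
    ∃ Ψ', IsMi Ψ' ∧ Supp a Ψ' ∧ ∀ v, ∃ v', ∀ γ ∈ a, Ψ' v γ = Ψ v' γ := by
  classical
  let z : Fr I := fun v γ => if γ ∈ a then v γ else 0
  let Ψ' : Fr I := fun v γ => if γ ∈ a then Ψ (z v) γ else v γ
  have hz : ∀ u v γ, (γ ∈ a → u γ = v γ) → z u γ = z v γ := fun u v γ e => by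
    by_cases h1 : γ ∈ a
    · simp only [z, if_pos h1, e h1]
    · simp only [z, if_neg h1]
  have hc : Continuous z := continuous_pi fun γ => by
    simp only [z]
    split_ifs
    · exact continuous_apply γ
    · exact continuous_const
  have hs : Supp a Ψ' := ⟨fun u γ hγ => if_neg hγ, fun u v e γ hγ => by
    simp only [Ψ', if_pos hγ]
    rw [show z u = z v from funext fun γ' => hz u v γ' (e γ')]⟩
  refine ⟨Ψ', ⟨continuous_pi fun γ => ?_, fun β u v e => ?_, ⟨a, ha, hs⟩, fun β u n => ?_⟩, hs,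
    fun v => ⟨z v, fun γ hγ => if_pos hγ⟩⟩
  · simp only [Ψ']
    split_ifs
    · exact (continuous_apply γ).comp (h.cont.comp hc)
    · exact continuous_apply γ
  · simp only [Ψ']
    rw [h.proj β (z u) (z v) fun γ hγ => hz u v γ fun _ => e γ hγ, e β le_rfl]
  · by_cases h1 : β ∈ a
    · obtain ⟨l, hl⟩ := h.sec β (z u) n
      have e : ∀ v, z v β = v β := fun v => if_pos h1
      refine ⟨l, fun v v' a b c d => ?_⟩
      have := hl (z v) (z v') (fun γ hγ => hz _ _ γ fun _ => a γ hγ)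
        (fun γ hγ => hz _ _ γ fun _ => b γ hγ) (by rwa [e, e]) (by rwa [e, e])
      simp only [Ψ', if_pos h1]
      rwa [e, e] at this
    · exact ⟨n, isLen_id (fun v => if_neg h1) u n⟩

variable [WellFoundedLT I]

theorem Gd.glue {a : Set I} {β : I} {p q : Fr I} (hq : Gd a q) (hp : Gd a p) (h : Le β q p) :
    Gd a (p ∘ fac β q p) := by
  refine ⟨isMi_glue hq.mi hp.mi h, hp.supp.comp (fac_supp hp.mi h hq.supp hp.supp),
    fun γ u n l hl => ?_⟩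
  by_cases h1 : γ < β
  · rw [Function.comp, fac_spec hp.mi h u γ h1]
    refine hq.big γ u n l fun v v' a b c d => ?_
    rw [← fac_spec hp.mi h v γ h1, ← fac_spec hp.mi h v' γ h1]
    exact hl v v' a b c d
  · obtain ⟨l', hl'⟩ := hp.mi.sec γ (fac β q p u) n
    have e : ∀ v, fac β q p v γ = v γ := fun v => fac_ge q p v (not_lt.1 h1)
    have h2 : IsLen (p ∘ fac β q p) γ u n l' := fun v v' a b c d => by
      have := hl' _ _ (fac_agB hq.mi hp.mi h a) (fac_agB hq.mi hp.mi h b) (by rwa [e, e])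
        (by rwa [e, e])
      rwa [e, e] at this
    rw [hl.unique h2, ← e u]
    exact hp.big γ _ n l' hl'

/-- ranges of big frames are closed.  Take an ultrafilter `U` on parameters `w` along which
`m w → x` below `β`; by induction on `γ < β` and then on `i`, `w γ i` is `U`-eventually constant
(`IsMi.ev_len` fixes the length `l`, `Big` bounds `w γ i` by `x γ l`); then continuity. -/
theorem Gd.closed {a : Set I} {m : Fr I} (hm : Gd a m) (β : I) : IsClosed {x | In β m x} := by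
  classical
  refine isClosed_iff_ultrafilter.2 fun x U hU hS => ?_
  let w : Pt I → Pt I := fun z => if h : In β m z then h.choose else z
  have hw : ∀ᶠ z in (U : Filter (Pt I)), AgB β (m (w z)) z := by
    filter_upwards [hS] with z hz
    have hz' : In β m z := hz
    simp only [w, dif_pos hz']
    exact hz'.choose_spec
  have hx : ∀ γ i, ∀ᶠ z in (U : Filter (Pt I)), z γ i = x γ i :=
    tendsto_pt.1 (show Tendsto id (U : Filter (Pt I)) (𝓝 x) from hU)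
  let w0 : Pt I := fun γ i =>
    if h : ∃ c, ∀ᶠ z in (U : Filter (Pt I)), w z γ i = c then h.choose else 0
  have key : ∀ γ < β, ∀ i, ∀ᶠ z in (U : Filter (Pt I)), w z γ i = w0 γ i := by
    intro γ
    induction γ using WellFoundedLT.induction with
    | _ γ ih =>
      intro hγ i
      induction i using Nat.strong_induction_on with
      | _ i ihi =>
        obtain ⟨l, hl⟩ := hm.mi.sec γ w0 i
        have h1 : ∀ᶠ z in (U : Filter (Pt I)), ∃ c ∈ Iic (x γ l), w z γ i = c := by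
          filter_upwards [hm.mi.ev_len (fun γ' h' => ih γ' h' (h'.trans hγ)) hl, ev_ag i ihi, hw,
            hx γ l] with z a b c d
          refine ⟨_, ?_, rfl⟩
          have := hm.big γ (w z) i l (a.congr (agB_update _ _) (by rw [update_self]; exact b.symm))
          rwa [c γ hγ, d] at this
        obtain ⟨c, -, hc⟩ := (Ultrafilter.eventually_exists_mem_iff (finite_Iic _)).1 h1
        have h2 : ∃ c, ∀ᶠ z in (U : Filter (Pt I)), w z γ i = c := ⟨c, hc⟩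
        simp only [w0, dif_pos h2]
        exact h2.choose_spec
  let e : Pt I → Pt I := fun z γ => if γ < β then w z γ else w0 γ
  have he : Tendsto e (U : Filter (Pt I)) (𝓝 w0) := tendsto_pt.2 fun γ j => by
    by_cases h1 : γ < β
    · filter_upwards [key γ h1 j] with z hz
      simp only [e, if_pos h1, hz]
    · exact Eventually.of_forall fun z => by simp only [e, if_neg h1]
  refine ⟨w0, fun γ hγ => funext fun i => ?_⟩
  obtain ⟨z, a, b, c⟩ := ((tendsto_pt.1 ((hm.mi.cont.tendsto _).comp he) γ i).and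
    (hw.and (hx γ i))).exists
  have d : m (e z) γ = m (w z) γ := hm.mi.agB (β := β) (fun γ' h' => if_pos h') γ hγ
  rw [← a, ← c, ← b γ hγ, ← d]
  rfl

/-- projections of ranges are open maps: the witness is `inv β n x w` -/
theorem proj_open {n : Fr I} (hn : IsMi n) (β : I) {w : Pt I} {Q : Pt I → Prop}
    (h : ∀ᶠ w' in 𝓝 w, Q w') :
    ∀ᶠ x in 𝓝 (n w), In β n x → ∃ w', AgB β (n w') x ∧ Q w' := by
  refine eventually_inf_principal (s := {x | In β n x}).1 ?_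
  have h1 : ∀ᶠ x in 𝓝 (n w) ⊓ 𝓟 {x | In β n x}, AgB β (n (inv β n x w)) x :=
    eventually_inf_principal.2 (Eventually.of_forall fun x hx => hn.inv_spec hx w)
  have h2 : Tendsto (fun x => inv β n x w) (𝓝 (n w) ⊓ 𝓟 {x | In β n x}) (𝓝 w) := by
    refine tendsto_pt.2 fun γ i => ?_
    by_cases hγ : γ < β
    · refine hn.ev_inv (β := β) (fun γ' h' j => ?_) γ hγ i
      filter_upwards [h1, (tendsto_pt.1 (tendsto_id (x := 𝓝 (n w))) γ' j).filter_mono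
        inf_le_left] with x a b
      rw [a γ' h']
      exact b
    · exact Eventually.of_forall fun x => by rw [inv_ge _ _ _ (not_lt.1 hγ)]
  filter_upwards [h1, h2.eventually h] with x a b using ⟨_, a, b⟩

omit [WellFoundedLT I] in
theorem proj_dep {a : Set I} {n : Fr I} (hs : Supp a n) (β : I) {Q : Pt I → Prop}
    (hd : DepOn a Q) :
    DepOn (a ∩ Iio β) fun x => In β n x → ∃ w', AgB β (n w') x ∧ Q w' := by
  classical
  have key : ∀ x x' : Pt I, (∀ γ ∈ a ∩ Iio β, x γ = x' γ) →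
      (In β n x → ∃ w', AgB β (n w') x ∧ Q w') → In β n x' → ∃ w', AgB β (n w') x' ∧ Q w' := by
    intro x x' e h h'
    obtain ⟨w, hw, hQ⟩ := h (In.dep hs h' fun γ h1 h2 => (e γ ⟨h1, h2⟩).symm)
    refine ⟨fun γ => if γ ∈ a then w γ else x' γ, fun γ hγ => ?_,
      (hd _ w fun γ hγ => if_pos hγ).mpr hQ⟩
    by_cases h : γ ∈ a
    · rw [hs.2 _ w (fun _ a => if_pos a) γ h, hw γ hγ, e γ ⟨h, hγ⟩]
    · rw [hs.1 _ _ h]
      exact if_neg h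
  exact fun u v e => propext ⟨key u v e, key v u fun γ hγ => (e γ hγ).symm⟩

variable [OrderTop I]

theorem isMix_glue {β : I} {p q : Fr I} (hq : IsMi q) (hp : IsMi p) (h : Le β q p) :
    IsMix β q p (p ∘ fac β q p) := by
  refine fun x => ⟨fun ⟨v, hv⟩ => ⟨⟨v, (fac_spec hp h v).symm.trans (hv.mono le_top)⟩, _, hv⟩,
    fun ⟨⟨v, hv⟩, w, hw⟩ => ?_⟩
  let v' : Pt I := fun γ => if γ < β then v γ else w γ
  have h1 : AgB β (p w) (q v') :=
    (hw.mono le_top).trans (hv.symm.trans (hq.agB fun γ hγ => (if_pos hγ).symm))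
  have h2 : fac β q p v' = w := funext fun γ => by
    by_cases hγ : γ < β
    · exact hp.inv_uniq h1 v' γ hγ
    · rw [fac_ge q p v' (not_lt.1 hγ)]
      exact if_neg hγ
  exact ⟨v', by rw [Function.comp, h2]; exact hw⟩

omit [WellFoundedLT I] in
theorem IsMix.low {β β' : I} {m1 m2 m : Fr I} (h : IsMix β m1 m2 m) (hl : Le β m1 m2)
    (hb : β' ≤ β) (x : Pt I) : In β' m x ↔ In β' m1 x := by
  refine ⟨fun ⟨v, hv⟩ => (((h (m v)).1 .self).1.mono hb).congr hv, fun ⟨w, hw⟩ => ?_⟩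
  obtain ⟨w2, h2⟩ := hl w
  exact (((h (m2 w2)).2 ⟨⟨w, h2.symm⟩, .self⟩).mono le_top).congr ((h2.mono hb).trans hw)

omit [WellFoundedLT I] in
theorem IsMix.high {β β' : I} {m1 m2 m : Fr I} (h : IsMix β m1 m2 m) (hb : β ≤ β') (x : Pt I) :
    In β' m x ↔ In β m1 x ∧ In β' m2 x := by
  refine ⟨fun ⟨v, hv⟩ => ⟨((h (m v)).1 .self).1.congr (hv.mono hb),
    (((h (m v)).1 .self).2.mono le_top).congr hv⟩, fun ⟨h1, w, hw⟩ => ?_⟩
  exact (((h (m2 w)).2 ⟨h1.congr (hw.symm.mono hb), .self⟩).mono le_top).congr hw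

omit [WellFoundedLT I] in
theorem IsMix.le1 {β : I} {m1 m2 m : Fr I} (h : IsMix β m1 m2 m) : Le β m m1 :=
  fun v => ((h (m v)).1 .self).1

omit [WellFoundedLT I] in
theorem IsMix.le2 {β : I} {m1 m2 m : Fr I} (h : IsMix β m1 m2 m) : Le ⊤ m m2 :=
  fun v => ((h (m v)).1 .self).2

omit [WellFoundedLT I] in
theorem Box.nbhd {a : Set I} {P : Set (Fr I)} (hb : Box a P) {m : Fr I} (hm : m ∈ P) {v : Pt I}
    {N : Pt I → Prop} (hd : DepOn a N) (h : ∀ᶠ x in 𝓝 (m v), N x) :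
    ∃ m' ∈ P, Le ⊤ m' m ∧ ∀ v', N (m' v') := by
  obtain ⟨L, h1, h2, h3⟩ := nhds_InB hd h
  obtain ⟨m', h4, h5, h6⟩ := hb m hm L h1 ⟨v, h2⟩
  exact ⟨m', h4, h5, fun v' => h3 _ (h6 v')⟩

/-- boxes in the parameter space (`proj_open`, `proj_dep` at `⊤`) -/
theorem Box.param {a : Set I} {P : Set (Fr I)} (hb : Box a P) {m : Fr I} (hm : m ∈ P)
    (hg : Gd a m) {v : Pt I} {Q : Pt I → Prop} (hd : DepOn a Q) (h : ∀ᶠ w in 𝓝 v, Q w) :
    ∃ m' ∈ P, ∀ v', ∃ w, AgB ⊤ (m w) (m' v') ∧ Q w := by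
  obtain ⟨m', h1, h2, h3⟩ := hb.nbhd hm ((proj_dep hg.supp ⊤ hd).mono inter_subset_left)
    (proj_open hg.mi ⊤ h)
  exact ⟨m', h1, fun v' => h3 v' (h2 v')⟩

/-- below `m` we can decide the range of `r` -/
theorem Box.out {a : Set I} {P : Set (Fr I)} (hb : Box a P) {m : Fr I} (hm : m ∈ P) {r : Fr I}
    (hr : Gd a r) (β : I) :
    Le β m r ∨ ∃ m' ∈ P, Le ⊤ m' m ∧ ∀ v, ¬ In β r (m' v) := by
  refine or_iff_not_imp_left.2 fun h => ?_
  obtain ⟨v, hv⟩ := not_forall.1 h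
  refine hb.nbhd (N := fun x => ¬ In β r x) hm (v := v) (fun x x' e => ?_)
    ((hr.closed β).isOpen_compl.mem_nhds hv)
  exact propext (not_congr ⟨fun h1 => In.dep hr.supp h1 fun γ hγ _ => e γ hγ,
    fun h1 => In.dep hr.supp h1 fun γ hγ _ => (e γ hγ).symm⟩)

/-- mixing at any level: use the least member of `a` from `β` on, or `m1` if there is none -/
theorem Cls.mix_all {a Φ : Set I} {Γ : Set (Prm I)} {P : Set (Fr I)} (h : Cls a Φ Γ P) (β : I)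
    {m1 m2 : Fr I} (h1 : m1 ∈ P) (h2 : m2 ∈ P) (hl : Le β m1 m2) :
    ∃ m ∈ P, IsMix β m1 m2 m := by
  have g1 := h.gd m1 h1
  have g2 := h.gd m2 h2
  by_cases hc : {γ | γ ∈ a ∧ β ≤ γ}.Nonempty
  · obtain ⟨δ, ⟨d1, d2⟩, d3⟩ := wellFounded_lt.has_min _ hc
    have e : ∀ γ ∈ a, γ < δ → γ < β := fun γ a b => not_le.1 fun c => d3 γ ⟨a, c⟩ b
    obtain ⟨m, a, b⟩ := h.mix δ d1 m1 h1 m2 h2 fun v => In.up g2.mi g2.supp (hl v) e
    exact ⟨m, a, fun x => (b x).trans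
      (and_congr_left' ⟨fun c => c.mono d2, fun c => In.up g1.mi g1.supp c e⟩)⟩
  · have e : ∀ γ ∈ a, γ < ⊤ → γ < β := fun γ a _ => not_le.1 fun c => hc ⟨γ, a, c⟩
    exact ⟨m1, h1, fun x => ⟨fun c => ⟨c.mono le_top,
      In.up g2.mi g2.supp ((c.mono le_top).le hl) e⟩, fun c => In.up g1.mi g1.supp c.1 e⟩⟩

/-- the restriction below `β` is in the class up to its range -/
theorem Cls.res {a Φ : Set I} {Γ : Set (Prm I)} {P : Set (Fr I)} (h : Cls a Φ Γ P) (β : I)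
    {m : Fr I} (hm : m ∈ P) : ∃ t ∈ P, ∀ x, In ⊤ t x ↔ In β m x := by
  obtain ⟨t, h1, h2⟩ := h.mix_all β hm h.one (le_id m)
  exact ⟨t, h1, fun x => (h2 x).trans ⟨And.left, fun h3 => ⟨h3, x, .rfl'⟩⟩⟩

end Pool.Agent.B8N
end

-- merged part: Pool.Agent.Work.MP_b8a914_gt.N.Prm
section
/-! Promises: dependence, the independence lemma; hulls and unions of systems. -/

set_option linter.unusedSectionVars false

namespace Pool.Agent.B8N
open Filter Topology Function Set Pool.Agent.B8F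

variable {I : Type} [LinearOrder I]

theorem Oset.congr {a : Set I} {γ : Prm I} (hγ : PrmOK a γ) {φ φ' : I} {x x' : Pt I}
    (h : Oset γ φ x) (e : ∀ δ ∈ a, δ ≤ γ.1 → x δ = x' δ) (e' : x φ = x' φ') :
    Oset γ φ' x' := by
  obtain ⟨k, n, hn, h⟩ := h
  refine ⟨k, n, e γ.1 hγ.1 le_rfl ▸ hn, ?_⟩
  rw [← e']
  exact (hγ.2.2 k n (x φ) x x' fun δ hδ => e δ hδ.1 (le_of_lt hδ.2)).mp h

theorem Cset.congr {a : Set I} {γ : Prm I} (hγ : PrmOK a γ) {φ φ' : I} {k : ℕ} {x x' : Pt I}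
    (h : Cset γ φ k x) (e : ∀ δ ∈ a, δ < γ.1 → x δ = x' δ) (e' : x φ = x' φ') :
    Cset γ φ' k x' := by
  intro n hn
  rw [← e'] at hn
  exact h n ((hγ.2.2 k n (x φ) x x' fun δ hδ => e δ hδ.1 hδ.2).mpr hn)

theorem ev_Oset {a : Set I} {γ : Prm I} (hγ : PrmOK a γ) {φ : I} {x : Pt I} (h : Oset γ φ x) :
    ∀ᶠ x' in 𝓝 x, Oset γ φ x' := by
  obtain ⟨k, n, hn, h⟩ := h
  have hc : Continuous fun x' : Pt I => (x', x' φ) := continuous_id.prodMk (continuous_apply φ)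
  filter_upwards [tendsto_pt.1 (tendsto_id (x := 𝓝 x)) γ.1 k,
    hc.continuousAt.eventually ((hγ.2.1 k n).mem_nhds h)] with x' h1 h2
  exact ⟨k, n, le_of_le_of_eq hn h1.symm, h2⟩

/-- transfer of a decision along agreement of points -/
theorem Dcd.of_agree {a : Set I} {γ : Prm I} (hγ : PrmOK a γ) {φ φ' : I} {m m' : Fr I}
    (h : Dcd γ φ m)
    (e : ∀ v', ∃ v, (∀ δ ∈ a, δ ≤ γ.1 → m v δ = m' v' δ) ∧ m v φ = m' v' φ') :
    Dcd γ φ' m' := by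
  rcases h with h | ⟨k, h⟩
  · refine Or.inl fun v' => ?_
    obtain ⟨v, h1, h2⟩ := e v'
    exact (h v).congr hγ h1 h2
  · refine Or.inr ⟨k, fun v' => ?_⟩
    obtain ⟨v, h1, h2⟩ := e v'
    exact (h v).congr hγ (fun δ h3 h4 => h1 δ h3 h4.le) h2

/-- transfer of a decision along a relabelling `J` of the coordinates -/
theorem Dcd.of_pull {a : Set I} {γ γ' : Prm I} (hγ : PrmOK a γ) {φ : I} {m m' : Fr I} {J : I → I}
    (h : Dcd γ φ m) (e1 : γ'.1 = J γ.1)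
    (e2 : ∀ k n z y, (z, y) ∈ γ'.2 k n ↔ (z ∘ J, y) ∈ γ.2 k n)
    (e : ∀ v', ∃ v, (∀ δ ∈ a, δ ≤ γ.1 → m v δ = m' v' (J δ)) ∧ m v φ = m' v' (J φ)) :
    Dcd γ' (J φ) m' := by
  rcases h.of_agree hγ (φ' := φ) (m' := fun v' => m' v' ∘ J) e with h | ⟨k, h⟩
  · refine Or.inl fun v' => ?_
    obtain ⟨k, n, hn, h1⟩ := h v'
    exact ⟨k, n, e1 ▸ hn, (e2 k n _ _).2 h1⟩
  · exact Or.inr ⟨k, fun v' n hn => h v' n ((e2 k n _ _).1 hn)⟩

variable [OrderTop I]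

theorem Dcd.mono {a : Set I} (ha : a ⊆ Iio ⊤) {γ : Prm I} (hγ : PrmOK a γ) {φ : I} (hφ : φ ∈ a)
    {m m' : Fr I} (h : Dcd γ φ m) (hl : Le ⊤ m' m) : Dcd γ φ m' :=
  h.of_agree hγ fun v' =>
    let ⟨w, hw⟩ := hl v'
    ⟨w, fun δ hδ _ => hw δ (ha hδ), hw φ (ha hφ)⟩

/-- on the range of `t` the coordinate `φ` does not depend on the coordinate `β` -/
def Indep (t : Fr I) (β φ : I) : Prop :=
  ∀ x x', In ⊤ t x → In ⊤ t x' → AgB β x' x →
    ∃ x'', In ⊤ t x'' ∧ AgB β x'' x ∧ x'' β = x' β ∧ x'' φ = x φ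

theorem indep_of_lt (t : Fr I) {β φ : I} (h : φ < β) : Indep t β φ :=
  fun _ x' _ h2 h3 => ⟨x', h2, h3, rfl, h3 φ h⟩

variable [WellFoundedLT I]

/-- If some `t v` is in `Oset`, use `Box.nbhd`.  If not, let `l` be the length at `(γ.1, u0, 0)`;
it is the length at every `u` near `u0` (`IsMi.ev_len`, `IsLen.congr`); the values
`t (update u γ.1 y) γ.1 l` are unbounded, so `t u` is in `Cset γ φ l`; use `Box.param`. -/
theorem prom_of_indep {a : Set I} (ha : a ⊆ Iio ⊤) {P : Set (Fr I)} (hb : Box a P) {t : Fr I}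
    (ht : t ∈ P) (hg : Gd a t) {γ : Prm I} (hγ : PrmOK a γ) {φ : I} (hφ : φ ∈ a)
    (h : Indep t γ.1 φ) : ∃ t' ∈ P, Le ⊤ t' t ∧ Dcd γ φ t' := by
  by_cases hO : ∃ v, Oset γ φ (t v)
  · obtain ⟨v, hv⟩ := hO
    have hd : DepOn a (Oset γ φ) := fun x x' e => propext
      ⟨fun h1 => h1.congr hγ (fun δ hδ _ => e δ hδ) (e φ hφ),
        fun h1 => h1.congr hγ (fun δ hδ _ => (e δ hδ).symm) (e φ hφ).symm⟩
    obtain ⟨m', h1, h2, h3⟩ := hb.nbhd ht hd (ev_Oset hγ hv)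
    exact ⟨m', h1, h2, Or.inl h3⟩
  · obtain ⟨l, hl⟩ := hg.mi.sec γ.1 (fun _ _ => 0) 0
    have hd : DepOn a fun w => Cset γ φ l (t w) := fun w w' e =>
      have e' := hg.supp.2 w w' e
      propext ⟨fun h1 => h1.congr hγ (fun δ hδ _ => e' δ hδ) (e' φ hφ),
        fun h1 => h1.congr hγ (fun δ hδ _ => (e' δ hδ).symm) (e' φ hφ).symm⟩
    have hev : ∀ᶠ w in 𝓝 (fun _ _ => 0 : Pt I), Cset γ φ l (t w) := by
      filter_upwards [hg.mi.ev_len (F := 𝓝 (fun _ _ => 0 : Pt I)) (w := id)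
        (fun δ _ i => tendsto_pt.1 tendsto_id δ i) hl] with w hw n hn
      have h1 : IsLen t γ.1 (update w γ.1 fun _ => n) 0 l :=
        hw.congr ((agB_update _ _).trans (agB_update _ _).symm) fun i hi => absurd hi i.not_lt_zero
      have h2 := hg.big _ _ _ _ h1
      rw [update_self] at h2
      obtain ⟨x, ⟨w', hw'⟩, h3, h4, h5⟩ := h (t w) (t (update w γ.1 fun _ => n)) .self .self
        (hg.mi.agB (agB_update _ _))
      have h6 : Oset γ φ x := ⟨l, n, h4 ▸ h2, by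
        rw [h5]
        exact (hγ.2.2 l n (t w φ) x (t w) fun δ hδ => h3 δ hδ.2).mpr hn⟩
      exact hO ⟨w', h6.congr hγ (fun δ hδ _ => (hw' δ (ha hδ)).symm) (hw' φ (ha hφ)).symm⟩
    obtain ⟨m', h1, h2⟩ := hb.param ht hg hd hev
    refine ⟨m', h1, fun v' => (h2 v').imp fun _ h3 => h3.1, Or.inr ⟨l, fun v' => ?_⟩⟩
    obtain ⟨w, h3, h4⟩ := h2 v'
    exact h4.congr hγ (fun δ hδ _ => h3 δ (ha hδ)) (h3 φ (ha hφ))

omit [LinearOrder I] [OrderTop I] [WellFoundedLT I] in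
theorem Prm_hull {X K : Type} {P s0 : Set X} (h0 : s0.Countable) (hs : s0 ⊆ P) {T : Set K}
    (hT : T.Countable) (R : K → X → X → X → Prop)
    (hR : ∀ k ∈ T, ∀ x ∈ P, ∀ y ∈ P, ∃ z ∈ P, R k x y z) :
    ∃ s : Set X, s.Countable ∧ s0 ⊆ s ∧ s ⊆ P ∧ ∀ k ∈ T, ∀ x ∈ s, ∀ y ∈ s, ∃ z ∈ s, R k x y z := by
  have h1 : ∀ k x y, ∃ z, k ∈ T → x ∈ P → y ∈ P → z ∈ P ∧ R k x y z := fun k x y => by
    by_cases h : k ∈ T ∧ x ∈ P ∧ y ∈ P
    · obtain ⟨z, hz⟩ := hR k h.1 x h.2.1 y h.2.2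
      exact ⟨z, fun _ _ _ => hz⟩
    · exact ⟨x, fun a b c => absurd ⟨a, b, c⟩ h⟩
  choose g hg using h1
  let S : ℕ → Set X := fun n => Nat.rec s0
    (fun _ A => A ∪ (fun q : K × X × X => g q.1 q.2.1 q.2.2) '' (T ×ˢ A ×ˢ A)) n
  have hS : ∀ n, (S n).Countable ∧ S n ⊆ P := fun n => by
    induction n with
    | zero => exact ⟨h0, hs⟩
    | succ n ih =>
      refine ⟨ih.1.union ((hT.prod (ih.1.prod ih.1)).image _), union_subset ih.2 ?_⟩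
      rintro _ ⟨q, ⟨h1, h2, h3⟩, rfl⟩
      exact (hg _ _ _ h1 (ih.2 h2) (ih.2 h3)).1
  have hm : Monotone S := monotone_nat_of_le_succ fun n => subset_union_left
  refine ⟨⋃ n, S n, countable_iUnion fun n => (hS n).1, subset_iUnion S 0,
    iUnion_subset fun n => (hS n).2, fun k hk x hx y hy => ?_⟩
  obtain ⟨n1, h1⟩ := mem_iUnion.1 hx
  obtain ⟨n2, h2⟩ := mem_iUnion.1 hy
  exact ⟨g k x y, mem_iUnion.2 ⟨max n1 n2 + 1, Or.inr ⟨(k, x, y),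
    ⟨hk, hm (le_max_left _ _) h1, hm (le_max_right _ _) h2⟩, rfl⟩⟩,
    (hg k x y hk ((hS _).2 h1) ((hS _).2 h2)).2⟩

omit [WellFoundedLT I] in
/-- a countable part of a class lies in a system inside the class (`exists_hull` with the ambient
predicate `· ∈ P`; requests: members of `s0`, mixing, patterns, promises) -/
theorem Cls.hull {a Φ : Set I} {Γ : Set (Prm I)} {P : Set (Fr I)} (h : Cls a Φ Γ P)
    {s0 : Set (Fr I)} (h0 : s0.Countable) (hs : s0 ⊆ P) :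
    ∃ σ : Sys I, σ.a = a ∧ σ.Φ = Φ ∧ σ.Γ = Γ ∧ s0 ⊆ σ.s ∧ σ.s ⊆ P := by
  let T : Set (I ⊕ Pat I ⊕ I × Prm I) :=
    Sum.inl '' a ∪ Sum.inr '' (Sum.inl '' {L | Over a L} ∪ Sum.inr '' (Φ ×ˢ Γ))
  have hT : T.Countable := (h.ac.image _).union ((((countable_over h.ac).image _).union
    (((h.ac.mono h.sub).prod h.Γc).image _)).image _)
  let R : I ⊕ Pat I ⊕ I × Prm I → Fr I → Fr I → Fr I → Prop := Sum.elim
    (fun β m1 m2 m => Le β m1 m2 → IsMix β m1 m2 m) (Sum.elim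
      (fun L m _ m' => (∃ v, InB L (m v)) → Le ⊤ m' m ∧ ∀ v, InB L (m' v))
      fun q m _ m' => Le ⊤ m' m ∧ Dcd q.2 q.1 m')
  obtain ⟨s, h1, h2, h3, h4⟩ := Prm_hull (h0.insert id) (insert_subset h.one hs) hT R (by
    rintro _ (⟨β, hβ, rfl⟩ | ⟨_, ⟨L, hL, rfl⟩ | ⟨q, hq, rfl⟩, rfl⟩) x hx y hy
    · by_cases hl : Le β x y
      · obtain ⟨m, hm, e⟩ := h.mix β hβ x hx y hy hl
        exact ⟨m, hm, fun _ => e⟩
      · exact ⟨x, hx, fun h' => absurd h' hl⟩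
    · by_cases hl : ∃ v, InB L (x v)
      · obtain ⟨m, hm, e⟩ := h.box x hx L hL hl
        exact ⟨m, hm, fun _ => e⟩
      · exact ⟨x, hx, fun h' => absurd h' hl⟩
    · exact h.prom x hx q.1 hq.1 q.2 hq.2)
  refine ⟨⟨a, Φ, Γ, s, ⟨h.ac, h.top, h.sub, h.Γc, h.prm, fun m hm => h.gd m (h3 hm),
    h2 (mem_insert _ _), fun β hβ m1 a1 m2 a2 hl => ?_, fun m hm L hL hv => ?_,
    fun m hm φ hφ γ hγ => ?_⟩, h1⟩, rfl, rfl, rfl, (subset_insert _ _).trans h2, h3⟩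
  · obtain ⟨z, hz, e⟩ := h4 (.inl β) (Or.inl ⟨β, hβ, rfl⟩) m1 a1 m2 a2
    exact ⟨z, hz, e hl⟩
  · obtain ⟨z, hz, e⟩ := h4 (.inr (.inl L)) (Or.inr ⟨_, Or.inl ⟨L, hL, rfl⟩, rfl⟩) m hm m hm
    exact ⟨z, hz, e hv⟩
  · exact h4 (.inr (.inr (φ, γ))) (Or.inr ⟨_, Or.inr ⟨(φ, γ), ⟨hφ, hγ⟩, rfl⟩, rfl⟩) m hm m hm

omit [WellFoundedLT I] in
/-- the union of a chain -/
theorem exists_union (σ : ℕ → Sys I) (h : ∀ n, SLe (σ (n + 1)) (σ n)) :
    ∃ τ : Sys I, (∀ n, SLe τ (σ n)) ∧ τ.s = ⋃ n, (σ n).s := by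
  have ma : Monotone fun n => (σ n).a := monotone_nat_of_le_succ fun n => (h n).1
  have mΦ : Monotone fun n => (σ n).Φ := monotone_nat_of_le_succ fun n => (h n).2.1
  have mΓ : Monotone fun n => (σ n).Γ := monotone_nat_of_le_succ fun n => (h n).2.2.1
  have ms : Monotone fun n => (σ n).s := monotone_nat_of_le_succ fun n => (h n).2.2.2
  have sa := subset_iUnion fun n => (σ n).a
  have ss := subset_iUnion fun n => (σ n).s
  refine ⟨⟨⋃ n, (σ n).a, ⋃ n, (σ n).Φ, ⋃ n, (σ n).Γ, ⋃ n, (σ n).s,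
    ⟨countable_iUnion fun n => (σ n).cls.ac, iUnion_subset fun n => (σ n).cls.top,
      iUnion_mono fun n => (σ n).cls.sub, countable_iUnion fun n => (σ n).cls.Γc,
      fun γ hγ => ?_, fun m hm => ?_, ss 0 (σ 0).cls.one, fun β hβ m1 a1 m2 a2 hl => ?_,
      fun m hm L hL hv => ?_, fun m hm φ hφ γ hγ => ?_⟩, countable_iUnion fun n => (σ n).sc⟩,
    fun n => ⟨sa n, subset_iUnion (fun n => (σ n).Φ) n, subset_iUnion (fun n => (σ n).Γ) n, ss n⟩,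
    rfl⟩
  · obtain ⟨n, hn⟩ := mem_iUnion.1 hγ
    exact ((σ n).cls.prm γ hn).mono (sa n)
  · obtain ⟨n, hn⟩ := mem_iUnion.1 hm
    exact ((σ n).cls.gd m hn).mono (sa n)
  · obtain ⟨n0, h0⟩ := mem_iUnion.1 hβ
    obtain ⟨n1, h1⟩ := mem_iUnion.1 a1
    obtain ⟨n2, h2⟩ := mem_iUnion.1 a2
    obtain ⟨m, hm, e⟩ := (σ (n0 + n1 + n2)).cls.mix β (ma (by omega) h0) m1 (ms (by omega) h1) m2
      (ms (by omega) h2) hl
    exact ⟨m, ss _ hm, e⟩
  · obtain ⟨n1, h1⟩ := mem_iUnion.1 hm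
    have h2 : ∀ t : I × ℕ × ℕ, ∃ n, t ∈ L → t.1 ∈ (σ n).a := fun t => by
      by_cases ht : t ∈ L
      · exact (mem_iUnion.1 (hL t ht)).imp fun _ h' _ => h'
      · exact ⟨0, fun h' => absurd h' ht⟩
    choose f hf using h2
    obtain ⟨m', hm', e⟩ := (σ (L.sup f + n1)).cls.box m (ms (by omega) h1) L
      (fun t ht => ma ((Finset.le_sup ht).trans (Nat.le_add_right _ _)) (hf t ht)) hv
    exact ⟨m', ss _ hm', e⟩
  · obtain ⟨n0, h0⟩ := mem_iUnion.1 hm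
    obtain ⟨n1, h1⟩ := mem_iUnion.1 hφ
    obtain ⟨n2, h2⟩ := mem_iUnion.1 hγ
    obtain ⟨m', hm', e⟩ := (σ (n0 + n1 + n2)).cls.prom m (ms (by omega) h0) φ (mΦ (by omega) h1) γ
      (mΓ (by omega) h2)
    exact ⟨m', ss _ hm', e⟩

/-- the trivial system -/
def Sys.one (I : Type) [LinearOrder I] [OrderTop I] : Sys I where
  a := ∅
  Φ := ∅
  Γ := ∅
  s := {id}
  cls := ⟨countable_empty, empty_subset _, Subset.rfl, countable_empty, fun _ h => h.elim,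
    fun _ h => h ▸ gd_id _, rfl, fun _ h => h.elim,
    fun m hm _ hL _ => ⟨m, hm, .rfl', fun _ t ht => (hL t ht).elim⟩, fun _ _ _ h => h.elim⟩
  sc := countable_singleton _

end Pool.Agent.B8N
end

-- merged part: Pool.Agent.Work.MP_b8a914_gt.N.ML
section
/-! The master lemma over a system. -/

set_option linter.unusedSectionVars false

namespace Pool.Agent.B8N
open Filter Topology Function Set Pool.Agent.B8F

variable {I : Type} [LinearOrder I] [OrderTop I] [WellFoundedLT I]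

def Dh (δ β : I) (m : ℕ) (r : Fr I) (D : Set (Fr I)) : Set (Fr I) :=
  {r2 | (r2 ∈ D ∧ ∃ m', m ≤ m' ∧ Succ δ β m' r r2) ∨ ∀ v, ¬ In β r (r2 v)}

/-- a system with a countable family of sets of frames -/
structure Ctx (I : Type) [LinearOrder I] [OrderTop I] extends Sys I where
  DD : Set (Set (Fr I))
  Dc : DD.Countable
  univ_mem : univ ∈ DD
  dh : ∀ δ ∈ insert ⊤ a, ∀ β ∈ a, ∀ m, ∀ r ∈ s, ∀ D ∈ DD, Dh δ β m r D ∈ DD
  op : ∀ β ∈ a, ∀ D ∈ DD, {m | ∃ r ∈ D, r ∈ s ∧ Le β m r} ∈ DD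

/-- every countable family of sets lies in a context (`exists_hull` on `Set (Fr I)`) -/
theorem exists_ctx (σ : Sys I) {D0 : Set (Set (Fr I))} (h : D0.Countable) :
    ∃ H : Ctx I, H.toSys = σ ∧ D0 ⊆ H.DD := by
  let T : ℕ → Set (Set (Fr I)) := fun n => Nat.rec (insert univ D0) (fun _ S =>
    (⋃ δ ∈ insert ⊤ σ.a, ⋃ β ∈ σ.a, ⋃ m, ⋃ r ∈ σ.s, Dh δ β m r '' S) ∪
      ⋃ β ∈ σ.a, (fun D => {m | ∃ r ∈ D, r ∈ σ.s ∧ Le β m r}) '' S) n
  have hT : ∀ n, (T n).Countable := fun n => by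
    induction n with
    | zero => exact h.insert _
    | succ n ih =>
      exact ((σ.cls.ac.insert ⊤).biUnion fun _ _ => σ.cls.ac.biUnion fun _ _ =>
        countable_iUnion fun _ => σ.sc.biUnion fun _ _ => ih.image _).union
        (σ.cls.ac.biUnion fun _ _ => ih.image _)
  refine ⟨⟨σ, ⋃ n, T n, countable_iUnion hT, mem_iUnion.2 ⟨0, mem_insert _ _⟩,
    fun δ a β b m r c D f => ?_, fun β b D f => ?_⟩, rfl,
    fun D f => mem_iUnion.2 ⟨0, mem_insert_of_mem _ f⟩⟩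
  · obtain ⟨n, f⟩ := mem_iUnion.1 f
    exact mem_iUnion.2 ⟨n + 1, Or.inl (mem_biUnion a (mem_biUnion b (mem_iUnion.2
      ⟨m, mem_biUnion c (mem_image_of_mem _ f)⟩)))⟩
  · obtain ⟨n, f⟩ := mem_iUnion.1 f
    exact mem_iUnion.2 ⟨n + 1, Or.inr (mem_biUnion b (mem_image_of_mem _ f))⟩

namespace Ctx
variable (H : Ctx I)

def Dn (β : I) (D : Set (Fr I)) : Prop := ∀ r ∈ H.s, ∃ r' ∈ D, r' ∈ H.s ∧ Le β r' r

def Met (β : I) (q : Fr I) (D : Set (Fr I)) : Prop :=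
  ∀ u, ∃ r ∈ D, r ∈ H.s ∧ ∀ᶠ u' in 𝓝 u, In β r (q u')

structure Gn (β : I) (q : Fr I) : Prop where
  mi : IsMi q
  supp : Supp (H.a ∩ Iio β) q
  gen : ∀ D ∈ H.DD, H.Dn β D → H.Met β q D

structure St (β : I) (q : Fr I) (st : Pt I → Fr I) : Prop where
  lc : IsLocallyConstant st
  dep : DepOn (H.a ∩ Iio β) st
  mem : ∀ u, st u ∈ H.s
  inn : ∀ u, In β (st u) (q u)

variable {H}

/-- successors inside the system: mix `r1` and `r` at `β`, then take a box in the relatively open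
set of the points `r w` with `w β 0 = m` (`proj_open`, `proj_dep`, `Box.nbhd`) -/
theorem succ_in {β : I} (hβ : β ∈ H.a) {r r1 : Fr I} (hr : r ∈ H.s) (h1 : r1 ∈ H.s)
    (hl : Le β r1 r) (m : ℕ) : ∃ r' ∈ H.s, Le β r' r1 ∧ Succ ⊤ β m r r' := by
  have g := H.cls.gd r hr
  obtain ⟨t, ht, hm⟩ := H.cls.mix β hβ r1 h1 r hr hl
  obtain ⟨w, hw⟩ := hl fun _ _ => 0
  obtain ⟨v, hv⟩ := (hm (r (update w β fun _ => m))).2
    ⟨⟨_, hw.symm.trans (g.mi.agB (agB_update w _)).symm⟩, .self⟩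
  have d := proj_dep g.supp ⊤ (Q := fun w' => w' β 0 = m) fun u u' e => by
    simp only [e β hβ]
  have o := proj_open g.mi ⊤ (w := update w β fun _ => m) (Q := fun w' => w' β 0 = m)
    ((tendsto_pt.1 tendsto_id β 0).mono fun u e => e.trans (by rw [update_self]))
  obtain ⟨r', a, b, c⟩ := H.cls.box.nbhd ht (d.mono inter_subset_left)
    (ev_dep d o fun γ hγ => (hv γ hγ.2).symm)
  exact ⟨r', a, (b.mono le_top).trans hm.le1, fun v' => c v' ((b.trans hm.le2) v')⟩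

theorem ml_supp {r : Fr I} (hr : r ∈ H.s) : Supp H.a r := (H.cls.gd r hr).supp

theorem ml_mi {r : Fr I} (hr : r ∈ H.s) : IsMi r := (H.cls.gd r hr).mi

variable (H) in
def mlPp (δ : I) : Prop :=
  ∀ β ∈ insert ⊤ H.a, β ≤ δ → ∀ q st, H.Gn β q → H.St β q st →
    ∃ q', H.Gn δ q' ∧ (∀ u, AgB β (q' u) (q u)) ∧ ∀ u, In δ (st u) (q' u)

section Q
variable {δ : I} (hδ : δ ∈ insert ⊤ H.a) {F : ℕ → Set (Fr I)}
  (hF : ∀ n, F n ∈ H.DD ∧ H.Dn δ (F n))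
include hδ hF

theorem ml_sel {β : I} (hβ : β ∈ H.a) (hβδ : β < δ) {q : Fr I} (hq : H.Gn β q)
    {st : Pt I → Fr I} (hst : H.St β q st) (n : ℕ) {mm : Pt I → ℕ}
    (h1 : IsLocallyConstant mm) (h2 : DepOn (H.a ∩ Iio β) mm) :
    ∃ (st' : Pt I → Fr I) (m' : Pt I → ℕ), H.St β q st' ∧ IsLocallyConstant m' ∧
      DepOn (H.a ∩ Iio β) m' ∧
      ∀ u, st' u ∈ F n ∧ mm u ≤ m' u ∧ Succ δ β (m' u) (st u) (st' u) := by
  obtain ⟨sel, a, b, c⟩ := lc_sel (s := H.a ∩ Iio β) (H.cls.ac.mono inter_subset_left)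
    (N := H.s ×ˢ (univ : Set ℕ)) (H.sc.prod countable_univ)
    (P := fun u z => z.1 ∈ F n ∧ In β z.1 (q u) ∧ mm u ≤ z.2 ∧ Succ δ β z.2 (st u) z.1)
    (fun z hz u v huv => by
      have e := dep_In (ml_supp hz.1) hq.supp u v huv
      simp only at e ⊢
      rw [e, h2 u v huv, hst.dep u v huv])
    (fun u => by
      obtain ⟨r2, hr2, hN, hev⟩ := hq.gen _
        (H.dh δ hδ β hβ (mm u) (st u) (hst.mem u) _ (hF n).1)
        (fun r1 hr1 => by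
          rcases H.cls.box.out hr1 (H.cls.gd _ (hst.mem u)) β with h | ⟨r2, h3, h4, h5⟩
          · obtain ⟨r', h3, h4, h5⟩ := succ_in hβ (hst.mem u) hr1 h (mm u)
            obtain ⟨r2, h6, h7, h8⟩ := (hF n).2 r' h3
            exact ⟨r2, Or.inl ⟨h6, mm u, le_rfl, Succ.of_le
              (fun v => let ⟨w, x, y⟩ := h5 v; ⟨w, x.mono le_top, y⟩) h8⟩, h7,
              (h8.mono hβδ.le).trans h4⟩
          · exact ⟨r2, Or.inr h5, h3, h4.mono le_top⟩) u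
      rcases hr2 with ⟨h3, m', h4, h5⟩ | h3
      · refine ⟨(r2, m'), ⟨hN, trivial⟩, ?_⟩
        filter_upwards [hev, h1.eventually_eq u, hst.lc.eventually_eq u] with v a b c
        exact ⟨h3, a, b ▸ h4, c ▸ h5⟩
      · obtain ⟨w, hw⟩ := hev.self_of_nhds
        exact (h3 w ((hst.inn u).congr hw.symm)).elim)
  exact ⟨fun u => (sel u).1, fun u => (sel u).2,
    ⟨a.comp Prod.fst, fun u v h => congrArg Prod.fst (b u v h), fun u => (c u).1.1,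
      fun u => (c u).2.2.1⟩, a.comp Prod.snd,
    fun u v h => congrArg Prod.snd (b u v h), fun u => ⟨(c u).2.1, (c u).2.2.2⟩⟩

theorem ml_kids {β : I} (hβ : β ∈ H.a) (hβδ : β < δ) {q : Fr I} (hq : H.Gn β q) (n : ℕ)
    (st : {st : Pt I → Fr I // H.St β q st}) :
    ∃ (k : ℕ → {st : Pt I → Fr I // H.St β q st}) (m : Pt I → ℕ → ℕ),
      (∀ u, Injective (m u)) ∧
      ∀ j u, (k j).1 u ∈ F n ∧ Succ δ β (m u j) (st.1 u) ((k j).1 u) := by
  have step := fun mm : {mm : Pt I → ℕ // IsLocallyConstant mm ∧ DepOn (H.a ∩ Iio β) mm} =>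
    ml_sel hδ hF hβ hβδ hq st.2 n mm.2.1 mm.2.2
  choose k m h1 h2 h3 h4 using step
  let mm : ℕ → {mm : Pt I → ℕ // IsLocallyConstant mm ∧ DepOn (H.a ∩ Iio β) mm} := fun j =>
    Nat.rec ⟨fun _ => 0, IsLocallyConstant.const 0, fun _ _ _ => rfl⟩
      (fun _ x => ⟨fun u => m x u + 1, (h2 x).comp (· + 1),
        fun u v h => congrArg (· + 1) (h3 x u v h)⟩) j
  exact ⟨fun j => ⟨k (mm j), h1 _⟩, fun u j => m (mm j) u,
    fun u => (strictMono_nat_of_lt_succ fun j => (h4 (mm (j + 1)) u).2.1).injective,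
    fun j u => ⟨(h4 _ u).1, (h4 _ u).2.2⟩⟩

theorem ml_succ {β : I} (hβ : β ∈ H.a) (hβδ : β < δ) (hmax : ∀ γ ∈ H.a, γ < δ → γ ≤ β)
    {q : Fr I} (hq : H.Gn β q) {st : Pt I → Fr I} (hst : H.St β q st) :
    ∃ q', IsMi q' ∧ Supp (H.a ∩ Iio δ) q' ∧ (∀ u, AgB β (q' u) (q u)) ∧
      (∀ u, In δ (st u) (q' u)) ∧ ∀ n, H.Met δ q' (F n) := by
  classical
  choose k m h1 h2 using ml_kids hδ hF hβ hβδ hq
  let nd : (ℕ → ℕ) → ℕ → {st : Pt I → Fr I // H.St β q st} := fun x n =>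
    Nat.rec ⟨st, hst⟩ (fun n s => k n s (x n)) n
  have hag : ∀ x x' n, Ag n x x' → nd x n = nd x' n := fun x x' n => by
    induction n with
    | zero => exact fun _ => rfl
    | succ n ih =>
      intro h
      show k n (nd x n) (x n) = k n (nd x' n) (x' n)
      rw [ih (h.mono n.le_succ), h n n.lt_succ_self]
  obtain ⟨q', a, b, c, d⟩ := miller hq.mi H.cls.ac hβ hq.supp (fun x n => (nd x n).1)
    (fun x n => m n (nd x n)) (fun x x' n h => by rw [hag x x' n h]; exact ⟨rfl, rfl⟩)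
    (fun x n => (nd x n).2.lc) (fun x n => (nd x n).2.dep)
    (fun x n u => ml_mi ((nd x n).2.mem u))
    (fun x n u => ml_supp ((nd x n).2.mem u)) (fun x n u => (nd x n).2.inn u)
    (fun x n u => h1 n _ u) (fun x n u v => by
      obtain ⟨w, h3, h4⟩ := (h2 n (nd x n) (x n) u).2 v
      exact ⟨w, h3.mono hβδ.le, h3 β hβδ, h4⟩)
  have hin : ∀ u n, In δ ((nd (u β) n).1 u) (q' u) := fun u n => by
    obtain ⟨w, h3, h4⟩ := d u n
    refine ⟨fun γ => if γ ≤ β then w γ else u γ, fun γ hγ => ?_⟩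
    by_cases h5 : γ ≤ β
    · rw [(ml_mi ((nd (u β) n).2.mem u)).proj γ _ w fun γ' h' => if_pos (h'.trans h5)]
      rcases h5.lt_or_eq with h6 | rfl
      · rw [h3 γ h6, c u γ h6.ne]
      · exact h4
    · have h6 : γ ∉ H.a := fun h => h5 (hmax γ h hγ)
      rw [(ml_supp ((nd (u β) n).2.mem u)).1 _ γ h6, if_neg h5,
        c u γ (fun h => h5 h.le), hq.supp.1 u γ fun h => h6 h.1]
  refine ⟨q', a, b.mono (insert_subset ⟨hβ, hβδ⟩
    (inter_subset_inter_right _ (Iio_subset_Iio hβδ.le))), fun u γ hγ => c u γ hγ.ne,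
    fun u => hin u 0, fun n u => ⟨(nd (u β) (n + 1)).1 u, (h2 n _ _ u).1,
      (nd (u β) (n + 1)).2.mem u, ?_⟩⟩
  filter_upwards [(nd (u β) (n + 1)).2.lc.eventually_eq u, ev_box u {β} (n + 1)] with v h3 h4
  have := hin v (n + 1)
  rwa [hag _ _ _ (h4 β (Finset.mem_singleton_self β)), h3] at this

theorem ml_up {β β' : I} (hβ : β ∈ H.a) (h1 : β ≤ β') (h2 : β' < δ)
    (hP : H.mlPp β') (n : ℕ) {q : Fr I} (hq : H.Gn β q) {st : Pt I → Fr I}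
    (hst : H.St β q st) :
    ∃ q' st', H.Gn β' q' ∧ H.St β' q' st' ∧ (∀ u, AgB β (q' u) (q u)) ∧
      ∀ u, st' u ∈ F n ∧ Le δ (st' u) (st u) := by
  obtain ⟨st', m, a, -, -, b⟩ := ml_sel hδ hF hβ (h1.trans_lt h2) hq hst n
    (IsLocallyConstant.const 0) fun _ _ _ => rfl
  obtain ⟨q', c, d, e⟩ := hP β (mem_insert_of_mem _ hβ) h1 q st' hq a
  exact ⟨q', st', c, ⟨a.lc, a.dep.mono (inter_subset_inter_right _ (Iio_subset_Iio h1)), a.mem, e⟩,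
    d, fun u => ⟨(b u).1, (b u).2.2.le⟩⟩

theorem ml_step (hP : ∀ β ∈ H.a, β < δ → H.mlPp β) {β : I} (hβ : β ∈ H.a) (hβδ : β < δ)
    {q : Fr I} (hq : H.Gn β q) {st : Pt I → Fr I} (hst : H.St β q st) :
    ∃ q', IsMi q' ∧ Supp (H.a ∩ Iio δ) q' ∧ (∀ u, AgB β (q' u) (q u)) ∧
      (∀ u, In δ (st u) (q' u)) ∧ ∀ n, H.Met δ q' (F n) := by
  by_cases hmax : ∃ β' ∈ H.a ∩ Iio δ, ∀ γ ∈ H.a ∩ Iio δ, γ ≤ β'
  · obtain ⟨β', h1, h2⟩ := hmax
    have h3 := h2 β ⟨hβ, hβδ⟩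
    obtain ⟨q1, st1, a, b, c, d⟩ := ml_up hδ hF hβ h3 h1.2 (hP _ h1.1 h1.2) 0 hq hst
    obtain ⟨q', e1, e2, e3, e4, e5⟩ := ml_succ hδ hF h1.1 h1.2 (fun γ x y => h2 γ ⟨x, y⟩) a b
    exact ⟨q', e1, e2, fun u => ((e3 u).mono h3).trans (c u), fun u => (e4 u).le (d u).2, e5⟩
  push Not at hmax
  obtain ⟨b, rfl, hb, hm, hc⟩ := exists_cofinal_seq (H.cls.ac.mono inter_subset_left)
    (⟨hβ, hβδ⟩ : β ∈ H.a ∩ Iio δ) hmax
  let T : ℕ → Type := fun k => {z : Fr I × (Pt I → Fr I) // H.Gn (b k) z.1 ∧ H.St (b k) z.1 z.2}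
  have step : ∀ k (z : T k), ∃ z' : T (k + 1), (∀ u, AgB (b k) (z'.1.1 u) (z.1.1 u)) ∧
      ∀ u, z'.1.2 u ∈ F k ∧ Le δ (z'.1.2 u) (z.1.2 u) := fun k z => by
    obtain ⟨q', st', a1, a2, a3, a4⟩ := ml_up hδ hF (hm k).1
      (hb k.le_succ) (hm (k + 1)).2 (hP _ (hm _).1 (hm _).2) k z.2.1 z.2.2
    exact ⟨⟨(q', st'), a1, a2⟩, a3, a4⟩
  choose nx h1 h2 using step
  let z : ∀ k, T k := fun k => Nat.rec ⟨(q, st), hq, hst⟩ nx k
  have hc' : ∀ γ ∈ H.a, γ < δ → ∃ k, γ < b k := fun γ x y => hc γ ⟨x, y⟩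
  obtain ⟨q', e1, e2, e3⟩ := exists_union_mi H.cls.ac hb (fun k => le_of_lt (hm k).2) hc'
    (q := fun k => (z k).1.1) (fun k => (z k).2.1.mi) (fun k => (z k).2.1.supp)
    fun k => h1 k (z k)
  have hle : ∀ n k, n ≤ k → ∀ u, Le δ ((z k).1.2 u) ((z n).1.2 u) := by
    intro n k h u
    induction h with
    | refl => exact .rfl'
    | step _ ih => exact (h2 _ (z _) u).2.trans ih
  have hin : ∀ n u, In δ ((z n).1.2 u) (q' u) := fun n u =>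
    in_limit (ml_mi ((z n).2.2.mem u)) (ml_supp ((z n).2.2.mem u)) (b := b) (fun k =>
      ((((z (max n k)).2.2.inn u).congr (e3 _ u).symm).le
        ((hle n _ (le_max_left _ _) u).mono (le_of_lt (hm _).2))).mono (hb (le_max_right _ _))) hc'
  refine ⟨q', e1, e2, e3 0, hin 0, fun n u => ⟨(z (n + 1)).1.2 u, (h2 n (z n) u).1,
    (z (n + 1)).2.2.mem u, ?_⟩⟩
  filter_upwards [(z (n + 1)).2.2.lc.eventually_eq u] with v h3
  exact h3 ▸ hin (n + 1) v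

end Q

theorem ml_pp (δ : I) : δ ∈ insert ⊤ H.a → H.mlPp δ := by
  induction δ using WellFoundedLT.induction with
  | _ δ ih =>
    intro hδ β hβ hβδ q st hq hst
    rcases hβδ.lt_or_eq with h | rfl
    swap
    · exact ⟨q, hq, fun _ => .rfl', hst.inn⟩
    obtain ⟨e, he⟩ := (H.Dc.mono (s₁ := {D | D ∈ H.DD ∧ H.Dn δ D}) fun _ h => h.1).exists_eq_range
      ⟨univ, H.univ_mem, fun r hr => ⟨r, trivial, hr, .rfl'⟩⟩
    have h1 : ∀ n, e n ∈ H.DD ∧ H.Dn δ (e n) := fun n =>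
      (he ▸ mem_range_self n : e n ∈ {D | D ∈ H.DD ∧ H.Dn δ D})
    obtain ⟨q', a, b, c, d, f⟩ := ml_step hδ h1
      (fun β x y => ih β y (mem_insert_of_mem _ x)) (hβ.resolve_left (h.trans_le le_top).ne) h hq hst
    refine ⟨q', ⟨a, b, fun D h2 h3 => ?_⟩, c, d⟩
    obtain ⟨n, rfl⟩ : D ∈ range e := he ▸ (⟨h2, h3⟩ : D ∈ {D | D ∈ H.DD ∧ H.Dn δ D})
    exact f n

/-- Port of `B8F.Hull.pp` (file `F/ML.lean`: `stepSel`, `kids`, `succ_case`, `step_up`, `q_step`,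
`pp`) without the part `OP`, with `Val = univ` and `F n β = e n`.  Density of `Dh` comes from
`Box.out`; the second case of `Dh` is impossible at a point where both ranges are met. -/
theorem pp {δ : I} (hδ : δ ∈ insert ⊤ H.a) {β : I} (hβ : β ∈ insert ⊤ H.a) (hβδ : β ≤ δ)
    {q : Fr I} {st : Pt I → Fr I} (hq : H.Gn β q) (hst : H.St β q st) :
    ∃ q', H.Gn δ q' ∧ (∀ u, AgB β (q' u) (q u)) ∧ ∀ u, In δ (st u) (q' u) :=
  ml_pp δ hδ β hβ hβδ q st hq hst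

end Ctx

end Pool.Agent.B8N
end

-- merged part: Pool.Agent.Work.MP_b8a914_gt.N.Close
section
/-! Every frame has a big thinning. -/

set_option linter.unusedSectionVars false

namespace Pool.Agent.B8N
open Filter Topology Function Set Pool.Agent.B8F

/-- the value at the splitting level of the successor `t` -/
noncomputable def closeVal (σ : (ℕ → ℕ) → ℕ → ℕ) (y : ℕ → ℕ) (n t : ℕ) : ℕ :=
  σ (dm0tp y n t) (dm0len σ y n)

/-- records -/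
def closeRec (σ : (ℕ → ℕ) → ℕ → ℕ) (y : ℕ → ℕ) (n t : ℕ) : Prop :=
  ∀ t' < t, closeVal σ y n t' < closeVal σ y n t

theorem closeRec_inf {σ : (ℕ → ℕ) → ℕ → ℕ} (hσ : Sec σ) (y : ℕ → ℕ) (n : ℕ) :
    {t | closeRec σ y n t}.Infinite := by
  classical
  have hi : Function.Injective (closeVal σ y n) := fun m m' e => by
    have := (dm0len_spec hσ y n _ _ (dm0tp_ag y n m) (dm0tp_ag y n m')).2.1 e
    rwa [dm0tp_at, dm0tp_at] at this
  refine Set.infinite_of_forall_exists_gt fun M => ?_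
  have hex : ∃ t, (Finset.range (M + 1)).sup (closeVal σ y n) < closeVal σ y n t := by
    obtain ⟨b, ⟨m, rfl⟩, hb⟩ := (Set.infinite_range_of_injective hi).exists_gt
      ((Finset.range (M + 1)).sup (closeVal σ y n))
    exact ⟨m, hb⟩
  refine ⟨Nat.find hex, fun t' ht' =>
    (not_lt.1 (Nat.find_min hex ht')).trans_lt (Nat.find_spec hex), ?_⟩
  by_contra hc
  exact absurd (Nat.find_spec hex) (not_lt.2 (Finset.le_sup (f := closeVal σ y n)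
    (Finset.mem_range.2 (Nat.lt_succ_of_le (not_lt.1 hc)))))

theorem closeRec_le {σ : (ℕ → ℕ) → ℕ → ℕ} (hσ : Sec σ) (y : ℕ → ℕ) (n : ℕ) :
    ∀ j, j ≤ closeVal σ y n (Nat.nth (closeRec σ y n) j)
  | 0 => Nat.zero_le _
  | j + 1 => (closeRec_le hσ y n j).trans_lt
      (Nat.nth_mem_of_infinite (closeRec_inf hσ y n) (j + 1) _
        (Nat.nth_strictMono (closeRec_inf hσ y n) (Nat.lt_succ_self j)))

/-- the nodes along the thinned branch -/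
noncomputable def closeN (σ : (ℕ → ℕ) → ℕ → ℕ) (y : ℕ → ℕ) : ℕ → ℕ → ℕ
  | 0 => fun _ => 0
  | n + 1 => dm0tp (closeN σ y n) n (Nat.nth (closeRec σ (closeN σ y n) n) (y n))

noncomputable def closeTh (σ : (ℕ → ℕ) → ℕ → ℕ) (y : ℕ → ℕ) (n : ℕ) : ℕ := closeN σ y (n + 1) n

theorem closeN_ag (σ : (ℕ → ℕ) → ℕ → ℕ) (y : ℕ → ℕ) : ∀ n, Ag n (closeN σ y n) (closeTh σ y)
  | 0 => fun _ hi => absurd hi (Nat.not_lt_zero _)
  | n + 1 => ((dm0tp_ag _ n _).trans (closeN_ag σ y n)).succ rfl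

theorem closeTh_eq (σ : (ℕ → ℕ) → ℕ → ℕ) (y : ℕ → ℕ) (n : ℕ) :
    closeTh σ y n = Nat.nth (closeRec σ (closeN σ y n) n) (y n) := dm0tp_at _ _ _

theorem closeN_congr (σ : (ℕ → ℕ) → ℕ → ℕ) {y y' : ℕ → ℕ} :
    ∀ n, Ag n y y' → closeN σ y n = closeN σ y' n
  | 0, _ => rfl
  | n + 1, h => by
    rw [closeN, closeN, closeN_congr σ n (h.mono (Nat.le_succ n)), h n (Nat.lt_succ_self n)]

section ev
variable {Z : Type} {F : Filter Z} {σ : Z → (ℕ → ℕ) → ℕ → ℕ} {τ : (ℕ → ℕ) → ℕ → ℕ}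

theorem close_ev_val (hτ : Sec τ) (h : ∀ y i, ∀ᶠ z in F, σ z y i = τ y i) (y : ℕ → ℕ)
    (n t : ℕ) : ∀ᶠ z in F, closeVal (σ z) y n t = closeVal τ y n t := by
  filter_upwards [dm0_ev_len hτ h y n, h (dm0tp y n t) (dm0len τ y n)] with z h1 h2
  unfold closeVal
  rw [h1, h2]

theorem close_ev_rec (hτ : Sec τ) (h : ∀ y i, ∀ᶠ z in F, σ z y i = τ y i) (y : ℕ → ℕ)
    (n t : ℕ) : ∀ᶠ z in F, (closeRec (σ z) y n t ↔ closeRec τ y n t) := by
  filter_upwards [dm0_ev_le t (close_ev_val hτ h y n)] with z h1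
  unfold closeRec
  refine forall_congr' fun t' => imp_congr_right fun ht => ?_
  rw [h1 t' ht.le, h1 t le_rfl]

theorem close_ev_N (hτ : Sec τ) (h : ∀ y i, ∀ᶠ z in F, σ z y i = τ y i) {y : Z → ℕ → ℕ}
    {x : ℕ → ℕ} (hy : ∀ i, ∀ᶠ z in F, y z i = x i) :
    ∀ n, ∀ᶠ z in F, closeN (σ z) (y z) n = closeN τ x n
  | 0 => Eventually.of_forall fun _ => rfl
  | n + 1 => by
    filter_upwards [close_ev_N hτ h hy n, hy n,
      dm0_ev_nth (P := fun z => closeRec (σ z) (closeN τ x n) n)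
        (closeRec_inf hτ (closeN τ x n) n) (close_ev_rec hτ h _ n) (x n)] with z h1 h2 h3
    rw [closeN, closeN, h1, h2, h3]

end ev

/-- One coordinate.  Follow `dm0N`, `dm0Th` with the good successors replaced by the records
`{t | ∀ t' < t, val t' < val t}`, `val t = σ (dm0tp N n t) (dm0len σ N n)`; `val` is injective, so
there are infinitely many records and the `j`-th record has value at least `j`. -/
theorem close0 : ∃ Th : ((ℕ → ℕ) → ℕ → ℕ) → (ℕ → ℕ) → ℕ → ℕ,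
    (∀ (Z : Type) (F : Filter Z) (σ : Z → (ℕ → ℕ) → ℕ → ℕ) (τ : (ℕ → ℕ) → ℕ → ℕ)
      (y : Z → ℕ → ℕ) (x : ℕ → ℕ), Sec τ → (∀ y i, ∀ᶠ z in F, σ z y i = τ y i) →
      (∀ i, ∀ᶠ z in F, y z i = x i) → ∀ i, ∀ᶠ z in F, Th (σ z) (y z) i = Th τ x i) ∧
    ∀ σ, Sec σ →
      (∀ n y y', Ag n y y' → Ag n (Th σ y) (Th σ y') ∧ (Th σ y n = Th σ y' n ↔ y n = y' n)) ∧
      ∀ y n, y n ≤ σ (Th σ y) (dm0len σ (Th σ y) n) := by
  refine ⟨closeTh, fun Z F σ τ y x hτ h hy i => ?_, fun σ hσ =>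
    ⟨fun n y y' h => ⟨?_, ?_⟩, fun y n => ?_⟩⟩
  · exact (close_ev_N hτ h hy (i + 1)).mono fun z hz => congrFun hz i
  · have h1 := closeN_ag σ y n
    rw [closeN_congr σ n h] at h1
    exact h1.symm.trans (closeN_ag σ y' n)
  · rw [closeTh_eq, closeTh_eq, closeN_congr σ n h]
    exact (Nat.nth_injective (closeRec_inf hσ _ n)).eq_iff
  · have h1 := closeRec_le hσ (closeN σ y n) n (y n)
    rw [← closeTh_eq] at h1
    have h2 := (dm0len_spec hσ (closeN σ y n) n _ _ (dm0tp_ag _ n (closeTh σ y n))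
      (closeN_ag σ y n).symm).2.2 (dm0tp_at _ _ _)
    rw [← dm0len_congr σ (closeN_ag σ y n), ← h2]
    exact h1

variable {I : Type} [LinearOrder I] [WellFoundedLT I]

open Classical in
theorem close_fix (a : Set I) {Q : Fr I} (hQ : IsMi Q)
    (Th : ((ℕ → ℕ) → ℕ → ℕ) → (ℕ → ℕ) → ℕ → ℕ) : ∃ T : Fr I, ∀ v γ,
      T v γ = if γ ∈ a then Th (Cond3_sig Q γ (T v)) (v γ) else v γ := by
  let T : Fr I := fun v => WellFounded.fix (C := fun _ => ℕ → ℕ) (wellFounded_lt (α := I))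
    fun γ ih => if γ ∈ a then
      Th (Cond3_sig Q γ fun γ' => if h : γ' < γ then ih γ' h else 0) (v γ) else v γ
  refine ⟨T, fun v γ => ?_⟩
  have e : T v γ = if γ ∈ a then
      Th (Cond3_sig Q γ fun γ' => if γ' < γ then T v γ' else 0) (v γ) else v γ :=
    WellFounded.fix_eq _ _ γ
  rw [e, Cond3_sig_agB hQ (v := T v) fun γ' h => if_pos h]

/-- Recursion on the coordinate: `T v γ = Th (Cond3_sig Q γ (T v below γ, 0 elsewhere)) (v γ)` for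
`γ ∈ a` and `v γ` otherwise.  The length of `T` at `(γ, u, n)` is `n`. -/
theorem exists_close {a : Set I} (ha : a.Countable) {Q : Fr I} (hQ : IsMi Q) (hs : Supp a Q) :
    ∃ T, IsMi T ∧ Supp a T ∧ Big (Q ∘ T) := by
  classical
  obtain ⟨Th, d1, d2⟩ := close0
  obtain ⟨T, hT⟩ := close_fix a hQ Th
  have hin : ∀ v {γ}, γ ∈ a → T v γ = Th (Cond3_sig Q γ (T v)) (v γ) := fun v γ h => by
    rw [hT, if_pos h]
  have hout : ∀ v {γ}, γ ∉ a → T v γ = v γ := fun v γ h => by rw [hT, if_neg h]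
  have proj : ∀ β u v, (∀ γ ≤ β, u γ = v γ) → T u β = T v β := by
    intro β u v
    induction β using WellFoundedLT.induction with
    | _ β ih =>
      intro h
      by_cases hβ : β ∈ a
      · rw [hin u hβ, hin v hβ, h β le_rfl, Cond3_sig_agB hQ (u := T u) (v := T v)
          fun γ hγ => ih γ hγ fun γ' h' => h γ' (h'.trans hγ.le)]
      · rw [hout u hβ, hout v hβ, h β le_rfl]
  have agb : ∀ {β u v}, AgB β u v → Cond3_sig Q β (T u) = Cond3_sig Q β (T v) :=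
    fun h => Cond3_sig_agB hQ fun γ hγ => proj γ _ _ fun γ' h' => h γ' (h'.trans_lt hγ)
  have supp : Supp a T := by
    refine ⟨fun u γ h => hout u h, fun u v h γ => ?_⟩
    induction γ using WellFoundedLT.induction with
    | _ γ ih =>
      intro hγ
      rw [hin u hγ, hin v hγ, h γ hγ,
        Cond3_sig_dep hQ hs γ (T u) (T v) fun γ' h' => ih γ' h'.2 h'.1]
  have len : ∀ {β u n v v'}, β ∈ a → AgB β v u → AgB β v' u → Ag n (v β) (v' β) →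
      Ag n (T v β) (T v' β) ∧ (T v β n = T v' β n ↔ v β n = v' β n) := by
    intro β u n v v' hβ h1 h2 h3
    rw [hin v hβ, hin v' hβ, agb h1, agb h2]
    exact (d2 _ (Cond3_sig_sec hQ β _)).1 n _ _ h3
  refine ⟨T, ⟨cont_pt.2 fun z0 γ => ?_, proj, ⟨a, ha, supp⟩, fun β u n => ⟨n, ?_⟩⟩, supp,
    fun β u n l hl => ?_⟩
  · induction γ using WellFoundedLT.induction with
    | _ γ ih =>
      by_cases hγ : γ ∈ a
      · simp only [hin _ hγ]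
        let e : Pt I → Pt I := fun z γ' => if γ' < γ then T z γ' else T z0 γ'
        have he : Tendsto e (𝓝 z0) (𝓝 (T z0)) := tendsto_pt.2 fun γ' j => by
          by_cases h1 : γ' < γ
          · filter_upwards [ih γ' h1 j] with z hz
            simp only [e, if_pos h1, hz]
          · exact Eventually.of_forall fun z => by simp only [e, if_neg h1]
        refine d1 _ _ (fun z => Cond3_sig Q γ (T z)) _ (fun z => z γ) _ (Cond3_sig_sec hQ γ _)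
          (fun y i => ?_) fun i => tendsto_pt.1 (tendsto_id (x := 𝓝 z0)) γ i
        filter_upwards [tendsto_seq.1 (((Cond3_sig_cont hQ γ y).tendsto _).comp he) i] with z hz
        rw [Cond3_sig_agB hQ (u := T z) (v := e z) fun γ' h' => (if_pos h').symm]
        exact hz
      · simp only [hout _ hγ]
        exact fun i => tendsto_pt.1 (tendsto_id (x := 𝓝 z0)) γ i
  · by_cases hβ : β ∈ a
    · exact fun v v' h1 h2 h3 h4 => len hβ h1 h2 (h3.trans h4.symm)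
    · exact isLen_id (fun v => hout v hβ) u n
  · by_cases hβ : β ∈ a
    · have hv : ∀ v, AgB β v u → (Q ∘ T) v β = Cond3_sig Q β (T u) (T v β) := fun v h => by
        rw [← agb h]
        show _ = Q (update (T v) β (T v β)) β
        rw [update_eq_self]
        rfl
      have h0 : IsLen (Q ∘ T) β u n (dm0len (Cond3_sig Q β (T u)) (T u β) n) := by
        intro v v' h1 h2 h3 h4
        rw [hv v h1, hv v' h2]
        have := dm0len_spec (Cond3_sig_sec hQ β (T u)) (T u β) n _ _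
          (len hβ h1 .rfl' h3).1 (len hβ h2 .rfl' h4).1
        exact ⟨this.1, this.2.trans (len hβ h1 h2 (h3.trans h4.symm)).2⟩
      rw [hl.unique h0, hv u .rfl']
      have := (d2 _ (Cond3_sig_sec hQ β (T u))).2 (u β) n
      rwa [← hin u hβ] at this
    · have hv : ∀ v, (Q ∘ T) v β = v β := fun v => (hs.1 _ β hβ).trans (hout v hβ)
      rw [hl.unique (isLen_id hv u n), hv]

theorem exists_gd {a : Set I} (ha : a.Countable) {Q : Fr I} (hQ : IsMi Q) (hs : Supp a Q) :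
    ∃ T, Gd a (Q ∘ T) :=
  let ⟨T, h1, h2, h3⟩ := exists_close ha hQ hs; ⟨T, hQ.comp h1, hs.comp h2, h3⟩

end Pool.Agent.B8N
end

-- merged part: Pool.Agent.Work.MP_b8a914_gt.N.Seal
section
/-! Generic frames and all their thinnings can be added to a system. -/

set_option linter.unusedSectionVars false

namespace Pool.Agent.B8N
open Filter Topology Function Set Pool.Agent.B8F

variable {I : Type} [LinearOrder I] [OrderTop I] [WellFoundedLT I]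

namespace Ctx
variable {H : Ctx I}

/-- thinnings of generic frames are generic (`fac β q' q` is continuous) -/
theorem Gn.thin {β : I} {q q' : Fr I} (h : H.Gn β q) (h1 : IsMi q') (h2 : Supp (H.a ∩ Iio β) q')
    (hl : Le β q' q) : H.Gn β q' := by
  refine ⟨h1, h2, fun D hD hn u => ?_⟩
  obtain ⟨r, a, b, c⟩ := h.gen D hD hn (fac β q' q u)
  refine ⟨r, a, b, ?_⟩
  filter_upwards [((fac_cont h1 h.mi hl).tendsto u).eventually c] with u' hu'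
  exact hu'.congr (fac_spec h.mi hl u')

/-- restrictions of generic frames are generic (field `op`, `mix`) -/
theorem Gn.res {β : I} (hβ : β ∈ H.a) {q : Fr I} (h : H.Gn ⊤ q) : H.Gn β (res β q) := by
  refine ⟨h.mi.res β, (h.mi.supp_res h.supp β).mono fun γ hγ => ⟨hγ.1.1, hγ.2⟩,
    fun D hD hn u => ?_⟩
  have hn' : H.Dn ⊤ {m | ∃ r ∈ D, r ∈ H.s ∧ Le β m r} := fun r hr => by
    obtain ⟨r', a, b, c⟩ := hn r hr
    obtain ⟨m, d, e⟩ := H.cls.mix β hβ r' b r hr c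
    exact ⟨m, ⟨r', a, b, e.le1⟩, d, e.le2⟩
  obtain ⟨m, ⟨r, a, b, c⟩, -, d⟩ := h.gen _ (H.op β hβ D hD) hn' u
  refine ⟨r, a, b, d.mono fun u' hu' => ?_⟩
  exact ((hu'.mono le_top).le c).congr (res_agB β q u').symm

theorem seal_low {a : Set I} {β : I} (hβ : ∀ γ ∈ a, β ≤ γ) {m : Fr I} (hm : Supp a m)
    (x : Pt I) : In β m x :=
  ⟨x, fun γ hγ => hm.1 x γ fun h => (hβ γ h).not_gt hγ⟩

/-- the identity is generic at the least level -/
theorem gn_id : ∃ β ∈ insert ⊤ H.a, H.Gn β id ∧ ∀ γ ∈ H.a, β ≤ γ := by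
  obtain ⟨β, h1, h2⟩ := (wellFounded_lt (α := I)).has_min (insert ⊤ H.a) ⟨⊤, mem_insert _ _⟩
  have h3 : ∀ γ ∈ H.a, β ≤ γ := fun γ hγ => not_lt.1 (h2 γ (mem_insert_of_mem _ hγ))
  refine ⟨β, h1, ⟨isMi_id, (gd_id _).supp, fun D _ hn u => ?_⟩, h3⟩
  obtain ⟨r, a, b, -⟩ := hn id H.cls.one
  exact ⟨r, a, b, Eventually.of_forall fun u' => seal_low h3 (H.cls.gd r b).supp u'⟩

theorem seal_inB {L : Pat I} (hL : Over H.a L) {x x' : Pt I} (h : InB L x) (e : AgB ⊤ x x') :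
    InB L x' := h.congr hL fun γ hγ => e γ (H.cls.top hγ)

theorem seal_sub : H.a ⊆ H.a ∩ Iio ⊤ := fun _ h => ⟨h, H.cls.top h⟩

/-- the sets that belong to patterns -/
def Bx (s : Set (Fr I)) (β : I) (m : Fr I) (L : Pat I) : Set (Fr I) :=
  {r | (∃ m' ∈ s, Le ⊤ m' m ∧ (∀ v, InB L (m' v)) ∧ Le β r m') ∨
    ∀ v w, AgB β (r v) (m w) → ¬ InB L (m w)}

/-- `Box.out`, `Cls.mix_all`, `Cls.box` -/
theorem dn_Bx (β : I) {m : Fr I} (hm : m ∈ H.s) {L : Pat I} (hL : Over H.a L) :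
    H.Dn β (Bx H.s β m L) := by
  intro r hr
  rcases H.cls.box.out hr (H.cls.gd m hm) β with h | ⟨r', a, b, c⟩
  · obtain ⟨t, ht, hx⟩ := H.cls.mix_all β hr hm h
    by_cases h1 : ∃ v, InB L (t v)
    · obtain ⟨m', a, b, c⟩ := H.cls.box t ht L hL h1
      exact ⟨m', Or.inl ⟨m', a, b.trans hx.le2, c, .rfl'⟩, a, (b.mono le_top).trans hx.le1⟩
    · refine ⟨r, Or.inr fun v w e hb => h1 ?_, hr, .rfl'⟩
      obtain ⟨w', hw'⟩ := (hx (m w)).2 ⟨⟨v, e⟩, .self⟩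
      exact ⟨w', seal_inB hL hb hw'.symm⟩
  · exact ⟨r', Or.inr fun v w e _ => c v ⟨w, e.symm⟩, a, b.mono le_top⟩

variable (H) in
def Alive (m : Fr I) : Prop :=
  Gd H.a m ∧ ∀ β ∈ insert ⊤ H.a, ∀ Q, H.Gn β Q → Le β Q m → ∀ v w, AgB β (Q v) (m w) →
    ∀ L, Over H.a L → InB L (m w) →
      ∃ Q', H.Gn ⊤ Q' ∧ Le β Q' Q ∧ Le ⊤ Q' m ∧ ∀ v', InB L (Q' v')

/-- meet `Bx` at `v`, take a box `Ψ` supported in `a ∩ Iio β` (`exists_box_in`, `dep_In`), apply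
`pp` to `Q ∘ Ψ` and the constant state `m'` -/
theorem alive_mem (hB : ∀ β ∈ insert ⊤ H.a, ∀ m ∈ H.s, ∀ L, Over H.a L → Bx H.s β m L ∈ H.DD)
    {m : Fr I} (hm : m ∈ H.s) : H.Alive m := by
  refine ⟨H.cls.gd m hm, fun β hβ Q hQ _ v w e L hL hb => ?_⟩
  obtain ⟨r, a, -, c⟩ := hQ.gen _ (hB β hβ m hm L hL) (dn_Bx β hm hL) v
  rcases a with ⟨m', a1, a2, a3, a4⟩ | a
  · obtain ⟨Ψ, h1, h2⟩ := exists_box_in (dep_In (H.cls.gd m' a1).supp hQ.supp)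
      (c.mono fun u hu => hu.le a4)
    have h3 : H.Gn β (Q ∘ Ψ) := hQ.thin (hQ.mi.comp h1.mi) (hQ.supp.comp h1.supp) (le_comp _ _)
    obtain ⟨q, b1, b2, b3⟩ := pp (mem_insert _ _) hβ le_top h3 (st := fun _ => m')
      ⟨IsLocallyConstant.const _, fun _ _ _ => rfl, fun _ => a1, h2⟩
    refine ⟨q, b1, fun u => ⟨Ψ u, (b2 u).symm⟩, fun u => (b3 u).le a2, fun u => ?_⟩
    obtain ⟨w', hw'⟩ := b3 u
    exact seal_inB hL (a3 w') hw'
  · obtain ⟨v', hv'⟩ := c.self_of_nhds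
    exact absurd hb (a v' w (hv'.trans e))

theorem seal_dep {m : Fr I} (hm : Supp H.a m) {L : Pat I} (hL : Over H.a L) :
    DepOn H.a fun u => InB L (m u) := fun u v e =>
  propext ⟨fun h => h.congr hL (hm.2 u v e),
    fun h => h.congr hL fun γ hγ => (hm.2 u v e γ hγ).symm⟩

/-- take a box of the glue `m ∘ fac β Q m` around the point (`v` below `β`, `w` from `β` on) -/
theorem alive_gn {m : Fr I} (h : H.Gn ⊤ m) (hb : Big m) : H.Alive m := by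
  classical
  have hs : Supp H.a m := h.supp.mono inter_subset_left
  refine ⟨⟨h.mi, hs, hb⟩, fun β _ Q hQ hl v w e L hL hi => ?_⟩
  have g1 := isMi_glue hQ.mi h.mi hl
  have g2 : Supp H.a (m ∘ fac β Q m) :=
    hs.comp (fac_supp h.mi hl (hQ.supp.mono inter_subset_left) hs)
  let u0 : Pt I := fun γ => if γ < β then v γ else w γ
  have e1 : fac β Q m u0 = w := by
    have e2 : AgB β u0 v := fun γ hγ => if_pos hγ
    have e3 := h.mi.inj ((fac_spec h.mi hl u0).trans ((hQ.mi.agB e2).trans e))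
    funext γ
    by_cases hγ : γ < β
    · exact e3 γ hγ
    · exact (fac_ge Q m u0 (not_lt.1 hγ)).trans (if_neg hγ)
  have e4 : InB L ((m ∘ fac β Q m) u0) := by rw [comp, e1]; exact hi
  obtain ⟨Ψ, h1, h2⟩ := exists_box_in (seal_dep g2 hL)
    ((g1.cont.tendsto u0).eventually (ev_InB e4))
  have e5 : Le ⊤ ((m ∘ fac β Q m) ∘ Ψ) m := fun _ => .self
  exact ⟨_, h.thin (g1.comp h1.mi) ((g2.comp h1.supp).mono seal_sub) e5,
    (le_comp _ _).trans (glue_le h.mi hl), e5, h2⟩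

/-- The glue.  For `β0 ≤ β` use `m2`.  For `β < β0` use `m1` with a pattern below `β0` that forces
the projection of `L` (`proj_open`, `proj_dep`, `nhds_InB`), restrict to `β0` (`Gn.res`), use
`m2`. -/
theorem alive_mix : Mix H.a {m | H.Alive m} := by
  rintro β0 h0 m1 ⟨g1, a1⟩ m2 ⟨g2, a2⟩ h12
  have hx := isMix_glue g1.mi g2.mi h12
  refine ⟨_, ⟨g1.glue g2 h12, fun β hβ Q hQ hl v w e L hL hi => ?_⟩, hx⟩
  rcases le_or_gt β0 β with hb | hb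
  · obtain ⟨Q', b1, b2, b3, b4⟩ := a2 β hβ Q hQ (hl.trans (hx.le2.mono le_top)) v _ e L hL hi
    exact ⟨Q', b1, b2, fun u => (hx _).2 ⟨(((b2.trans hl).mono hb).trans hx.le1) u, b3 u⟩, b4⟩
  · obtain ⟨L', c1, c2, c3⟩ := nhds_InB (proj_dep g2.supp β0 (seal_dep g2.supp hL))
      (proj_open g2.mi β0 ((g2.mi.cont.tendsto (fac β0 m1 m2 w)).eventually (ev_InB hi)))
    have e1 := fac_spec g2.mi h12 w
    obtain ⟨Q1, d1, d2, d3, d4⟩ := a1 β hβ Q hQ (hl.trans (hx.le1.mono hb.le)) v w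
      (e.trans (e1.mono hb.le)) L' (fun t ht => (c1 t ht).1) (c2.congr c1 fun γ hγ => e1 γ hγ.2)
    have e2 : Le β0 (res β0 Q1) Q1 := fun u => ⟨u, (res_agB β0 Q1 u).symm⟩
    have e3 : Le β0 Q1 m1 := d3.mono le_top
    obtain ⟨w', f1, f2⟩ := c3 _ (d4 v) ((e3.trans h12) v)
    obtain ⟨Q', b1, b2, b3, b4⟩ := a2 β0 (mem_insert_of_mem _ h0) _ (d1.res h0)
      (e2.trans (e3.trans h12)) v w' ((res_agB β0 Q1 v).trans f1.symm) L hL f2
    exact ⟨Q', b1, ((b2.trans e2).mono hb.le).trans d2,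
      fun u => (hx _).2 ⟨((b2.trans e2).trans e3) u, b3 u⟩, b4⟩

theorem seal_box {m : Fr I} (hm : H.Alive m) {L : Pat I} (hL : Over H.a L) {w : Pt I}
    (hi : InB L (m w)) : ∃ Q, H.Gn ⊤ Q ∧ Gd H.a Q ∧ Le ⊤ Q m ∧ ∀ v, InB L (Q v) := by
  obtain ⟨β, h1, h2, h3⟩ := gn_id (H := H)
  obtain ⟨Q, b1, -, b3, b4⟩ := hm.2 β h1 id h2 (seal_low h3 hm.1.supp) (m w) w .rfl' L hL hi
  obtain ⟨T, hT⟩ := exists_gd H.cls.ac b1.mi (b1.supp.mono inter_subset_left)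
  exact ⟨_, b1.thin hT.mi (hT.supp.mono seal_sub) (le_comp _ _), hT, (le_comp _ _).trans b3,
    fun v => b4 _⟩

theorem seal_gen {m : Fr I} (hm : H.Alive m) : ∃ Q, H.Gn ⊤ Q ∧ Gd H.a Q ∧ Le ⊤ Q m :=
  let ⟨Q, a, b, c, _⟩ := seal_box hm (L := ∅) (fun _ h => absurd h (Finset.notMem_empty _))
    (w := fun _ _ => 0) fun _ h => absurd h (Finset.notMem_empty _)
  ⟨Q, a, b, c⟩

theorem seal_thin {Q t : Fr I} (hQ : H.Gn ⊤ Q) (ht : Gd H.a t) (hl : Le ⊤ t Q) : H.Alive t :=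
  alive_gn (hQ.thin ht.mi (ht.supp.mono seal_sub) hl) ht.big

/-- `gn_id`, `exists_gd`, `Gn.thin`, `alive_gn` -/
theorem alive_box : Box H.a {m | H.Alive m} := by
  rintro m hm L hL ⟨w, hi⟩
  obtain ⟨Q, a, b, c, d⟩ := seal_box hm hL hi
  exact ⟨Q, alive_gn a b.big, c, d⟩

theorem alive_prom (hP : ∀ φ ∈ H.Φ, ∀ γ ∈ H.Γ, {m | Dcd γ φ m} ∈ H.DD) :
    Prom H.Φ H.Γ {m | H.Alive m} := by
  intro m hm φ hφ γ hγ
  obtain ⟨Q, a, b, c⟩ := seal_gen hm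
  have hn : H.Dn ⊤ {m | Dcd γ φ m} := fun r hr =>
    let ⟨r', d1, d2, d3⟩ := H.cls.prom r hr φ hφ γ hγ; ⟨r', d3, d1, d2⟩
  obtain ⟨r, d1, d2, d3⟩ := a.gen _ (hP φ hφ γ hγ) hn fun _ _ => 0
  obtain ⟨Ψ, h1, h2⟩ := exists_box_in (dep_In (H.cls.gd r d2).supp a.supp) d3
  exact ⟨Q ∘ Ψ, seal_thin a (b.comp (h1.mono inter_subset_left)) (le_comp _ _),
    (le_comp _ _).trans c, Dcd.mono H.cls.top (H.cls.prm γ hγ) (H.cls.sub hφ) d1 h2⟩

end Ctx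

/-- Take a context that holds the sets `Bx`, the sets `{m | Dcd γ φ m}` and the sets
`D n ∪ {r | ∀ v, ¬ In ⊤ p (r v)}`; `p` is alive; `Cls.hull` for the alive frames. -/
theorem exists_seal (σ : Sys I) {p : Fr I} (hp : p ∈ σ.s) (D : ℕ → Set (Fr I))
    (hD : ∀ n, ∀ r ∈ σ.s, Le ⊤ r p → ∃ r' ∈ D n, r' ∈ σ.s ∧ Le ⊤ r' r) :
    ∃ Q, Gd σ.a Q ∧ Le ⊤ Q p ∧
      (∀ n u, ∃ r ∈ D n, r ∈ σ.s ∧ ∀ᶠ u' in 𝓝 u, In ⊤ r (Q u')) ∧
      ∀ T : Set (Fr I), T.Countable → (∀ t ∈ T, Gd σ.a t ∧ Le ⊤ t Q) →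
        ∃ τ : Sys I, SLe τ σ ∧ τ.a = σ.a ∧ τ.Φ = σ.Φ ∧ τ.Γ = σ.Γ ∧ T ⊆ τ.s := by
  have c1 : ((fun z : I × Fr I × Pat I => Ctx.Bx σ.s z.1 z.2.1 z.2.2) ''
      (insert ⊤ σ.a ×ˢ σ.s ×ˢ {L | Over σ.a L})).Countable :=
    ((σ.cls.ac.insert ⊤).prod (σ.sc.prod (countable_over σ.cls.ac))).image _
  have c2 : ((fun z : I × Prm I => {m : Fr I | Dcd z.2 z.1 m}) '' (σ.Φ ×ˢ σ.Γ)).Countable :=
    ((σ.cls.ac.mono σ.cls.sub).prod σ.cls.Γc).image _
  have c3 := countable_range fun n => D n ∪ {r : Fr I | ∀ v, ¬ In ⊤ p (r v)}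
  obtain ⟨H, rfl, hH⟩ := exists_ctx σ ((c1.union c2).union c3)
  have hB : ∀ β ∈ insert ⊤ H.a, ∀ m ∈ H.s, ∀ L, Over H.a L → Ctx.Bx H.s β m L ∈ H.DD :=
    fun β h1 m h2 L h3 => hH (Or.inl (Or.inl ⟨(β, m, L), ⟨h1, h2, h3⟩, rfl⟩))
  have hP : ∀ φ ∈ H.Φ, ∀ γ ∈ H.Γ, {m | Dcd γ φ m} ∈ H.DD :=
    fun φ h1 γ h2 => hH (Or.inl (Or.inr ⟨(φ, γ), ⟨h1, h2⟩, rfl⟩))
  obtain ⟨Q, a, b, c⟩ := Ctx.seal_gen (Ctx.alive_mem hB hp)
  refine ⟨Q, b, c, fun n u => ?_, fun T hT h => ?_⟩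
  · have hn : H.Dn ⊤ (D n ∪ {r : Fr I | ∀ v, ¬ In ⊤ p (r v)}) := fun r hr => by
      rcases H.cls.box.out hr (H.cls.gd p hp) ⊤ with e | ⟨r', e1, e2, e3⟩
      · obtain ⟨r', e1, e2, e3⟩ := hD n r hr e
        exact ⟨r', Or.inl e1, e2, e3⟩
      · exact ⟨r', Or.inr e3, e1, e2⟩
    obtain ⟨r, d1, d2, d3⟩ := a.gen _ (hH (Or.inr ⟨n, rfl⟩)) hn u
    rcases d1 with d1 | d1
    · exact ⟨r, d1, d2, d3⟩
    · obtain ⟨w, hw⟩ := d3.self_of_nhds
      exact absurd ((c u).congr hw.symm) (d1 w)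
  · have hc : Cls H.a H.Φ H.Γ {m | H.Alive m} :=
      ⟨H.cls.ac, H.cls.top, H.cls.sub, H.cls.Γc, H.cls.prm, fun _ hm => hm.1,
        Ctx.alive_mem hB H.cls.one, Ctx.alive_mix, Ctx.alive_box, Ctx.alive_prom hP⟩
    obtain ⟨τ, e1, e2, e3, e4, -⟩ := hc.hull (H.sc.union hT)
      (union_subset (fun _ hm => Ctx.alive_mem hB hm)
        fun t ht => Ctx.seal_thin a (h t ht).1 (h t ht).2)
    exact ⟨τ, ⟨e1.ge, e2.ge, e3.ge, subset_union_left.trans e4⟩, e1, e2, e3,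
      subset_union_right.trans e4⟩

end Pool.Agent.B8N
end

-- merged part: Pool.Agent.Work.MP_b8a914_gt.N.Grow
section
/-! New coordinates, new points and new promises. -/

set_option linter.unusedSectionVars false

namespace Pool.Agent.B8N
open Filter Topology Function Set Pool.Agent.B8F

variable {I : Type} [LinearOrder I] [OrderTop I] [WellFoundedLT I]

/-- put the word of length `nn γ` of `u γ` in front, at each coordinate -/
def prf (nn : I → ℕ) (u : Pt I) : Fr I := fun v γ i => if i < nn γ then u γ i else v γ (i - nn γ)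

theorem Grow_len (nn : I → ℕ) (u : Pt I) (β : I) (v : Pt I) (k : ℕ) :
    IsLen (prf nn u) β v k (k + nn β) := by
  refine fun a b _ _ h1 h2 => ⟨fun i hi => ?_, ?_⟩
  · simp only [prf]
    split_ifs
    · rfl
    · exact (h1 _ (by omega)).trans (h2 _ (by omega)).symm
  · simp only [prf, if_neg (show ¬ k + nn β < nn β by omega), Nat.add_sub_cancel]

theorem gd_prf {nn : I → ℕ} (h : {γ | nn γ ≠ 0}.Finite) (u : Pt I) :
    Gd {γ | nn γ ≠ 0} (prf nn u) := by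
  have hs : Supp {γ | nn γ ≠ 0} (prf nn u) := by
    refine ⟨fun v γ hγ => funext fun i => ?_, fun v v' e γ hγ => funext fun i => ?_⟩
    · have e : nn γ = 0 := not_not.1 hγ
      simp only [prf, e, Nat.not_lt_zero, if_false, Nat.sub_zero]
    · simp only [prf, e γ hγ]
  refine ⟨⟨?_, fun β v v' e => funext fun i => ?_, ⟨_, h.countable, hs⟩,
    fun β v k => ⟨_, Grow_len nn u β v k⟩⟩, hs, fun β v n l hl => ?_⟩
  · refine continuous_pi fun γ => continuous_pi fun i => ?_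
    unfold prf
    split_ifs <;> fun_prop
  · simp only [prf, e β le_rfl]
  · rw [hl.unique (Grow_len nn u β v n)]
    simp only [prf, if_neg (show ¬ n + nn β < nn β by omega), Nat.add_sub_cancel, le_refl]

/-- old ranges cut by a box on the new coordinates -/
def GrowC (σ : Sys I) (b : Set I) : Set (Fr I) :=
  {t | Gd (σ.a ∪ b) t ∧ ∃ m ∈ σ.s, ∃ (nn : I → ℕ) (u : Pt I), {γ | nn γ ≠ 0}.Finite ∧
    {γ | nn γ ≠ 0} ⊆ b \ σ.a ∧ ∀ x, In ⊤ t x ↔ In ⊤ m x ∧ ∀ γ, Ag (nn γ) (x γ) (u γ)}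

/-- the range of `t` is the range of `m` cut by a box -/
def Grow_Rep (t m : Fr I) (nn : I → ℕ) (u : Pt I) : Prop :=
  ∀ x, In ⊤ t x ↔ In ⊤ m x ∧ ∀ γ, Ag (nn γ) (x γ) (u γ)

theorem Grow_ag {nn : I → ℕ} {x u : Pt I} (h : ∀ γ, nn γ ≠ 0 → Ag (nn γ) (x γ) (u γ)) (γ : I) :
    Ag (nn γ) (x γ) (u γ) := fun i hi => h γ (by omega) i hi

theorem Grow_rep {a b : Set I} (ht : b ⊆ Iio ⊤) {m : Fr I} (hm : Supp a m) {nn : I → ℕ}
    (hn : {γ | nn γ ≠ 0} ⊆ b \ a) (u : Pt I) : Grow_Rep (m ∘ prf nn u) m nn u := by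
  refine fun x => ⟨fun ⟨w, hw⟩ => ⟨⟨_, hw⟩, Grow_ag fun γ hγ i hi => ?_⟩, fun ⟨⟨w, hw⟩, h⟩ => ?_⟩
  · rw [← hw γ (ht (hn hγ).1), comp, hm.1 _ _ (hn hγ).2]
    exact if_pos hi
  · have e : prf nn u (fun γ i => w γ (i + nn γ)) = w := by
      funext γ i
      unfold prf
      split_ifs with hi
      · have hγ : nn γ ≠ 0 := by omega
        rw [← h γ i hi, ← hw γ (ht (hn hγ).1), hm.1 _ _ (hn hγ).2]
      · exact congrArg (w γ) (Nat.sub_add_cancel (not_lt.1 hi))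
    exact ⟨fun γ i => w γ (i + nn γ), by rwa [comp, e]⟩

theorem Grow_mem (σ : Sys I) {b : Set I} (ht : b ⊆ Iio ⊤) {m : Fr I} (hm : m ∈ σ.s) {nn : I → ℕ}
    (hf : {γ | nn γ ≠ 0}.Finite) (hn : {γ | nn γ ≠ 0} ⊆ b \ σ.a) (u : Pt I) :
    m ∘ prf nn u ∈ GrowC σ b :=
  ⟨((σ.cls.gd m hm).mono subset_union_left).comp
    ((gd_prf hf u).mono fun _ h => Or.inr (hn h).1), m, hm, nn, u, hf, hn,
    Grow_rep ht (σ.cls.gd m hm).supp hn u⟩

theorem Grow_lev {a : Set I} {t m : Fr I} {nn : I → ℕ} {u : Pt I} (hm : Supp a m)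
    (hn : ∀ γ, nn γ ≠ 0 → γ ∉ a) (h : Grow_Rep t m nn u) (β : I) (x : Pt I) :
    In β t x ↔ In β m x ∧ ∀ γ < β, Ag (nn γ) (x γ) (u γ) := by
  constructor
  · rintro ⟨w, hw⟩
    obtain ⟨h1, h2⟩ := (h (t w)).1 .self
    exact ⟨(h1.mono le_top).congr hw, fun γ hγ => hw γ hγ ▸ h2 γ⟩
  · rintro ⟨⟨w, hw⟩, h2⟩
    have h3 : In ⊤ t fun γ => if nn γ ≠ 0 ∧ β ≤ γ then u γ else m w γ := by
      refine (h _).2 ⟨In.dep hm .self fun γ hγ _ => (if_neg fun k => hn γ k.1 hγ).symm,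
        Grow_ag fun γ hγ => ?_⟩
      by_cases e : β ≤ γ
      · rw [if_pos ⟨hγ, e⟩]
        exact .rfl'
      · rw [if_neg fun k => e k.2, hw γ (not_le.1 e)]
        exact h2 γ (not_le.1 e)
    exact (h3.mono le_top).congr fun γ hγ => (if_neg fun k => k.2.not_gt hγ).trans (hw γ hγ)

theorem Grow_upd {a : Set I} {t m : Fr I} {nn : I → ℕ} {u : Pt I} (hm : Supp a m)
    (h : Grow_Rep t m nn u) {x x' : Pt I} (hx : In ⊤ t x) (hx' : In ⊤ t x') {δ : I}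
    (hδ : δ ∉ a) : In ⊤ t (update x δ (x' δ)) := by
  refine (h _).2 ⟨In.dep hm ((h x).1 hx).1 fun γ hγ _ =>
    (update_of_ne (fun e : γ = δ => hδ (e ▸ hγ)) _ _).symm, fun γ => ?_⟩
  by_cases e : γ = δ
  · rw [e, update_self]
    exact ((h x').1 hx').2 δ
  · rw [update_of_ne e]
    exact ((h x).1 hx).2 γ

theorem Grow_mix (σ : Sys I) {b : Set I} (ht : b ⊆ Iio ⊤) : Mix (σ.a ∪ b) (GrowC σ b) := by
  rintro β - t1 ⟨-, m1, hm1, n1, u1, f1, s1, r1⟩ t2 ⟨-, m2, hm2, n2, u2, f2, s2, r2⟩ hl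
  have p1 := (σ.cls.gd m1 hm1).supp
  have p2 := (σ.cls.gd m2 hm2).supp
  have l1 := Grow_lev p1 (fun γ k => (s1 k).2) r1 β
  have l2 := Grow_lev p2 (fun γ k => (s2 k).2) r2 β
  have hl' : Le β m1 m2 := fun v => by
    have e : ∀ γ ∈ σ.a, m1 v γ = if n1 γ ≠ 0 then u1 γ else m1 v γ :=
      fun γ hγ => (if_neg fun k => (s1 k).2 hγ).symm
    have h3 : In β t1 fun γ => if n1 γ ≠ 0 then u1 γ else m1 v γ :=
      (l1 _).2 ⟨In.dep p1 .self fun γ hγ _ => e γ hγ, fun γ _ i hi => by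
        rw [if_pos (by omega)]⟩
    exact In.dep p2 ((l2 _).1 (h3.le hl)).1 fun γ hγ _ => (e γ hγ).symm
  obtain ⟨m, hm, mx⟩ := σ.cls.mix_all β hm1 hm2 hl'
  have z1 := ((l1 (t1 u1)).1 .self).2
  have z2 := ((l2 (t1 u1)).1 (hl u1)).2
  generalize t1 u1 = z at z1 z2
  have sb : {γ | (if γ < β then max (n1 γ) (n2 γ) else n2 γ) ≠ 0} ⊆
      {γ | n1 γ ≠ 0} ∪ {γ | n2 γ ≠ 0} := fun γ k => by
    simp only [mem_ofPred_eq, mem_union] at k ⊢
    split_ifs at k <;> omega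
  have sn := sb.trans (union_subset s1 s2)
  refine ⟨_, Grow_mem σ ht hm ((f1.union f2).subset sb) sn
    fun γ => if γ < β then z γ else u2 γ, fun x => ?_⟩
  rw [Grow_rep ht (σ.cls.gd m hm).supp sn, mx, l1, r2]
  constructor
  · rintro ⟨⟨a1, a2⟩, a3⟩
    refine ⟨⟨a1, fun γ hγ => ?_⟩, a2, fun γ => ?_⟩
    · have := a3 γ
      simp only [if_pos hγ] at this
      exact (this.mono (le_max_left _ _)).trans (z1 γ hγ)
    · have := a3 γ
      by_cases hγ : γ < β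
      · simp only [if_pos hγ] at this
        exact (this.mono (le_max_right _ _)).trans (z2 γ hγ)
      · simpa only [if_neg hγ] using this
  · rintro ⟨⟨a1, a2⟩, a3, a4⟩
    refine ⟨⟨a1, a3⟩, fun γ => ?_⟩
    by_cases hγ : γ < β
    · simp only [if_pos hγ]
      intro i hi
      rcases lt_max_iff.1 hi with k | k
      · exact (a2 γ hγ i k).trans (z1 γ hγ i k).symm
      · exact (a4 γ i k).trans (z2 γ hγ i k).symm
    · simpa only [if_neg hγ] using a4 γ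

theorem Grow_box (σ : Sys I) {b : Set I} (ht : b ⊆ Iio ⊤) : Box (σ.a ∪ b) (GrowC σ b) := by
  classical
  rintro t ⟨-, m, hm, nn, u, f, s, r⟩ L hL ⟨v, hv⟩
  obtain ⟨⟨w, hw⟩, z2⟩ := (r (t v)).1 .self
  generalize t v = z at hv hw z2
  obtain ⟨m', hm', l, hb⟩ := σ.cls.box m hm (L.filter fun p => p.1 ∈ σ.a)
    (fun p hp => (Finset.mem_filter.1 hp).2) ⟨w, fun p hp => by
      obtain ⟨h1, h2⟩ := Finset.mem_filter.1 hp
      rw [hw _ (σ.cls.top h2)]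
      exact hv p h1⟩
  obtain ⟨nn', n1, n2, n3⟩ : ∃ nn' : I → ℕ, (∀ γ, nn γ ≤ nn' γ) ∧
      (∀ p ∈ L, p.1 ∉ σ.a → p.2.1 < nn' p.1) ∧
      ∀ γ, nn' γ ≠ 0 → nn γ ≠ 0 ∨ (γ ∈ L.image Prod.fst ∧ γ ∉ σ.a) := by
    refine ⟨fun γ => if γ ∈ L.image Prod.fst ∧ γ ∉ σ.a then
      max (nn γ) (L.sup fun p => p.2.1 + 1) else nn γ, fun γ => ?_, fun p hp k => ?_,
      fun γ k => ?_⟩
    · dsimp only
      split_ifs
      · exact le_max_left _ _
      · exact le_rfl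
    · dsimp only
      rw [if_pos ⟨Finset.mem_image_of_mem _ hp, k⟩]
      exact lt_max_of_lt_right (Finset.le_sup (f := fun p : I × ℕ × ℕ => p.2.1 + 1) hp)
    · dsimp only at k
      split_ifs at k with e
      · exact Or.inr e
      · exact Or.inl k
  have f' : {γ | nn' γ ≠ 0}.Finite := (f.union (L.image Prod.fst).finite_toSet).subset
    fun γ k => (n3 γ k).imp id And.left
  have s' : {γ | nn' γ ≠ 0} ⊆ b \ σ.a := fun γ k => (n3 γ k).elim (fun e => s e) fun e => by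
    obtain ⟨p, hp, rfl⟩ := Finset.mem_image.1 e.1
    exact ⟨(hL p hp).resolve_left e.2, e.2⟩
  have r' := Grow_rep ht (σ.cls.gd m' hm').supp s' z
  refine ⟨_, Grow_mem σ ht hm' f' s' z, fun v' => ?_, fun v' p hp => ?_⟩
  · obtain ⟨a1, a2⟩ := (r' _).1 (In.self (w := v'))
    exact (r _).2 ⟨a1.le l, fun γ => ((a2 γ).mono (n1 γ)).trans (z2 γ)⟩
  · by_cases e : p.1 ∈ σ.a
    · exact hb _ p (Finset.mem_filter.2 ⟨hp, e⟩)
    · exact (((r' _).1 (In.self (w := v'))).2 p.1 _ (n2 p hp e)).trans (hv p hp)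

/-- Witnesses are `m ∘ prf nn u`.  First show, for a member `t` given by `(m, nn, u)`,
`In β t x ↔ In β m x ∧ ∀ γ < β, Ag (nn γ) (x γ) (u γ)`.  Promises: old point and old promise come
from `σ`; a new point or a new promise coordinate is handled by `prom_of_indep` (update the point
at the new coordinate). -/
theorem growC_cls (σ : Sys I) {b Φ1 : Set I} {Γ1 : Set (Prm I)} (hb : b.Countable)
    (ht : b ⊆ Iio ⊤) (h1 : Φ1 ⊆ b \ σ.a) (h2 : Γ1.Countable)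
    (h3 : ∀ γ ∈ Γ1, PrmOK (σ.a ∪ b) γ ∧ γ.1 ∉ σ.a ∧ γ.1 ∉ Φ1) :
    Cls (σ.a ∪ b) (σ.Φ ∪ Φ1) (σ.Γ ∪ Γ1) (GrowC σ b) ∧ σ.s ⊆ GrowC σ b := by
  have sub : σ.s ⊆ GrowC σ b := fun m hm =>
    ⟨(σ.cls.gd m hm).mono subset_union_left, m, hm, fun _ => 0, fun _ _ => 0, by simp, by simp,
      fun x => ⟨fun h => ⟨h, fun _ _ hi => absurd hi (Nat.not_lt_zero _)⟩, And.left⟩⟩
  have top : σ.a ∪ b ⊆ Iio ⊤ := union_subset σ.cls.top ht
  have pts : σ.Φ ∪ Φ1 ⊆ σ.a ∪ b := union_subset_union σ.cls.sub fun _ h => (h1 h).1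
  have prm : ∀ γ ∈ σ.Γ ∪ Γ1, PrmOK (σ.a ∪ b) γ := fun γ hγ =>
    hγ.elim (fun h => (σ.cls.prm γ h).mono subset_union_left) fun h => (h3 γ h).1
  refine ⟨⟨σ.cls.ac.union hb, top, pts, σ.cls.Γc.union h2, prm, fun _ h => h.1, sub σ.cls.one,
    Grow_mix σ ht, Grow_box σ ht, fun t hT φ hφ γ hγ => ?_⟩, sub⟩
  have key := prom_of_indep top (Grow_box σ ht) hT hT.1 (prm γ hγ) (pts hφ)
  obtain ⟨-, m, hm, nn, u, f, s, r⟩ := hT
  have p := (σ.cls.gd m hm).supp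
  rcases hφ with hφ | hφ
  · rcases hγ with hγ | hγ
    · obtain ⟨m', hm', l, d⟩ := σ.cls.prom m hm φ hφ γ hγ
      refine ⟨_, Grow_mem σ ht hm' f s u, fun v => ?_,
        d.imp (fun h v => h _) fun ⟨k, h⟩ => ⟨k, fun v => h _⟩⟩
      obtain ⟨a1, a2⟩ := (Grow_rep ht (σ.cls.gd m' hm').supp s u _).1 (In.self (w := v))
      exact (r _).2 ⟨a1.le l, a2⟩
    · have e := (h3 γ hγ).2.1
      exact key fun x x' hx hx' _ => ⟨_, Grow_upd p r hx hx' e, agB_update _ _, update_self _ _ _,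
        update_of_ne (fun k : φ = γ.1 => e (k ▸ σ.cls.sub hφ)) _ _⟩
  · have e := (h1 hφ).2
    have ne : γ.1 ≠ φ := fun k => hγ.elim (fun h => e (k ▸ (σ.cls.prm γ h).1))
      fun h => (h3 γ h).2.2 (k ▸ hφ)
    refine key fun x x' hx hx' ag => ⟨_, Grow_upd p r hx' hx e, fun δ hδ => ?_,
      update_of_ne ne _ _, update_self _ _ _⟩
    by_cases k : δ = φ
    · rw [k, update_self]
    · rw [update_of_ne k, ag δ hδ]

theorem grow (σ : Sys I) {b Φ1 : Set I} {Γ1 : Set (Prm I)} (hb : b.Countable)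
    (ht : b ⊆ Iio ⊤) (h1 : Φ1 ⊆ b \ σ.a) (h2 : Γ1.Countable)
    (h3 : ∀ γ ∈ Γ1, PrmOK (σ.a ∪ b) γ ∧ γ.1 ∉ σ.a ∧ γ.1 ∉ Φ1) :
    ∃ τ : Sys I, SLe τ σ ∧ τ.a = σ.a ∪ b ∧ τ.Φ = σ.Φ ∪ Φ1 ∧ τ.Γ = σ.Γ ∪ Γ1 := by
  obtain ⟨h4, h5⟩ := growC_cls σ hb ht h1 h2 h3
  obtain ⟨τ, a1, a2, a3, a4, -⟩ := h4.hull σ.sc h5
  exact ⟨τ, ⟨a1 ▸ subset_union_left, a2 ▸ subset_union_left, a3 ▸ subset_union_left, a4⟩,
    a1, a2, a3⟩

end Pool.Agent.B8N
end

-- merged part: Pool.Agent.Work.MP_b8a914_gt.N.Cond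
section
/-! The poset, codes for functions, elementary density arguments. -/

set_option linter.unusedSectionVars false

namespace Pool.Agent.B8N
open Filter Topology Function Set Pool.Agent.B8F

structure CN (I : Type) [LinearOrder I] [OrderTop I] extends Sys I where
  A : Set ℕ
  inf : A.Infinite
  p : Fr I
  pm : p ∈ s

variable {I : Type} [LinearOrder I] [OrderTop I]

instance : Preorder (CN I) where
  le r' r := (r'.A \ r.A).Finite ∧ SLe r'.toSys r.toSys ∧ Le ⊤ r'.p r.p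
  le_refl r := ⟨by simp, .rfl', .rfl'⟩
  le_trans a b c h h' := ⟨(h.1.union h'.1).subset fun x hx => by
    by_cases hb : x ∈ b.A
    · exact Or.inr ⟨hb, hx.2⟩
    · exact Or.inl ⟨hx.1, hb⟩, h.2.1.trans h'.2.1, h.2.2.trans h'.2.2⟩

theorem CN.le_def {r' r : CN I} :
    r' ≤ r ↔ (r'.A \ r.A).Finite ∧ SLe r'.toSys r.toSys ∧ Le ⊤ r'.p r.p := Iff.rfl

theorem CN.le_of {r' r : CN I} (h1 : r'.A ⊆ r.A) (h2 : SLe r'.toSys r.toSys)
    (h3 : Le ⊤ r'.p r.p) : r' ≤ r := ⟨by rw [sdiff_eq_empty.2 h1]; exact finite_empty, h2, h3⟩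

theorem CN.gd (r : CN I) : Gd r.a r.p := r.cls.gd _ r.pm

/-- the trivial condition -/
def CN.one (I : Type) [LinearOrder I] [OrderTop I] : CN I :=
  ⟨Sys.one I, univ, infinite_univ, id, rfl⟩

theorem CN.le_one (r : CN I) : r ≤ CN.one I :=
  CN.le_of (subset_univ _) ⟨empty_subset _, empty_subset _, empty_subset _,
    singleton_subset_iff.2 r.cls.one⟩ (le_id _)

/-- another member of the system -/
def CN.at (r : CN I) (m : Fr I) (hm : m ∈ r.s) : CN I := ⟨r.toSys, r.A, r.inf, m, hm⟩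

theorem CN.at_le (r : CN I) {m : Fr I} (hm : m ∈ r.s) (h : Le ⊤ m r.p) : r.at m hm ≤ r :=
  CN.le_of Subset.rfl .rfl' h

/-- `r` decides the value of the code `c` at `k` to be `n` -/
def DecN (c : VC I) (k n : ℕ) (r : CN I) : Prop :=
  Le ⊤ r.p c.1 ∧ ∀ v w, AgB ⊤ (c.1 w) (r.p v) → c.2 w k = n

theorem DecN.mono {c : VC I} {k n : ℕ} {r r' : CN I} (h : DecN c k n r) (h' : r' ≤ r) :
    DecN c k n r' := ⟨h'.2.2.trans h.1, fun v w hw =>
  let ⟨v', hv'⟩ := h'.2.2 v; h.2 v' w (hw.trans hv'.symm)⟩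

variable [WellFoundedLT I]

theorem grow_supp (r : CN I) {b : Set I} (hb : b.Countable) (ht : b ⊆ Iio ⊤) :
    ∃ r', r' ≤ r ∧ r'.p = r.p ∧ r'.A = r.A ∧ r'.a = r.a ∪ b := by
  obtain ⟨τ, h1, h2, -⟩ := grow r.toSys (Φ1 := ∅) (Γ1 := ∅) hb ht (empty_subset _)
    countable_empty fun _ h => h.elim
  exact ⟨⟨τ, r.A, r.inf, r.p, h1.2.2.2 r.pm⟩, CN.le_of Subset.rfl h1 .rfl', rfl, rfl, h2⟩

/-- `grow_supp` for the support of `c`, then `Box.param` for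
`fun w => c.2 (fac ⊤ r.p c.1 w) k = n` (`fac_supp`, `fac_cont`) -/
theorem dec_dense {c : VC I} (hc : Nice ⊤ c) {r : CN I} (h : Le ⊤ r.p c.1) (k : ℕ) :
    ∃ r', r' ≤ r ∧ ∃ n, DecN c k n r' := by
  obtain ⟨s, h1, h2, h3, h4⟩ := hc.2.2
  obtain ⟨r1, a1, a2, -, a3⟩ := grow_supp r h1 h2
  rw [← a2] at h
  have hs : s ⊆ r1.a := a3 ▸ subset_union_right
  have h5 := fac_supp hc.1 h r1.gd.supp (h3.mono hs)
  have h6 : Continuous fun w => c.2 (fac ⊤ r1.p c.1 w) := hc.2.1.comp (fac_cont r1.gd.mi hc.1 h)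
  obtain ⟨m, b1, b2⟩ := r1.cls.box.param r1.pm r1.gd (v := fun _ _ => 0)
    (Q := fun w => c.2 (fac ⊤ r1.p c.1 w) k = c.2 (fac ⊤ r1.p c.1 fun _ _ => 0) k)
    (fun u v huv => congrArg (fun z : ℕ → ℕ => z k = _)
      (h4 _ _ fun γ hγ => h5.2 u v huv γ (hs hγ))) (cont_seq.1 h6 _ k)
  have b3 : Le ⊤ m r1.p := fun v => let ⟨w, hw, _⟩ := b2 v; ⟨w, hw⟩
  refine ⟨r1.at m b1, (r1.at_le b1 b3).trans a1, c.2 (fac ⊤ r1.p c.1 fun _ _ => 0) k,
    b3.trans h, fun v w hw => ?_⟩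
  obtain ⟨w', c1, c2⟩ := b2 v
  rw [hc.dep (hc.1.inj (hw.trans (((fac_spec hc.1 h w').trans c1).symm)))]
  exact c2

omit [WellFoundedLT I] in
/-- a directed family meets finitely many open requirements at once -/
theorem Cond_fin_dir {T : Type} (G : CN I → Prop) (PN : Set (CN I))
    (dir : ∀ p q, G p → G q → ∃ r ∈ PN, G r ∧ r ≤ p ∧ r ≤ q) (s : Finset T)
    (D : T → CN I → Prop) (hD : ∀ t a b, b ≤ a → D t a → D t b)
    (he : ∀ t, ∃ a, G a ∧ D t a) (r : CN I) (hr : G r) :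
    ∃ r' ∈ PN, G r' ∧ r' ≤ r ∧ ∀ t ∈ s, D t r' := by
  classical
  induction s using Finset.induction_on with
  | empty =>
    obtain ⟨a, h1, h2, h3, -⟩ := dir r r hr hr
    exact ⟨a, h1, h2, h3, fun t ht => absurd ht (Finset.notMem_empty t)⟩
  | insert t s _ ih =>
    obtain ⟨a, -, h2, h3, h4⟩ := ih
    obtain ⟨b, h5, h6⟩ := he t
    obtain ⟨d, h7, h8, h9, h10⟩ := dir a b h2 h5
    refine ⟨d, h7, h8, h9.trans h3, fun t' ht' => ?_⟩
    rcases Finset.mem_insert.1 ht' with rfl | h11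
    · exact hD _ _ _ h10 h6
    · exact hD _ _ _ h9 (h4 t' h11)

/-- the generic point (port of `B8F.exists_xG`) -/
theorem exists_xG (G : CN I → Prop) (PN : Set (CN I)) (Hc : Set I)
    (dir : ∀ p q, G p → G q → ∃ r ∈ PN, G r ∧ r ≤ p ∧ r ≤ q) (h1 : CN.one I ∈ PN)
    (h2 : G (CN.one I)) (hs : ∀ r ∈ PN, Supp Hc r.p)
    (hd : ∀ r ∈ PN, G r → ∀ γ ∈ Hc, γ < ⊤ → ∀ i, ∃ r', G r' ∧ ∃ n,
      DecN (r.p, fun w => w γ) i n r') :
    ∃ x, ∀ r, G r → In ⊤ r.p x := by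
  classical
  have key : ∀ r ∈ PN, G r → ∃ u : Pt I, ∀ γ i,
      ((γ ∈ Hc ∧ γ < ⊤) → ∃ r', G r' ∧ DecN (r.p, fun w => w γ) i (u γ i) r') ∧
      (¬ (γ ∈ Hc ∧ γ < ⊤) → u γ i = 0) := by
    intro r hr hG
    have h0 : ∀ γ i, ∃ n : ℕ,
        ((γ ∈ Hc ∧ γ < ⊤) → ∃ r', G r' ∧ DecN (r.p, fun w => w γ) i n r') ∧
        (¬ (γ ∈ Hc ∧ γ < ⊤) → n = 0) := by
      intro γ i
      by_cases hγ : γ ∈ Hc ∧ γ < ⊤
      · obtain ⟨r', a, n, b⟩ := hd r hr hG γ hγ.1 hγ.2 i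
        exact ⟨n, fun _ => ⟨r', a, b⟩, fun c => absurd hγ c⟩
      · exact ⟨0, fun c => absurd c hγ, fun _ => rfl⟩
    choose u hu using h0
    exact ⟨u, hu⟩
  obtain ⟨x, hx⟩ := key _ h1 h2
  have main : ∀ r ∈ PN, G r → In ⊤ r.p x := by
    intro r hr hG
    obtain ⟨u, hu⟩ := key r hr hG
    refine ⟨u, fun γ hγ => funext fun i => ?_⟩
    by_cases hH : γ ∈ Hc
    · obtain ⟨F, n, hF⟩ := nhds_fin (cont_pt.1 r.gd.mi.cont u γ i)
      obtain ⟨r1, hG1, hD1⟩ := (hx γ i).1 ⟨hH, hγ⟩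
      obtain ⟨r2, -, hG2, h21, h22⟩ := dir r r1 hG hG1
      obtain ⟨r', hr', hG', hle, hD⟩ := Cond_fin_dir G PN dir (F ×ˢ Finset.range n)
        (fun t r' => (t.1 ∈ Hc ∧ t.1 < ⊤) → DecN (r.p, fun w => w t.1) t.2 (u t.1 t.2) r')
        (fun t a b hab c d => (c d).mono hab)
        (fun t => by
          by_cases ht : t.1 ∈ Hc ∧ t.1 < ⊤
          · obtain ⟨a, b, c⟩ := (hu t.1 t.2).1 ht
            exact ⟨a, b, fun _ => c⟩
          · exact ⟨r, hG, fun c => absurd c ht⟩) r2 hG2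
      have hl : Le ⊤ r'.p r.p := (hle.trans h21).2.2
      have hw := fac_spec r.gd.mi hl (fun _ _ => 0)
      have h3 := hF (fac ⊤ r'.p r.p fun _ _ => 0) fun γ' h' i' hi => by
        by_cases ht : γ' ∈ Hc ∧ γ' < ⊤
        · exact (hD (γ', i') (Finset.mem_product.2 ⟨h', Finset.mem_range.2 hi⟩) ht).2 _ _ hw
        · rw [(hu γ' i').2 ht]
          by_cases h4 : γ' < ⊤
          · have h5 : γ' ∉ Hc := fun c => ht ⟨c, h4⟩
            rw [← (hs r hr).1 (fac ⊤ r'.p r.p fun _ _ => 0) γ' h5, hw γ' h4,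
              (hs r' hr').1 _ γ' h5]
          · rw [fac_ge _ _ _ (not_lt.1 h4)]
      rw [← h3, hw γ hγ]
      exact (hD1.mono (hle.trans h22)).2 (fun _ _ => 0) _ .rfl'
    · rw [(hs r hr).1 u γ hH, (hu γ i).2 fun c => hH c.1, (hx γ i).2 fun c => hH c.1]
  refine ⟨x, fun r hG => ?_⟩
  obtain ⟨r', a, b, c, -⟩ := dir r r hG hG
  exact (main r' a b).le c.2.2

theorem dcd_dense (r : CN I) {γ : Prm I} (hγ : γ ∈ r.Γ) {φ : I} (hφ : φ ∈ r.Φ) :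
    ∃ r', r' ≤ r ∧ Dcd γ φ r'.p :=
  let ⟨m, h1, h2, h3⟩ := r.cls.prom r.p r.pm φ hφ γ hγ; ⟨r.at m h1, r.at_le h1 h2, h3⟩

end Pool.Agent.B8N
end

-- merged part: Pool.Agent.Work.MP_b8a914_gt.N.PT
section
/-! Continuous reading of names and the reaping family. -/

set_option linter.unusedSectionVars false

namespace Pool.Agent.B8N
open Filter Topology Function Set Pool.Agent.B8F

variable {I : Type} [LinearOrder I] [OrderTop I] [WellFoundedLT I]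

/-- pseudo-intersections of almost decreasing chains -/
theorem PT_pseudo (A : ℕ → Set ℕ) (hi : ∀ n, (A n).Infinite)
    (h : ∀ n, (A (n + 1) \ A n).Finite) : ∃ B : Set ℕ, B.Infinite ∧ ∀ n, (B \ A n).Finite := by
  have h1 : ∀ n, (A n \ {x | ∀ i ≤ n, x ∈ A i}).Finite := fun n => by
    induction n with
    | zero => exact finite_empty.subset fun x hx => hx.2 fun i hi => Nat.le_zero.1 hi ▸ hx.1
    | succ n ih =>
      refine ((h n).union ih).subset fun x hx => ?_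
      by_cases hb : x ∈ A n
      · refine Or.inr ⟨hb, fun hc => hx.2 fun i hi => ?_⟩
        rcases Nat.le_succ_iff.1 hi with h2 | rfl
        · exact hc i h2
        · exact hx.1
      · exact Or.inl ⟨hx.1, hb⟩
  have h2 : ∀ n, ∃ b, (∀ i ≤ n, b ∈ A i) ∧ n < b := fun n => by
    obtain ⟨b, b1, b2⟩ := ((hi n).sdiff (h1 n)).exists_gt n
    exact ⟨b, by_contra fun hc => b1.2 ⟨b1.1, hc⟩, b2⟩
  choose b b1 b2 using h2
  refine ⟨range b, infinite_of_forall_exists_gt fun n => ⟨b n, ⟨n, rfl⟩, b2 n⟩, fun n => ?_⟩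
  refine ((finite_lt_nat n).image b).subset ?_
  rintro _ ⟨⟨j, rfl⟩, hj⟩
  exact ⟨j, not_le.1 fun hc => hj (b1 j n hc), rfl⟩

omit [WellFoundedLT I] in
/-- chains in the first two parts have lower bounds (`exists_union` and a pseudo-intersection) -/
theorem chain_bound (r : ℕ → CN I) (h : ∀ n, SLe (r (n + 1)).toSys (r n).toSys ∧
    ((r (n + 1)).A \ (r n).A).Finite) (hp : ∀ n, (r n).p = (r 0).p) :
    ∃ q : CN I, q.p = (r 0).p ∧ (∀ n, q ≤ r n) ∧ q.s = ⋃ n, (r n).s := by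
  obtain ⟨τ, h1, h2⟩ := exists_union (fun n => (r n).toSys) fun n => (h n).1
  obtain ⟨B, h3, h4⟩ := PT_pseudo (fun n => (r n).A) (fun n => (r n).inf) fun n => (h n).2
  exact ⟨⟨τ, B, h3, (r 0).p, (h1 0).2.2.2 (r 0).pm⟩, rfl,
    fun n => ⟨h4 n, h1 n, (hp n).symm ▸ Le.rfl'⟩, h2⟩

omit [WellFoundedLT I] in
/-- iteration of a step that keeps the frame -/
theorem PT_iter (r : CN I) (R : ℕ → CN I → CN I → Prop)
    (step : ∀ k t, t ≤ r → t.p = r.p → ∃ t', t' ≤ t ∧ t'.p = r.p ∧ R k t t') :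
    ∃ (c : ℕ → CN I) (q : CN I), (∀ k, c k ≤ r) ∧ (∀ k, R k (c k) (c (k + 1))) ∧ q.p = r.p ∧
      (∀ k, q ≤ c k) ∧ q.s = ⋃ k, (c k).s := by
  have h1 : ∀ k (t : {t : CN I // t ≤ r ∧ t.p = r.p}), ∃ t' : {t : CN I // t ≤ r ∧ t.p = r.p},
      t'.1 ≤ t.1 ∧ R k t.1 t'.1 := fun k t =>
    let ⟨t', a, b, c⟩ := step k t.1 t.2.1 t.2.2; ⟨⟨t', a.trans t.2.1, b⟩, a, c⟩
  choose g g1 g2 using h1
  let c : ℕ → {t : CN I // t ≤ r ∧ t.p = r.p} := fun k => Nat.rec ⟨r, le_rfl, rfl⟩ g k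
  obtain ⟨q, a, b, d⟩ := chain_bound (fun k => (c k).1)
    (fun k => ⟨(g1 k (c k)).2.1, (g1 k (c k)).1⟩) fun k => (c k).2.2
  exact ⟨fun k => (c k).1, q, fun k => (c k).2.1, fun k => g2 k (c k), a, b, d⟩

omit [WellFoundedLT I] in
/-- a condition with the same frame in whose system every member below the frame has extensions
that decide.  One round handles all pairs (member of the present system, `i`) along a chain;
iterate the rounds along a second chain. -/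
theorem sat (Q : ℕ → ℕ → CN I → Prop) (hm : ∀ i n r r', Q i n r → r' ≤ r → Q i n r')
    (r : CN I) (hd : ∀ i q, q ≤ r → ∃ q', q' ≤ q ∧ ∃ n, Q i n q') :
    ∃ r', r' ≤ r ∧ r'.p = r.p ∧ ∀ i, ∀ m ∈ r'.s, Le ⊤ m r.p →
      ∃ (m' : Fr I) (h : m' ∈ r'.s), Le ⊤ m' m ∧ ∃ n, Q i n (r'.at m' h) := by
  let Dn : CN I → ℕ × Fr I → Prop := fun t x =>
    ∃ (m' : Fr I) (h : m' ∈ t.s), Le ⊤ m' x.2 ∧ ∃ n, Q x.1 n (t.at m' h)
  have mono : ∀ t t' x, t' ≤ t → Dn t x → Dn t' x := fun t t' x hl ⟨m', h, a, n, b⟩ =>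
    ⟨m', hl.2.1.2.2.2 h, a, n, hm _ _ _ _ b ⟨hl.1, hl.2.1, .rfl'⟩⟩
  have round : ∀ t, t ≤ r → t.p = r.p → ∃ t', t' ≤ t ∧ t'.p = r.p ∧
      ∀ i, ∀ m ∈ t.s, Le ⊤ m r.p → Dn t' (i, m) := fun t ht hp => by
    obtain ⟨e, he⟩ := ((countable_univ (α := ℕ)).prod t.sc).exists_eq_range
      ⟨(0, t.p), trivial, t.pm⟩
    obtain ⟨c, q, a1, a2, a3, a4, -⟩ := PT_iter t (fun k _ u => Le ⊤ (e k).2 r.p → Dn u (e k))
      fun k u hu hq => by
        by_cases hl : Le ⊤ (e k).2 r.p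
        · have h1 : (e k).2 ∈ u.s := hu.2.1.2.2.2 (he.ge (mem_range_self k)).2
          have h2 := u.at_le h1 (by rwa [hq, hp])
          obtain ⟨q', b1, n, b2⟩ := hd (e k).1 _ ((h2.trans hu).trans ht)
          have h3 : u.p ∈ q'.s := b1.2.1.2.2.2 u.pm
          exact ⟨q'.at u.p h3, ⟨b1.1, b1.2.1, .rfl'⟩, hq, fun _ => ⟨q'.p, q'.pm, b1.2.2, n, b2⟩⟩
        · exact ⟨u, le_rfl, hq, fun h => absurd h hl⟩
    refine ⟨q, (a4 0).trans (a1 0), a3.trans hp, fun i m h1 h2 => ?_⟩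
    obtain ⟨k, hk⟩ := he.le (show (i, m) ∈ univ ×ˢ t.s from ⟨trivial, h1⟩)
    exact mono _ _ _ (a4 (k + 1)) (hk ▸ a2 k (by rwa [hk]))
  obtain ⟨c, q, a1, a2, a3, a4, a5⟩ := PT_iter r
    (fun _ t u => ∀ i, ∀ m ∈ t.s, Le ⊤ m r.p → Dn u (i, m)) fun _ => round
  refine ⟨q, (a4 0).trans (a1 0), a3, fun i m h1 h2 => ?_⟩
  obtain ⟨k, hk⟩ := mem_iUnion.1 (a5.le h1)
  exact mono _ _ _ (a4 (k + 1)) (a2 k i m hk h2)

/-- continuous reading: `sat`, `exists_seal` (add the frame `Q` itself), `lc_sel` with `dep_In`,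
and `Box.param` in the last clause; compare `B8F.PT` -/
theorem PT (Q : ℕ → ℕ → CN I → Prop) (hm : ∀ i n r r', Q i n r → r' ≤ r → Q i n r')
    (r : CN I) (hd : ∀ i q, q ≤ r → ∃ q', q' ≤ q ∧ ∃ n, Q i n q') :
    ∃ r', r' ≤ r ∧ ∃ f : Pt I → ℕ → ℕ, Continuous f ∧ DepOn r'.a f ∧
      ∀ i q, q ≤ r' → ∀ v w, AgB ⊤ (r'.p w) (q.p v) → ∃ q', q' ≤ q ∧ Q i (f w i) q' := by
  classical
  obtain ⟨r1, h1, h2, h3⟩ := sat Q hm r hd
  let D : ℕ → Set (Fr I) := fun i => {m | ∃ h : m ∈ r1.s, ∃ n, Q i n (r1.at m h)}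
  obtain ⟨Q0, a1, a2, a3, a4⟩ := exists_seal r1.toSys r1.pm D fun i m b1 b2 =>
    let ⟨m', c1, c2, c3⟩ := h3 i m b1 (h2 ▸ b2); ⟨m', ⟨c1, c3⟩, c1, c2⟩
  obtain ⟨τ, t1, t2, -, -, t3⟩ := a4 {Q0} (countable_singleton _)
    fun _ ht => by rw [ht]; exact ⟨a1, .rfl'⟩
  have hs : Supp (r1.a ∩ Iio ⊤) Q0 := (inter_eq_left.2 r1.cls.top).symm ▸ a1.supp
  have hsel := fun i => lc_sel r1.cls.ac (N := D i) (r1.sc.mono fun _ h => h.1)
    (P := fun u m => In ⊤ m (Q0 u))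
    (fun m h => (dep_In (r1.cls.gd m h.1).supp hs).mono inter_subset_left)
    fun u => let ⟨m, b1, _, b2⟩ := a3 i u; ⟨m, b1, b2⟩
  choose sel s1 s2 s3 using hsel
  have hex : ∀ i m, ∃ n, m ∈ D i → ∃ h : m ∈ r1.s, Q i n (r1.at m h) := fun i m => by
    by_cases h : m ∈ D i
    · obtain ⟨h, n, b⟩ := h
      exact ⟨n, fun _ => ⟨h, b⟩⟩
    · exact ⟨0, fun h' => absurd h' h⟩
  choose ν hν using hex
  let r' : CN I := ⟨τ, r1.A, r1.inf, Q0, t3 rfl⟩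
  have hr : r' ≤ r1 := CN.le_of Subset.rfl t1 a2
  refine ⟨r', hr.trans h1, fun w i => ν i (sel i w),
    continuous_pi fun i => ((s1 i).comp (ν i)).continuous,
    fun u v h => funext fun i => congrArg (ν i) (s2 i u v fun γ hγ => h γ (t1.1 hγ)),
    fun i q hq v w hw => ?_⟩
  have hl : Le ⊤ q.p Q0 := hq.2.2
  have ha : r1.a ⊆ q.a := (hq.trans hr).2.1.1
  have b1 := fac_supp a1.mi hl q.gd.supp (a1.supp.mono ha)
  have b2 : sel i (fac ⊤ q.p Q0 v) = sel i w := s2 i _ _ fun γ hγ =>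
    a1.mi.inj ((fac_spec a1.mi hl v).trans hw.symm) γ (r1.cls.top hγ)
  obtain ⟨m, b3, b4⟩ := q.cls.box.param q.pm q.gd (v := v)
    (Q := fun w' => sel i (fac ⊤ q.p Q0 w') = sel i w)
    (fun u u' h => congrArg (· = sel i w) (s2 i _ _ fun γ hγ => b1.2 u u' h γ (ha hγ)))
    (b2 ▸ ((s1 i).comp_continuous (fac_cont q.gd.mi a1.mi hl)).eventually_eq v)
  obtain ⟨c1, c2⟩ := hν i _ (s3 i w).1
  refine ⟨q.at m b3, q.at_le b3 fun v' => let ⟨w', h, _⟩ := b4 v'; ⟨w', h⟩,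
    hm _ _ _ _ c2 ⟨(hq.trans hr).1, (hq.trans hr).2.1, fun v' => ?_⟩⟩
  obtain ⟨w', d1, d2⟩ := b4 v'
  have d3 := (s3 i (fac ⊤ q.p Q0 w')).2
  rw [d2] at d3
  exact d3.congr ((fac_spec a1.mi hl w').trans d1)

omit [WellFoundedLT I] in
theorem nice_of_dep (r : CN I) {f : Pt I → ℕ → ℕ} (h1 : Continuous f) (h2 : DepOn r.a f) :
    Nice ⊤ ((r.p, f) : VC I) := ⟨r.gd.mi, h1, r.a, r.cls.ac, r.cls.top, r.gd.supp, h2⟩

variable [OrderBot I]

/-- `PT`, then `exists_seal` below the new condition gives `Q2`; `RT ⊤` for the colouring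
`fun u _ a => decide (f (fac ⊤ Q2 r'.p u) a = 1)` with `K = univ`; `exists_rst`, `exists_gd`; add
the thinning; compare `B8F.reap_dense` -/
theorem reap_dense (Φ : ℕ → CN I → Prop) (hm : ∀ a r r', Φ a r → r' ≤ r → Φ a r')
    (r : CN I) : ∃ r', r' ≤ r ∧ ((∀ a ∈ r'.A, ∀ q, q ≤ r' → ∃ q', q' ≤ q ∧ Φ a q') ∨
      ∀ a ∈ r'.A, ∀ q, q ≤ r' → ¬ Φ a q) := by
  obtain ⟨r1, h1, f, hc, hdep, hl⟩ := PT
    (fun a n r => (n = 1 ∧ Φ a r) ∨ (n = 0 ∧ ∀ q, q ≤ r → ¬ Φ a q))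
    (fun a n r r' h h' => h.imp (fun h => ⟨h.1, hm _ _ _ h.2 h'⟩)
      fun h => ⟨h.1, fun q hq => h.2 q (hq.trans h')⟩) r
    (fun a q _ => by
      by_cases h : ∃ q', q' ≤ q ∧ Φ a q'
      · obtain ⟨q', h1, h2⟩ := h
        exact ⟨q', h1, 1, Or.inl ⟨rfl, h2⟩⟩
      · exact ⟨q, le_rfl, 0, Or.inr ⟨rfl, fun q' h1 h2 => h ⟨q', h1, h2⟩⟩⟩)
  obtain ⟨Q2, a1, a2, -, a4⟩ := exists_seal r1.toSys r1.pm (fun _ => univ)
    fun _ m b1 _ => ⟨m, trivial, b1, .rfl'⟩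
  have hθ : Continuous fun u => f (fac ⊤ Q2 r1.p u) := hc.comp (fac_cont a1.mi r1.gd.mi a2)
  obtain ⟨Ψ, hΨ, o', hA, -, ε, hε⟩ := RT (⊤ : I)
    (fun u _ a => decide (f (fac ⊤ Q2 r1.p u) a = 1))
    (fun a => (continuous_of_discreteTopology (f := fun n : ℕ => decide (n = 1))).comp
      (((continuous_apply a).comp hθ).comp continuous_fst))
    (fun u v h => congrArg (fun (z : ℕ → ℕ) (_ : Cn) a => decide (z a = 1))
      (hdep _ _ fun γ hγ => fac_agB a1.mi r1.gd.mi a2 h γ (r1.cls.top hγ)))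
    ⟨r1.A, univ, r1.inf, perf_univ⟩
  obtain ⟨Ψ', b1, b2, b3⟩ := exists_rst r1.cls.ac hΨ
  obtain ⟨T, hT⟩ := exists_gd r1.cls.ac (a1.mi.comp b1) (a1.supp.comp b2)
  have b4 : Le ⊤ ((Q2 ∘ Ψ') ∘ T) Q2 := le_comp Q2 (Ψ' ∘ T)
  obtain ⟨τ, t1, -, -, -, t3⟩ := a4 {(Q2 ∘ Ψ') ∘ T} (countable_singleton _)
    fun _ ht => ht ▸ ⟨hT, b4⟩
  let r'' : CN I := ⟨τ, o'.A, o'.inf, (Q2 ∘ Ψ') ∘ T, t3 rfl⟩
  have h2 : r'' ≤ r1 := CN.le_of hA t1 (b4.trans a2)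
  have key : ∀ a ∈ o'.A, ∀ q, q ≤ r'' → ∃ q', q' ≤ q ∧ ∃ n, decide (n = 1) = ε ∧
      ((n = 1 ∧ Φ a q') ∨ (n = 0 ∧ ∀ q, q ≤ q' → ¬ Φ a q)) := fun a ha q hq => by
    obtain ⟨w, hw⟩ := hq.2.2 fun _ _ => 0
    obtain ⟨y, hy⟩ := o'.perf.1
    obtain ⟨q', h3, h4⟩ := hl a q (hq.trans h2) _ _
      ((fac_spec r1.gd.mi a2 (Ψ' (T w))).trans hw)
    obtain ⟨v', hv⟩ := b3 (T w)
    refine ⟨q', h3, _, ?_, h4⟩
    rw [hdep _ _ ((fac_supp r1.gd.mi a2 a1.supp r1.gd.supp).2 _ _ hv)]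
    exact hε v' y hy a ha
  refine ⟨r'', h2.trans h1, ?_⟩
  cases ε with
  | true =>
    refine Or.inl fun a ha q hq => ?_
    obtain ⟨q', h3, n, h4, h5⟩ := key a ha q hq
    obtain rfl : n = 1 := of_decide_eq_true h4
    exact ⟨q', h3, h5.elim And.right fun h => absurd h.1 one_ne_zero⟩
  | false =>
    refine Or.inr fun a ha q hq h => ?_
    obtain ⟨q', h3, n, h4, h5⟩ := key a ha q hq
    exact h5.elim (fun h' => of_decide_eq_false h4 h'.1) fun h' => h'.2 q' le_rfl (hm _ _ _ h h3)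

end Pool.Agent.B8N
end

-- merged part: Pool.Agent.Work.MP_b8a914_gt.N.Count
section
/-! Closure points. -/

namespace Pool.Agent.B8N
open Filter Topology Function Set Pool.Agent.B8F Cardinal

theorem Count_open {X : Type} [TopologicalSpace X] [SecondCountableTopology X] :
    #{U : Set X | IsOpen U} ≤ continuum := by
  have : Countable (TopologicalSpace.countableBasis X) :=
    (TopologicalSpace.countable_countableBasis X).to_subtype
  have key : ∀ U U' : Set X, IsOpen U →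
      (∀ b : TopologicalSpace.countableBasis X, b.1 ⊆ U → b.1 ⊆ U') → U ⊆ U' := by
    intro U U' hU h y hy
    obtain ⟨b, hb, h1, h2⟩ :=
      (TopologicalSpace.isBasis_countableBasis X).exists_subset_of_mem_open hy hU
    exact h ⟨b, hb⟩ h2 h1
  refine (mk_le_of_injective (f := fun U : {U : Set X | IsOpen U} =>
    {b : TopologicalSpace.countableBasis X | b.1 ⊆ U.1}) fun U U' e => ?_).trans ?_
  · exact Subtype.ext (Subset.antisymm (key _ _ U.2 fun b hb => (Set.ext_iff.1 e b).1 hb)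
      (key _ _ U'.2 fun b hb => (Set.ext_iff.1 e b).2 hb))
  · rw [mk_set, ← two_power_aleph0]
    exact power_le_power_left two_ne_zero mk_le_aleph0

theorem Count_dep {I : Type} {s : Set I} (hs : s.Countable) :
    #{U : Set (Pt I × (ℕ → ℕ)) | IsOpen U ∧ ∀ y, DepOn s fun x => (x, y) ∈ U} ≤ continuum := by
  classical
  have : Countable s := hs.to_subtype
  let ex : (s → ℕ → ℕ) → Pt I := fun x γ => if h : γ ∈ s then x ⟨γ, h⟩ else 0
  have hex : Continuous ex := by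
    refine continuous_pi fun γ => ?_
    by_cases h : γ ∈ s
    · simp only [ex, dif_pos h]
      exact continuous_apply _
    · simp only [ex, dif_neg h]
      exact continuous_const
  have hE : Continuous (Prod.map ex (id : (ℕ → ℕ) → ℕ → ℕ)) := hex.prodMap continuous_id
  refine (mk_le_of_injective (f := fun U : {U : Set (Pt I × (ℕ → ℕ)) | IsOpen U ∧
      ∀ y, DepOn s fun x => (x, y) ∈ U} =>
    (⟨Prod.map ex id ⁻¹' U.1, U.2.1.preimage hE⟩ :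
      {V : Set ((s → ℕ → ℕ) × (ℕ → ℕ)) | IsOpen V})) fun U U' e => ?_).trans Count_open
  refine Subtype.ext (Set.ext fun z => ?_)
  obtain ⟨u, y⟩ := z
  have h2 : ∀ γ ∈ s, u γ = ex (fun γ => u γ.1) γ := fun γ h => by simp only [ex, dif_pos h]
  have a : ((u, y) ∈ U.1) = ((ex fun γ => u γ.1, y) ∈ U.1) := U.2.2 y _ _ h2
  have b : ((u, y) ∈ U'.1) = ((ex fun γ => u γ.1, y) ∈ U'.1) := U'.2.2 y _ _ h2
  rw [a, b]
  exact Set.ext_iff.1 (congrArg Subtype.val e) (fun γ => u γ.1, y)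

theorem Count_seq {Z : Type} (h : #Z ≤ continuum) : #(ℕ → Z) ≤ continuum := by
  rw [← power_def, mk_nat, ← continuum_power_aleph0]
  exact power_le_power_right h

theorem Count_prod {X Y : Type} (h1 : #X ≤ continuum) (h2 : #Y ≤ continuum) :
    #(X × Y) ≤ continuum := by
  rw [mk_prod, lift_id, lift_id, ← continuum_mul_self]
  exact mul_le_mul' h1 h2

theorem Count_sub {X : Type} {S : Set X} (h : #S ≤ continuum) :
    #{t : Set X | t ⊆ S ∧ t.Countable} ≤ continuum := by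
  have e : {t : Set X | t ⊆ S ∧ t.Countable} = {t : Set X | t ⊆ S ∧ #t ≤ ℵ₀} :=
    Set.ext fun t => and_congr_right fun _ => le_aleph0_iff_set_countable.symm
  rw [e]
  refine (mk_bounded_subset_le S ℵ₀).trans ?_
  exact (power_le_power_right (max_le h aleph0_le_continuum)).trans continuum_power_aleph0.le

/-- an open set that depends on `s` is determined by the pairs (pattern over `s`, word) whose box
it contains -/
theorem card_prm {I : Type} [LinearOrder I] {s : Set I} (hs : s.Countable) :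
    #{γ : Prm I | PrmOK s γ} ≤ continuum := by
  have h0 : #s ≤ continuum := (le_aleph0_iff_set_countable.2 hs).trans aleph0_le_continuum
  refine (mk_le_of_injective (f := fun γ : {γ : Prm I | PrmOK s γ} =>
    ((⟨γ.1.1, γ.2.1⟩ : s), fun k n => (⟨γ.1.2 k n, γ.2.2.1 k n,
      fun y => (γ.2.2.2 k n y).mono inter_subset_left⟩ :
      {U : Set (Pt I × (ℕ → ℕ)) | IsOpen U ∧ ∀ y, DepOn s fun x => (x, y) ∈ U})))
    fun γ γ' e => ?_).trans (Count_prod h0 (Count_seq (Count_seq (Count_dep hs))))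
  refine Subtype.ext (Prod.ext (congrArg Subtype.val (congrArg Prod.fst e)) ?_)
  funext k n
  exact congrArg Subtype.val (congrFun (congrFun (congrArg Prod.snd e) k) n)

/-- all supports are inside `s` -/
def Sp (s : Set II) (t : CN II × VC II) : Prop :=
  t.1.a ⊆ s ∧ (Continuous t.2.1 ∧ Supp s t.2.1) ∧ Continuous t.2.2 ∧ DepOn s t.2.2

/-- `card_supp`, `card_dep`, `card_prm`, `mk_bounded_subset_le`, `Cond3_prod` -/
theorem card_Sp (s : Set II) (hs : s.Countable) : #{t | Sp s t} ≤ continuum := by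
  have h0 : #s ≤ continuum := (le_aleph0_iff_set_countable.2 hs).trans aleph0_le_continuum
  have hA : #(Set ℕ) ≤ continuum := by rw [mk_set, mk_nat, two_power_aleph0]
  refine (mk_le_of_injective (f := fun t : {t | Sp s t} =>
    (((⟨t.1.1.a, t.2.1, t.1.1.cls.ac⟩ : {u : Set II | u ⊆ s ∧ u.Countable}),
      (⟨t.1.1.Φ, t.1.1.cls.sub.trans t.2.1, t.1.1.cls.ac.mono t.1.1.cls.sub⟩ :
        {u : Set II | u ⊆ s ∧ u.Countable}),
      (⟨t.1.1.Γ, fun γ hγ => (t.1.1.cls.prm γ hγ).mono t.2.1, t.1.1.cls.Γc⟩ :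
        {u : Set (Prm II) | u ⊆ {γ : Prm II | PrmOK s γ} ∧ u.Countable}),
      (⟨t.1.1.s, fun m hm => ⟨(t.1.1.cls.gd m hm).mi.cont, (t.1.1.cls.gd m hm).supp.mono t.2.1⟩,
        t.1.1.sc⟩ : {u : Set (Pt II → Pt II) |
          u ⊆ {p : Pt II → Pt II | Continuous p ∧ Supp s p} ∧ u.Countable})),
      (t.1.1.A, (⟨t.1.1.p, t.1.1.gd.mi.cont, t.1.1.gd.supp.mono t.2.1⟩ :
        {p : Pt II → Pt II | Continuous p ∧ Supp s p})),
      ((⟨t.1.2.1, t.2.2.1⟩ : {p : Pt II → Pt II | Continuous p ∧ Supp s p}),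
        (⟨t.1.2.2, t.2.2.2⟩ : {g : Pt II → ℕ → ℕ | Continuous g ∧ DepOn s g}))))
      ?_).trans (Count_prod (Count_prod (Count_sub h0) (Count_prod (Count_sub h0)
        (Count_prod (Count_sub (card_prm hs)) (Count_sub (card_supp hs)))))
      (Count_prod (Count_prod hA (card_supp hs)) (Count_prod (card_supp hs) (card_dep hs))))
  rintro ⟨⟨⟨⟨a, Φ, Γ, q, _, _⟩, A, _, p, _⟩, c, d⟩, _⟩
    ⟨⟨⟨⟨a', Φ', Γ', q', _, _⟩, A', _, p', _⟩, c', d'⟩, _⟩ e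
  simp only [Prod.mk.injEq, Subtype.mk.injEq] at e
  obtain ⟨⟨rfl, rfl, rfl, rfl⟩, ⟨rfl, rfl⟩, rfl, rfl⟩ := e
  rfl

section
variable {I : Type} [LinearOrder I] [OrderTop I]

/-- below `r0` every request has a witness -/
def DDn (Fc : CN I → VC I → ℕ → Prop) (r0 : CN I) : Prop :=
  ∀ r, r ≤ r0 → ∀ c, Nice ⊤ c → Le ⊤ r.p c.1 → ∃ r', r' ≤ r ∧ ∃ ε < 3, Fc r' c ε

/-- closure points -/
structure CP (Fc : CN I → VC I → ℕ → Prop) (r0 : CN I) (α : I) : Prop where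
  lt : α < ⊤
  sub : r0.a ⊆ Iio α
  cof : ∀ s : Set I, s.Countable → s ⊆ Iio α → ∃ β < α, ∀ γ ∈ s, γ < β
  cl : ∀ r, r ≤ r0 → r.a ⊆ Iio α → ∀ c, Nice α c → Le ⊤ r.p c.1 →
    ∃ r', r' ≤ r ∧ r'.a ⊆ Iio α ∧ ∃ ε < 3, Fc r' c ε

/-- `InitialSeg.total` for `c` and `Ici β0`; the interval `Ico β0 α` is uncountable, so the range is
a proper initial part `Ico β0 β1` -/
theorem room [WellFoundedLT I] {α β0 : I} (h0 : β0 < α)
    (cof : ∀ s : Set I, s.Countable → s ⊆ Iio α → ∃ β < α, ∀ γ ∈ s, γ < β) {c : Set I}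
    (hc : c.Countable) : ∃ (e : I → I) (β1 : I), β0 ≤ β1 ∧ β1 ≤ α ∧ StrictMonoOn e c ∧
      e '' c = Ico β0 β1 := by
  classical
  have hu : ¬ (Ico β0 α).Countable := fun h => by
    obtain ⟨β, h1, h2⟩ := cof _ h fun γ hγ => hγ.2
    exact lt_irrefl β (h2 β ⟨(h2 β0 ⟨le_rfl, h0⟩).le, h1⟩)
  have : Countable c := hc.to_subtype
  rcases InitialSeg.total ((· < ·) : c → c → Prop) ((· < ·) : Ici β0 → Ici β0 → Prop) with f | g
  · let e : I → I := fun x => if h : x ∈ c then (f ⟨x, h⟩).1 else x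
    have he : ∀ x (h : x ∈ c), e x = (f ⟨x, h⟩).1 := fun x h => dif_pos h
    have hne : ∃ β, β ∈ Ico β0 α ∧ β ∉ e '' c := by
      by_contra hn
      exact hu ((hc.image e).mono fun β hβ => by_contra fun h => hn ⟨β, hβ, h⟩)
    obtain ⟨β1, ⟨h1, h2⟩, h3⟩ :=
      (wellFounded_lt (α := I)).has_min {β | β ∈ Ico β0 α ∧ β ∉ e '' c} hne
    refine ⟨e, β1, h1.1, h1.2.le, fun x hx y hy hxy => ?_, Subset.antisymm ?_ ?_⟩
    · rw [he x hx, he y hy]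
      exact f.map_rel_iff.2 hxy
    · rintro _ ⟨x, hx, rfl⟩
      refine ⟨by rw [he x hx]; exact (f ⟨x, hx⟩).2, lt_of_not_ge fun h => h2 ?_⟩
      rcases h.eq_or_lt with h | h
      · exact ⟨x, hx, h.symm⟩
      · rw [he x hx] at h
        obtain ⟨y, hy⟩ := f.mem_range_of_rel (a := ⟨x, hx⟩) (b := ⟨β1, h1.1⟩) h
        exact ⟨y.1, y.2, by rw [he y.1 y.2]; exact congrArg Subtype.val hy⟩
    · intro β hβ
      by_contra h
      exact h3 β ⟨⟨hβ.1, hβ.2.trans h1.2⟩, h⟩ hβ.2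
  · have : Countable (Ici β0) := g.injective.countable
    exact absurd ((countable_coe_iff.1 this).mono fun γ hγ => hγ.1) hu

end

/-- `closure_pt` for the type `(CN II × VC II) ⊕ Set II`; a countable set `s` asks for a point two
steps above it (`exists_bound`); compare `B8F.exists_CP` -/
theorem exists_CP {Fc : CN II → VC II → ℕ → Prop} {r0 : CN II} (h : DDn Fc r0) :
    ∃ α, CP Fc r0 α := by
  have hw : ∀ t : CN II × VC II, ∃ b : II, b < ⊤ ∧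
      (t.1 ≤ r0 → Nice ⊤ t.2 → Le ⊤ t.1.p t.2.1 →
        ∃ r', r' ≤ t.1 ∧ r'.a ⊆ Iio b ∧ ∃ ε < 3, Fc r' t.2 ε) := by
    rintro ⟨r, c⟩
    by_cases hq : r ≤ r0 ∧ Nice ⊤ c ∧ Le ⊤ r.p c.1
    · obtain ⟨r', h1, h2⟩ := h r hq.1 c hq.2.1 hq.2.2
      obtain ⟨b, hb, hb'⟩ := exists_bound r'.cls.ac
      exact ⟨b, hb, fun _ _ _ => ⟨r', h1, fun γ hγ => hb' γ hγ (r'.cls.top hγ), h2⟩⟩
    · obtain ⟨b, hb, -⟩ := exists_bound (countable_empty (α := II))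
      exact ⟨b, hb, fun a1 a2 a3 => absurd ⟨a1, a2, a3⟩ hq⟩
  choose w hw1 hw2 using hw
  have hv : ∀ s : Set II, ∃ b : II, b < ⊤ ∧
      (s.Countable → ∃ β < b, ∀ γ ∈ s, γ < ⊤ → γ < β) := by
    intro s
    by_cases hs : s.Countable
    · obtain ⟨β, h1, h2⟩ := exists_bound hs
      obtain ⟨b, h3, h4⟩ := exists_bound (countable_singleton β)
      exact ⟨b, h3, fun _ => ⟨β, h4 β rfl h1, h2⟩⟩
    · obtain ⟨b, hb, -⟩ := exists_bound (countable_empty (α := II))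
      exact ⟨b, hb, fun a => absurd a hs⟩
  choose v hv1 hv2 using hv
  obtain ⟨b0, hb0, hb0'⟩ := exists_bound r0.cls.ac
  obtain ⟨α, h1, h2, h3⟩ := closure_pt (T := (CN II × VC II) ⊕ Set II)
    (fun s t => t ∈ insert (Sum.inr s) (Sum.inl '' {t | Sp s t}))
    (fun s hs => mk_insert_le.trans ((add_le_add (mk_image_le.trans (card_Sp s hs))
      (one_le_aleph0.trans aleph0_le_continuum)).trans (add_eq_self aleph0_le_continuum).le))
    (Sum.elim w v) (by rintro (t | t); exacts [hw1 t, hv1 t]) b0 hb0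
  refine ⟨α, h2, fun γ hγ => (hb0' γ hγ (r0.cls.top hγ)).trans h1, fun s hs hsα => ?_,
    fun r hr hra c hc hl => ?_⟩
  · obtain ⟨β, a1, a2⟩ := hv2 s hs
    exact ⟨β, a1.trans_le (h3 s hs hsα (Sum.inr s) (mem_insert _ _)),
      fun γ hγ => a2 γ hγ ((hsα hγ).trans h2)⟩
  · obtain ⟨m1, k1, s1, hs1, hs1α, p1, g1⟩ := id hc
    have hle : w (r, c) ≤ α := h3 (r.a ∪ s1) (r.cls.ac.union hs1) (union_subset hra hs1α)
      (Sum.inl (r, c)) (mem_insert_of_mem _ ⟨(r, c), ⟨subset_union_left,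
        ⟨m1.cont, p1.mono subset_union_right⟩, k1, g1.mono subset_union_right⟩, rfl⟩)
    obtain ⟨r', e1, e2, e3⟩ := hw2 (r, c) hr (hc.mono le_top) hl
    exact ⟨r', e1, e2.trans (Iio_subset_Iio hle), e3⟩

end Pool.Agent.B8N
end

-- merged part: Pool.Agent.Work.MP_b8a914_gt.N.Push
section
/-! Moving frames and systems along increasing maps of the coordinates. -/

set_option linter.unusedSectionVars false

namespace Pool.Agent.B8N
open Filter Topology Function Set Pool.Agent.B8F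

variable {I : Type}

open Classical in
noncomputable def push (b : Set I) (j : I → I) (m : Fr I) : Fr I := fun z δ =>
  if h : ∃ γ ∈ b, j γ = δ then m (z ∘ j) h.choose else z δ

def pushP (j : I → I) (γ : Prm I) : Prm I := (j γ.1, fun k n => {q | (q.1 ∘ j, q.2) ∈ γ.2 k n})

theorem push_at {b : Set I} {j : I → I} (hj : InjOn j b) (m : Fr I) (z : Pt I) {γ : I}
    (hγ : γ ∈ b) : push b j m z (j γ) = m (z ∘ j) γ := by
  have h : ∃ γ' ∈ b, j γ' = j γ := ⟨γ, hγ, rfl⟩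
  rw [push, dif_pos h, hj h.choose_spec.1 hγ h.choose_spec.2]

theorem push_off {b : Set I} {j : I → I} (m : Fr I) (z : Pt I) {δ : I} (hδ : δ ∉ j '' b) :
    push b j m z δ = z δ := by
  exact dif_neg hδ

theorem push_eq {a b : Set I} {j : I → I} (hj : InjOn j b) {m : Fr I} (hs : Supp a m)
    (hab : a ⊆ b) (h : ∀ γ ∈ a, j γ = γ) : push b j m = m := by
  funext z δ
  by_cases h1 : δ ∈ j '' b
  · obtain ⟨γ, hγ, rfl⟩ := h1
    rw [push_at hj m z hγ]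
    by_cases h2 : γ ∈ a
    · rw [h γ h2]
      exact hs.2 _ _ (fun γ' h' => congrArg z (h γ' h')) γ h2
    · have h3 : j γ ∉ a := fun h3 => h2 (hj (hab h3) hγ (h _ h3) ▸ h3)
      rw [hs.1 _ _ h2, hs.1 _ _ h3]
      rfl
  · rw [push_off m z h1, hs.1 z δ fun h2 => h1 ⟨δ, hab h2, h δ h2⟩]

variable [LinearOrder I]

theorem pushP_eq {a : Set I} {j : I → I} {γ : Prm I} (hγ : PrmOK a γ) (h : ∀ δ ∈ a, j δ = δ) :
    pushP j γ = γ := by
  refine Prod.ext (h _ hγ.1) (funext fun k => funext fun n => Set.ext fun q => ?_)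
  exact (hγ.2.2 k n q.2 (q.1 ∘ j) q.1 fun δ hδ => congrArg q.1 (h δ hδ.1)).to_iff

theorem push_len {b : Set I} {j : I → I} (hj : StrictMonoOn j b) {m : Fr I} (hs : Supp b m)
    {γ : I} (hγ : γ ∈ b) {u : Pt I} {n l : ℕ} (h : IsLen m γ (u ∘ j) n l) :
    IsLen (push b j m) (j γ) u n l := by
  classical
  let e : Pt I → Pt I := fun v δ => if δ ∈ b then v (j δ) else u (j δ)
  have e1 : ∀ v, push b j m v (j γ) = m (e v) γ := fun v =>
    (push_at hj.injOn m v hγ).trans (hs.2 _ _ (fun _ h' => (if_pos h').symm) γ hγ)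
  have e2 : ∀ v, e v γ = v (j γ) := fun v => if_pos hγ
  have e3 : ∀ v, AgB (j γ) v u → AgB γ (e v) (u ∘ j) := fun v hv δ hδ => by
    by_cases h1 : δ ∈ b
    · exact (if_pos h1).trans (hv _ (hj h1 hγ hδ))
    · exact if_neg h1
  intro v v' a1 a2 a3 a4
  have := h (e v) (e v') (e3 v a1) (e3 v' a2) (by rwa [e2]) (by rwa [e2])
  rwa [e2, e2, ← e1, ← e1] at this

/-- `val_dep` for `proj`; for `sec` at `j γ` replace `v ∘ j` outside `b` by `u ∘ j` -/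
theorem Gd.push {b : Set I} (hb : b.Countable) {j : I → I} (hj : StrictMonoOn j b) {m : Fr I}
    (hm : Gd b m) : Gd (j '' b) (push b j m) := by
  have hs : Supp (j '' b) (B8N.push b j m) := by
    refine ⟨fun u δ h => push_off m u h, ?_⟩
    rintro u v h _ ⟨γ, hγ, rfl⟩
    rw [push_at hj.injOn m u hγ, push_at hj.injOn m v hγ]
    exact hm.supp.2 _ _ (fun γ' h' => h _ ⟨γ', h', rfl⟩) γ hγ
  refine ⟨⟨continuous_pi fun δ => ?_, fun β u v h => ?_, ⟨_, hb.image j, hs⟩, fun β u n => ?_⟩,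
    hs, fun β u n l hl => ?_⟩
  · by_cases h1 : δ ∈ j '' b
    · obtain ⟨γ, hγ, rfl⟩ := h1
      simp only [push_at hj.injOn m _ hγ]
      exact (continuous_apply γ).comp
        (hm.mi.cont.comp (continuous_pi fun i => continuous_apply (j i)))
    · simp only [push_off m _ h1]
      exact continuous_apply δ
  · by_cases h1 : β ∈ j '' b
    · obtain ⟨γ, hγ, rfl⟩ := h1
      rw [push_at hj.injOn m u hγ, push_at hj.injOn m v hγ]
      exact val_dep hm.mi hm.supp hγ fun γ' h' h2 => h _ (hj.monotoneOn h' hγ h2)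
    · rw [push_off m u h1, push_off m v h1, h β le_rfl]
  · by_cases h1 : β ∈ j '' b
    · obtain ⟨γ, hγ, rfl⟩ := h1
      obtain ⟨l, hl⟩ := hm.mi.sec γ (u ∘ j) n
      exact ⟨l, push_len hj hm.supp hγ hl⟩
    · exact ⟨n, isLen_id (fun v => push_off m v h1) u n⟩
  · by_cases h1 : β ∈ j '' b
    · obtain ⟨γ, hγ, rfl⟩ := h1
      obtain ⟨l', hl'⟩ := hm.mi.sec γ (u ∘ j) n
      rw [hl.unique (push_len hj hm.supp hγ hl'), push_at hj.injOn m u hγ]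
      exact hm.big γ (u ∘ j) n l' hl'
    · rw [hl.unique (isLen_id (fun v => push_off m v h1) u n), push_off m u h1]

theorem in_push {b : Set I} {j : I → I} (hj : InjOn j b) {m : Fr I} (hs : Supp b m) {β β' : I}
    (h : ∀ γ ∈ b, γ < β ↔ j γ < β') (z : Pt I) :
    In β' (push b j m) z ↔ In β m (z ∘ j) := by
  classical
  constructor
  · rintro ⟨w, hw⟩
    refine ⟨fun δ => if δ ∈ b then w (j δ) else z (j δ), fun δ hδ => ?_⟩
    by_cases h1 : δ ∈ b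
    · exact (hs.2 _ (w ∘ j) (fun _ h' => if_pos h') δ h1).trans
        ((push_at hj m w h1).symm.trans (hw _ ((h δ h1).1 hδ)))
    · rw [hs.1 _ _ h1]
      exact if_neg h1
  · rintro ⟨w, hw⟩
    refine ⟨push b j (fun _ => w) z, fun δ hδ => ?_⟩
    by_cases h1 : δ ∈ j '' b
    · obtain ⟨γ, hγ, rfl⟩ := h1
      exact (push_at hj m _ hγ).trans
        ((hs.2 _ w (fun γ' h' => push_at hj (fun _ => w) z h') γ hγ).trans (hw γ ((h γ hγ).2 hδ)))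
    · rw [push_off m _ h1, push_off _ _ h1]

theorem push_le {b : Set I} {j : I → I} (hj : InjOn j b) {m1 m2 : Fr I} (h1 : Supp b m1)
    (h2 : Supp b m2) {β β' : I} (h : ∀ γ ∈ b, γ < β ↔ j γ < β') :
    Le β' (push b j m1) (push b j m2) ↔ Le β m1 m2 := by
  refine ⟨fun hl w => ?_, fun hl v => (in_push hj h2 h _).2 ?_⟩
  · refine In.dep h2 ((in_push hj h2 h _).1 (hl (push b j (fun _ => w) w))) fun γ hγ _ => ?_
    exact (push_at hj m1 _ hγ).trans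
      (h1.2 _ w (fun γ' h' => push_at hj (fun _ => w) w h') γ hγ)
  · exact In.dep h2 (hl (v ∘ j)) fun γ hγ _ => (push_at hj m1 v hγ).symm

theorem PrmOK.push {b : Set I} {j : I → I} (hj : StrictMonoOn j b) {γ : Prm I} (hγ : PrmOK b γ) :
    PrmOK (j '' b) (pushP j γ) := by
  refine ⟨⟨_, hγ.1, rfl⟩, fun k n => ?_, fun k n y u v h => ?_⟩
  · have : Continuous fun q : Pt I × (ℕ → ℕ) => (q.1 ∘ j, q.2) :=
      (continuous_pi fun i => (continuous_apply (j i)).comp continuous_fst).prodMk continuous_snd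
    exact (hγ.2.1 k n).preimage this
  · exact hγ.2.2 k n y (u ∘ j) (v ∘ j) fun δ hδ => h _ ⟨⟨δ, hδ.1, rfl⟩, hj hδ.1 hγ.1 hδ.2⟩

variable [OrderTop I] [WellFoundedLT I]

/-- the isomorphic copy of a system (`in_push` for the cuts `(β, j β)` and `(⊤, ⊤)`,
`Dcd.of_pull`) -/
theorem exists_copy (σ : Sys I) {j : I → I} (hj : StrictMonoOn j σ.a) (ht : ∀ γ ∈ σ.a, j γ < ⊤) :
    ∃ τ : Sys I, τ.a = j '' σ.a ∧ τ.Φ = j '' σ.Φ ∧ τ.Γ = pushP j '' σ.Γ ∧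
      τ.s = push σ.a j '' σ.s := by
  classical
  have hi := hj.injOn
  have hc := σ.cls
  have c1 : ∀ γ ∈ σ.a, γ < ⊤ ↔ j γ < ⊤ := fun γ hγ => iff_of_true (hc.top hγ) (ht γ hγ)
  have hs : ∀ m ∈ σ.s, Supp σ.a m := fun m hm => (hc.gd m hm).supp
  refine ⟨⟨_, _, _, _, ⟨hc.ac.image j, ?_, image_mono hc.sub, hc.Γc.image _, ?_, ?_, ?_, ?_, ?_,
    ?_⟩, σ.sc.image _⟩, rfl, rfl, rfl, rfl⟩
  · rintro _ ⟨γ, hγ, rfl⟩
    exact ht γ hγ
  · rintro _ ⟨γ, hγ, rfl⟩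
    exact (hc.prm γ hγ).push hj
  · rintro _ ⟨m, hm, rfl⟩
    exact (hc.gd m hm).push hc.ac hj
  · refine ⟨id, hc.one, funext fun z => funext fun δ => ?_⟩
    by_cases h1 : δ ∈ j '' σ.a
    · obtain ⟨γ, hγ, rfl⟩ := h1
      exact push_at hi id z hγ
    · exact push_off id z h1
  · rintro _ ⟨β, hβ, rfl⟩ _ ⟨m1, h1, rfl⟩ _ ⟨m2, h2, rfl⟩ hl
    have c2 : ∀ γ ∈ σ.a, γ < β ↔ j γ < j β := fun γ hγ => (hj.lt_iff_lt hγ hβ).symm
    obtain ⟨m, hm, h3⟩ := hc.mix β hβ m1 h1 m2 h2 ((push_le hi (hs _ h1) (hs _ h2) c2).1 hl)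
    refine ⟨_, ⟨m, hm, rfl⟩, fun x => ?_⟩
    rw [in_push hi (hs _ hm) c1, in_push hi (hs _ h1) c2, in_push hi (hs _ h2) c1]
    exact h3 _
  · rintro _ ⟨m, hm, rfl⟩ L hL ⟨v, hv⟩
    have : Nonempty I := ⟨⊤⟩
    have key : ∀ (r : Fr I) w, InB L (push σ.a j r w) ↔
        InB (L.image fun t => (invFunOn j σ.a t.1, t.2)) (r (w ∘ j)) := fun r w => by
      simp only [InB, Finset.forall_mem_image]
      refine forall₂_congr fun t ht => ?_
      rw [← push_at hi r w (invFunOn_mem (hL t ht)), invFunOn_eq (hL t ht)]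
    obtain ⟨m', h1, h2, h3⟩ := hc.box m hm _
      (Finset.forall_mem_image.2 fun t ht => invFunOn_mem (hL t ht)) ⟨_, (key m v).1 hv⟩
    exact ⟨_, ⟨m', h1, rfl⟩, (push_le hi (hs _ h1) (hs _ hm) c1).2 h2,
      fun w => (key m' w).2 (h3 _)⟩
  · rintro _ ⟨m, hm, rfl⟩ _ ⟨φ, hφ, rfl⟩ _ ⟨γ, hγ, rfl⟩
    obtain ⟨m', h1, h2, h3⟩ := hc.prom m hm φ hφ γ hγ
    exact ⟨_, ⟨m', h1, rfl⟩, (push_le hi (hs _ h1) (hs _ hm) c1).2 h2,
      h3.of_pull (hc.prm γ hγ) rfl (fun _ _ _ _ => Iff.rfl) fun v => ⟨v ∘ j,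
        fun δ hδ _ => (push_at hi m' v hδ).symm, (push_at hi m' v (hc.sub hφ)).symm⟩⟩

end Pool.Agent.B8N
end

-- merged part: Pool.Agent.Work.MP_b8a914_gt.N.Amalg
section
/-! Amalgamation: the coordinates of `a` in `[β0, β1)` get a second copy above `α`. -/

set_option linter.unusedSectionVars false

namespace Pool.Agent.B8N
open Filter Topology Function Set Pool.Agent.B8F

variable {I : Type} [LinearOrder I] [OrderTop I] [WellFoundedLT I]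

structure AmD (a : Set I) (β0 β1 α : I) (J : I → I) : Prop where
  ac : a.Countable
  le0 : β0 ≤ β1
  le1 : β1 ≤ α
  sub : a ⊆ Iio α
  low : ∀ γ < β0, J γ = γ
  mono : StrictMonoOn J (a ∩ Ico β0 β1)
  up : ∀ γ ∈ a ∩ Ico β0 β1, α ≤ J γ ∧ J γ < ⊤

/-- `t` follows `t'` below `α` and `n'` on the copy -/
def IsAm (β1 α : I) (J : I → I) (t' n' t : Fr I) : Prop :=
  ∀ z, In ⊤ t z ↔ In α t' z ∧ In β1 n' (z ∘ J)

variable {a : Set I} {β0 β1 α : I} {J : I → I}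

theorem amalg_off (h : AmD a β0 β1 α J) {δ : I} (hδ : δ < α) : δ ∉ J '' (a ∩ Ico β0 β1) := by
  rintro ⟨γ, hγ, rfl⟩
  exact (h.up γ hγ).1.not_gt hδ

theorem amalg_agB (h : AmD a β0 β1 α J) (x : Pt I) : AgB β0 x (x ∘ J) := fun γ hγ => by
  rw [comp, h.low γ hγ]

theorem amalg_mono (h : AmD a β0 β1 α J) : StrictMonoOn J (a ∩ Iio β1) := by
  intro γ hγ γ' hγ' hlt
  rcases lt_or_ge γ' β0 with h1 | h1
  · rwa [h.low γ' h1, h.low γ (hlt.trans h1)]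
  · rcases lt_or_ge γ β0 with h2 | h2
    · rw [h.low γ h2]
      exact h2.trans_le ((h.le0.trans h.le1).trans (h.up γ' ⟨hγ'.1, h1, hγ'.2⟩).1)
    · exact h.mono ⟨hγ.1, h2, hγ.2⟩ ⟨hγ'.1, h1, hγ'.2⟩ hlt

/-- the glue at `α` of `t'` and `push (a ∩ Iio β1) J (res β1 n')` -/
theorem exists_am (h : AmD a β0 β1 α J) {t' n' : Fr I} (h1 : Gd a t') (h2 : Gd a n')
    (hl : Le β0 t' n') : ∃ t, Gd (a ∪ J '' (a ∩ Ico β0 β1)) t ∧ IsAm β1 α J t' n' t := by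
  have hr := h2.res β1
  have hm := amalg_mono h
  have hp : Gd (a ∪ J '' (a ∩ Ico β0 β1)) (push (a ∩ Iio β1) J (res β1 n')) := by
    refine (hr.push (h.ac.mono inter_subset_left) hm).mono ?_
    rintro _ ⟨γ, hγ, rfl⟩
    rcases lt_or_ge γ β0 with h3 | h3
    · exact Or.inl ((h.low γ h3).symm ▸ hγ.1)
    · exact Or.inr ⟨γ, ⟨hγ.1, h3, hγ.2⟩, rfl⟩
  have hle : Le α t' (push (a ∩ Iio β1) J (res β1 n')) := fun v => by
    refine (in_push (β := β0) hm.injOn hr.supp (fun γ hγ => ⟨fun h3 => ?_, fun h3 => ?_⟩) _).2 ?_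
    · rw [h.low γ h3]
      exact h3.trans_le (h.le0.trans h.le1)
    · by_contra h4
      exact (h.up γ ⟨hγ.1, not_lt.1 h4, hγ.2⟩).1.not_gt h3
    · obtain ⟨w, hw⟩ := hl v
      exact ⟨w, (((res_agB β1 n' w).mono h.le0).trans hw).trans (amalg_agB h _)⟩
  refine ⟨_, (h1.mono subset_union_left).glue hp hle, fun z => ?_⟩
  rw [isMix_glue h1.mi hp.mi hle z, in_push (β := β1) hm.injOn hr.supp (fun γ hγ => ?_) z,
    in_res h2.mi le_rfl]
  refine ⟨fun _ => ?_, fun _ => hγ.2⟩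
  rcases lt_or_ge γ β0 with h3 | h3
  · rw [h.low γ h3]
    exact h3.trans_le le_top
  · exact (h.up γ ⟨hγ.1, h3, hγ.2⟩).2

/-- the point that has the values of `y` on the copy and of `x` elsewhere -/
theorem am_point (h : AmD a β0 β1 α J) (x y : Pt I) :
    ∃ z : Pt I, (∀ γ ∈ a ∩ Ico β0 β1, z (J γ) = y γ) ∧
      ∀ δ, δ ∉ J '' (a ∩ Ico β0 β1) → z δ = x δ := by
  classical
  refine ⟨fun δ => if h1 : ∃ γ ∈ a ∩ Ico β0 β1, J γ = δ then y h1.choose else x δ,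
    fun γ hγ => ?_, fun δ hδ => dif_neg hδ⟩
  have h1 : ∃ γ' ∈ a ∩ Ico β0 β1, J γ' = J γ := ⟨γ, hγ, rfl⟩
  exact (dif_pos h1).trans (congrArg y (h.mono.injOn h1.choose_spec.1 hγ h1.choose_spec.2))

theorem amalg_mk (h : AmD a β0 β1 α J) {t' n' t : Fr I} (h2 : Supp a n')
    (ht : IsAm β1 α J t' n' t) {x y : Pt I} (hx : In α t' x) (hy : In β1 n' y)
    (e : AgB β0 y x) : ∃ z, In ⊤ t z ∧ AgB α z x ∧ (∀ γ ∈ a, γ < β1 → z (J γ) = y γ) ∧
      ∀ δ, δ ∉ J '' (a ∩ Ico β0 β1) → z δ = x δ := by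
  obtain ⟨z, h3, h4⟩ := am_point h x y
  have h5 : AgB α z x := fun δ hδ => h4 δ (amalg_off h hδ)
  have h6 : ∀ γ ∈ a, γ < β1 → z (J γ) = y γ := fun γ hγ h7 => by
    rcases lt_or_ge γ β0 with h8 | h8
    · rw [h.low γ h8, h5 γ (h.sub hγ), e γ h8]
    · exact h3 γ ⟨hγ, h8, h7⟩
  exact ⟨z, (ht z).2 ⟨hx.congr h5.symm, In.dep h2 hy fun γ hγ h7 => (h6 γ hγ h7).symm⟩,
    h5, h6, h4⟩

theorem IsAm.low (h : AmD a β0 β1 α J) {t' n' t : Fr I} (h2 : Supp a n') (hl : Le β0 t' n')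
    (ht : IsAm β1 α J t' n' t) {β : I} (hβ : β ≤ α) (z : Pt I) : In β t z ↔ In β t' z := by
  refine ⟨fun ⟨w, hw⟩ => (((ht _).1 .self).1.mono hβ).congr hw, fun ⟨w, hw⟩ => ?_⟩
  obtain ⟨u, hu⟩ := hl w
  obtain ⟨z', h3, h4, -⟩ := amalg_mk h h2 ht (x := t' w) .self .self hu
  exact (h3.mono le_top).congr ((h4.mono hβ).trans hw)

theorem IsAm.high (h : AmD a β0 β1 α J) {t' n' t : Fr I} (h2 : Supp a n')
    (ht : IsAm β1 α J t' n' t) {β β' : I} (hβ : α ≤ β) (b0 : β0 ≤ β') (b1 : β' ≤ β1)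
    (hc : ∀ γ ∈ a ∩ Ico β0 β1, γ < β' ↔ J γ < β) (z : Pt I) :
    In β t z ↔ In α t' z ∧ In β' n' (z ∘ J) := by
  refine ⟨fun ⟨w, hw⟩ => ?_, fun ⟨h3, u, hu⟩ => ?_⟩
  · obtain ⟨h3, h4⟩ := (ht (t w)).1 .self
    refine ⟨h3.congr (hw.mono hβ), In.dep h2 (h4.mono b1) fun γ hγ h5 => hw _ ?_⟩
    rcases lt_or_ge γ β0 with h6 | h6
    · rw [h.low γ h6]
      exact (h.sub hγ).trans_le hβ
    · exact (hc γ ⟨hγ, h6, h5.trans_le b1⟩).1 h5
  · obtain ⟨z', h4, -, h5, h6⟩ := amalg_mk h h2 ht h3 (y := n' u) .self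
      ((hu.mono b0).trans (amalg_agB h z).symm)
    refine (h4.mono le_top).congr fun δ hδ => ?_
    by_cases h7 : δ ∈ J '' (a ∩ Ico β0 β1)
    · obtain ⟨γ, hγ, rfl⟩ := h7
      exact (h5 γ hγ.1 hγ.2.2).trans (hu γ ((hc γ hγ).2 hδ))
    · exact h6 δ h7

def AmC (σ : Sys I) (β0 β1 α : I) (J : I → I) : Set (Fr I) :=
  {t | Gd (σ.a ∪ J '' (σ.a ∩ Ico β0 β1)) t ∧
    ∃ t' ∈ σ.s, ∃ n' ∈ σ.s, Le β0 t' n' ∧ IsAm β1 α J t' n' t}

variable {σ : Sys I}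

/-- the pair `(t', id)` -/
theorem amC_mem (h : AmD σ.a β0 β1 α J) : σ.s ⊆ AmC σ β0 β1 α J := fun t ht =>
  ⟨(σ.cls.gd t ht).mono subset_union_left, t, ht, id, σ.cls.one, le_id t, fun z =>
    ⟨fun h1 => ⟨h1.mono le_top, z ∘ J, .rfl'⟩, fun h1 =>
      In.up (σ.cls.gd t ht).mi (σ.cls.gd t ht).supp h1.1 fun _ hγ _ => h.sub hγ⟩⟩

theorem amalg_pair (h : AmD σ.a β0 β1 α J) {t' n' : Fr I} (h1 : t' ∈ σ.s) (h2 : n' ∈ σ.s)
    (hl : Le β0 t' n') : ∃ t ∈ AmC σ β0 β1 α J, IsAm β1 α J t' n' t := by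
  obtain ⟨t, h3, h4⟩ := exists_am h (σ.cls.gd _ h1) (σ.cls.gd _ h2) hl
  exact ⟨t, ⟨h3, t', h1, n', h2, hl, h4⟩, h4⟩

/-- mix back -/
theorem amalg_back (h : AmD σ.a β0 β1 α J) {t' n' : Fr I} (h1 : t' ∈ σ.s) (h2 : n' ∈ σ.s)
    (hl : Le β0 n' t') :
    ∃ t ∈ AmC σ β0 β1 α J, ∀ v, In α t' (t v) ∧ In β1 n' (t v ∘ J) := by
  obtain ⟨t1, h3, h4⟩ := σ.cls.mix_all β0 h2 h1 hl
  obtain ⟨t, h5, h6⟩ := amalg_pair h h3 h2 h4.le1
  exact ⟨t, h5, fun v => ((h6 _).1 .self).imp_left fun h7 => h7.le (h4.le2.mono le_top)⟩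

/-- `β ∈ a`: the pair `(mix β t1' t2', n2')`.  `β = J β'`: the pair `(t1', n)` with
`n = mix β' (mix β0 t1' n1') n2'`. -/
theorem amC_mix (h : AmD σ.a β0 β1 α J) :
    Mix (σ.a ∪ J '' (σ.a ∩ Ico β0 β1)) (AmC σ β0 β1 α J) := by
  rintro β hβ m1 ⟨g1, t1, ht1, n1, hn1, l1, a1⟩ m2 ⟨g2, t2, ht2, n2, hn2, l2, a2⟩ hl
  have hx := isMix_glue g1.mi g2.mi hl
  have s1 := (σ.cls.gd _ hn1).supp
  have s2 := (σ.cls.gd _ hn2).supp
  refine ⟨_, ⟨g1.glue g2 hl, ?_⟩, hx⟩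
  rcases hβ with hβ | ⟨β', hβ', rfl⟩
  · have hb : β ≤ α := (h.sub hβ).le
    obtain ⟨t, ht, hm⟩ := σ.cls.mix β hβ t1 ht1 t2 ht2 fun v =>
      (a2.low h s2 l2 hb _).1 (((a1.low h s1 l1 hb _).2 .self).le hl)
    refine ⟨t, ht, n2, hn2, (hm.le2.mono le_top).trans l2, fun z => ?_⟩
    rw [hx z, a1.low h s1 l1 hb, a2 z, hm.high hb, and_assoc]
  · have hc : ∀ γ ∈ σ.a ∩ Ico β0 β1, γ < β' ↔ J γ < J β' := fun γ hγ =>
      (h.mono.lt_iff_lt hγ hβ').symm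
    have e1 := a1.high h s1 (h.up β' hβ').1 hβ'.2.1 hβ'.2.2.le hc
    have e2 := a2.high h s2 (h.up β' hβ').1 hβ'.2.1 hβ'.2.2.le hc
    obtain ⟨n0, hn0, m0⟩ := σ.cls.mix_all β0 ht1 hn1 l1
    have l0 : Le β' n0 n2 := fun v => by
      obtain ⟨w, hw⟩ := m0.le1 v
      obtain ⟨z, h3, -, h4, -⟩ := amalg_mk h s1 a1 (x := t1 w) .self ((m0.le2 v).mono le_top)
        hw.symm
      exact In.dep s2 ((e2 z).1 ((h3.mono le_top).le hl)).2 fun γ hγ h5 =>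
        h4 γ hγ (h5.trans hβ'.2.2)
    obtain ⟨n, hn, mn⟩ := σ.cls.mix β' hβ'.1 n0 hn0 n2 hn2 l0
    refine ⟨t1, ht1, n, hn, fun v =>
      (mn.low l0 hβ'.2.1 _).2 ((m0.low l1 le_rfl _).2 .self), fun z => ?_⟩
    rw [hx z, a2 z, mn.high hβ'.2.2.le, m0.high hβ'.2.1]
    refine ⟨fun ⟨h3, _, h4⟩ => ?_, fun ⟨h3, ⟨_, h4⟩, h5⟩ => ?_⟩
    · obtain ⟨h5, h6⟩ := (e1 z).1 h3
      exact ⟨h5, ⟨(h5.mono (h.le0.trans h.le1)).congr (amalg_agB h z), h6⟩, h4⟩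
    · have h6 := (e1 z).2 ⟨h3, h4⟩
      exact ⟨h6, ((e2 z).1 (h6.le hl)).1, h5⟩

theorem amalg_ev {L : Pat I} {a : Set I} {J : I → I} (hJ : InjOn J a) {y : Pt I}
    (h : ∀ s ∈ L, ∀ γ ∈ a, J γ = s.1 → y γ s.2.1 = s.2.2) :
    ∀ᶠ y' in 𝓝 y, ∀ s ∈ L, ∀ γ ∈ a, J γ = s.1 → y' γ s.2.1 = s.2.2 := by
  refine (eventually_all_finset L).2 fun s hs => ?_
  by_cases h1 : ∃ γ ∈ a, J γ = s.1
  · obtain ⟨γ0, h2, h3⟩ := h1
    filter_upwards [tendsto_pt.1 (tendsto_id (x := 𝓝 y)) γ0 s.2.1] with y' hy γ h4 h5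
    obtain rfl := hJ h4 h2 (h5.trans h3.symm)
    exact hy.trans (h s hs γ h4 h5)
  · exact Eventually.of_forall fun _ γ h4 h5 => (h1 ⟨γ, h4, h5⟩).elim

theorem amalg_dep (L : Pat I) {a b : Set I} (hb : b ⊆ a) (J : I → I) :
    DepOn a fun y => ∀ s ∈ L, ∀ γ ∈ b, J γ = s.1 → y γ s.2.1 = s.2.2 := fun u v e =>
  propext (forall₂_congr fun _ _ => forall₂_congr fun γ hγ => by rw [e γ (hb hγ)])

/-- shrink `t'` into the part of `L` over `a` and into the projection below `β0` of the pulled back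
part (`proj_open`, `proj_dep`, `ev_dep`, `Box.nbhd`); mix with `n'`, shrink, mix back -/
theorem amC_box (h : AmD σ.a β0 β1 α J) :
    Box (σ.a ∪ J '' (σ.a ∩ Ico β0 β1)) (AmC σ β0 β1 α J) := by
  rintro m ⟨g, t, ht, n, hn, l, am⟩ L hL ⟨v, hv⟩
  obtain ⟨⟨u, hu⟩, w, hw⟩ := (am (m v)).1 .self
  have gn := σ.cls.gd _ hn
  have d2 := amalg_dep L (inter_subset_left : σ.a ∩ Ico β0 β1 ⊆ σ.a) J
  have e1 := amalg_ev (L := L) (injOn_id σ.a) (y := t u) fun s hs γ hγ e => by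
    rw [hu γ (h.sub hγ), show γ = s.1 from e]
    exact hv s hs
  have e2 := amalg_ev (L := L) h.mono.injOn (y := n w) fun s hs γ hγ e => by
    rw [hw γ hγ.2.2, comp, e]
    exact hv s hs
  have d3 := proj_dep gn.supp β0 (Q := fun w' => ∀ s ∈ L, ∀ γ ∈ σ.a ∩ Ico β0 β1, J γ = s.1 →
    n w' γ s.2.1 = s.2.2) fun w1 w2 e => d2 _ _ (gn.supp.2 w1 w2 e)
  have e3 := ev_dep d3 (x1 := t u) (proj_open gn.mi β0 ((gn.mi.cont.tendsto w).eventually e2))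
    fun γ hγ => by
      rw [hw γ (hγ.2.trans_le h.le0), hu γ (h.sub hγ.1), amalg_agB h (m v) γ hγ.2]
  obtain ⟨t1, ht1, lt1, p1⟩ := σ.cls.box.nbhd ht (fun x1 x2 e => congrArg₂ And
    (amalg_dep L Subset.rfl id x1 x2 e) (d3.mono inter_subset_left x1 x2 e)) (e1.and e3)
  have l1 : Le β0 t1 n := (lt1.mono le_top).trans l
  obtain ⟨n0, hn0, m0⟩ := σ.cls.mix_all β0 ht1 hn l1
  obtain ⟨w1, hw1, q1⟩ := (p1 v).2 (l1 v)
  obtain ⟨v1, hv1⟩ := (m0 (n w1)).2 ⟨⟨v, hw1.symm⟩, .self⟩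
  obtain ⟨n1, hn1, ln1, p2⟩ := σ.cls.box.nbhd hn0 (v := v1) d2
    (amalg_ev h.mono.injOn ((d2 _ _ fun γ hγ => hv1 γ (σ.cls.top hγ)).mpr q1))
  obtain ⟨m', hm', p3⟩ := amalg_back h ht1 hn1 ((ln1.mono le_top).trans m0.le1)
  refine ⟨m', hm', fun v' => (am _).2 ⟨(p3 v').1.le (lt1.mono le_top),
    (p3 v').2.le ((ln1.trans m0.le2).mono le_top)⟩, fun v' s hs => ?_⟩
  obtain ⟨⟨u', hu'⟩, w', hw'⟩ := p3 v'
  rcases hL s hs with h1 | ⟨γ, hγ, h1⟩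
  · rw [← hu' _ (h.sub h1)]
    exact (p1 u').1 s hs _ h1 rfl
  · rw [← h1, ← p2 w' s hs γ hγ h1, hw' γ hγ.2.2, comp]

theorem amalg_fix (h : AmD a β0 β1 α J) {γ : Prm I} (hγ : PrmOK a γ) (h0 : γ.1 < β0) (k n : ℕ)
    (z : Pt I) (y : ℕ → ℕ) : (z, y) ∈ γ.2 k n ↔ (z ∘ J, y) ∈ γ.2 k n :=
  (hγ.2.2 k n y z (z ∘ J) fun δ hδ => amalg_agB h z δ (hδ.2.trans h0)).to_iff

/-- Point `φ ∈ σ.Φ`: promise of `σ` (or a copy with coordinate below `β0`): shrink `t'`; copy with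
coordinate above `α`: `indep_of_lt`.  Point `J φ`: copied promise, or promise of `σ` with
coordinate below `β0`: shrink `mix β0 t' n'`, mix back, `Dcd.of_pull`; promise of `σ` with
coordinate at least `β0`: `Indep` (take `x'` below `α` and `x` from `α` on). -/
theorem amC_prom (h : AmD σ.a β0 β1 α J) {Γ1 : Set (Prm I)}
    (h3 : ∀ γ ∈ Γ1, PrmOK (σ.a ∪ J '' (σ.a ∩ Ico β0 β1)) γ ∧ ∃ γ' ∈ σ.Γ, γ'.1 < β1 ∧
      γ.1 = J γ'.1 ∧ ∀ k n z y, (z, y) ∈ γ.2 k n ↔ (z ∘ J, y) ∈ γ'.2 k n) :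
    Prom (σ.Φ ∪ J '' (σ.Φ ∩ Ico β0 β1)) (σ.Γ ∪ Γ1) (AmC σ β0 β1 α J) := by
  intro m hm φ hφ γ hγ
  have hA : σ.a ∪ J '' (σ.a ∩ Ico β0 β1) ⊆ Iio ⊤ :=
    union_subset σ.cls.top (by rintro _ ⟨γ, hγ, rfl⟩; exact (h.up γ hγ).2)
  have hφA : φ ∈ σ.a ∪ J '' (σ.a ∩ Ico β0 β1) :=
    union_subset_union σ.cls.sub (image_mono (inter_subset_inter_left _ σ.cls.sub)) hφ
  have hγA : PrmOK (σ.a ∪ J '' (σ.a ∩ Ico β0 β1)) γ :=
    hγ.elim (fun h4 => (σ.cls.prm γ h4).mono subset_union_left) fun h4 => (h3 γ h4).1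
  have hI := prom_of_indep hA (amC_box h) hm hm.1 hγA hφA
  obtain ⟨g, t, ht, n, hn, l, am⟩ := hm
  rcases hφ with hφ | ⟨φ', hφ', rfl⟩
  · have hφα : φ < α := h.sub (σ.cls.sub hφ)
    have key : γ ∈ σ.Γ → ∃ m' ∈ AmC σ β0 β1 α J, Le ⊤ m' m ∧ Dcd γ φ m' := fun h4 => by
      obtain ⟨t1, ht1, lt1, d1⟩ := σ.cls.prom t ht φ hφ γ h4
      obtain ⟨m', hm', am'⟩ := amalg_pair h ht1 hn ((lt1.mono le_top).trans l)
      refine ⟨m', hm', fun v => (am _).2 (((am' _).1 .self).imp_left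
        fun h5 => h5.le (lt1.mono le_top)), d1.of_agree (σ.cls.prm γ h4) fun v => ?_⟩
      obtain ⟨⟨u, hu⟩, -⟩ := (am' (m' v)).1 .self
      exact ⟨u, fun δ hδ _ => hu δ (h.sub hδ), hu φ hφα⟩
    rcases hγ with hγ | hγ
    · exact key hγ
    · obtain ⟨-, γ', h4, h5, h6, h7⟩ := h3 γ hγ
      have h8 := σ.cls.prm γ' h4
      rcases lt_or_ge γ'.1 β0 with h9 | h9
      · refine key ((show γ = γ' from Prod.ext (h6.trans (h.low _ h9)) ?_) ▸ h4)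
        funext k j
        exact Set.ext fun q => (h7 k j q.1 q.2).trans (amalg_fix h h8 h9 k j q.1 q.2).symm
      · exact hI (indep_of_lt m (h6 ▸ hφα.trans_le (h.up _ ⟨h8.1, h9, h5⟩).1))
  · have key : ∀ γ' ∈ σ.Γ, γ'.1 < β1 → γ.1 = J γ'.1 →
        (∀ k n z y, (z, y) ∈ γ.2 k n ↔ (z ∘ J, y) ∈ γ'.2 k n) →
        ∃ m' ∈ AmC σ β0 β1 α J, Le ⊤ m' m ∧ Dcd γ (J φ') m' := fun γ' h4 h5 h6 h7 => by
      obtain ⟨n0, hn0, m0⟩ := σ.cls.mix_all β0 ht hn l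
      obtain ⟨n1, hn1, ln1, d1⟩ := σ.cls.prom n0 hn0 φ' hφ'.1 γ' h4
      obtain ⟨m', hm', p3⟩ := amalg_back h ht hn1 ((ln1.mono le_top).trans m0.le1)
      refine ⟨m', hm', fun v => (am _).2 ((p3 v).imp_right fun h8 =>
        h8.le ((ln1.trans m0.le2).mono le_top)),
        d1.of_pull (σ.cls.prm γ' h4) h6 h7 fun v => ?_⟩
      obtain ⟨-, w, hw⟩ := p3 v
      exact ⟨w, fun δ _ hδ => hw δ (hδ.trans_lt h5), hw φ' hφ'.2.2⟩
    rcases hγ with hγ | hγ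
    · have h8 := σ.cls.prm γ hγ
      rcases lt_or_ge γ.1 β0 with h9 | h9
      · exact key γ hγ (h9.trans_le h.le0) (h.low _ h9).symm (amalg_fix h h8 h9)
      · refine hI fun x x' hx hx' e => ?_
        obtain ⟨z, h4, h5, h6, -⟩ := amalg_mk h (σ.cls.gd _ hn).supp am ((am x').1 hx').1
          ((am x).1 hx).2 ((amalg_agB h x).symm.trans (e.mono h9).symm)
        have h7 : γ.1 < α := h.sub h8.1
        exact ⟨z, h4, (h5.mono h7.le).trans e, h5 _ h7, h6 φ' (σ.cls.sub hφ'.1) hφ'.2.2⟩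
    · obtain ⟨-, γ', h4, h5, h6, h7⟩ := h3 γ hγ
      exact key γ' h4 h5 h6 h7

theorem amalg (h : AmD σ.a β0 β1 α J) {Γ1 : Set (Prm I)} (h2 : Γ1.Countable)
    (h3 : ∀ γ ∈ Γ1, PrmOK (σ.a ∪ J '' (σ.a ∩ Ico β0 β1)) γ ∧ ∃ γ' ∈ σ.Γ, γ'.1 < β1 ∧
      γ.1 = J γ'.1 ∧ ∀ k n z y, (z, y) ∈ γ.2 k n ↔ (z ∘ J, y) ∈ γ'.2 k n)
    {T : Set (Fr I)} (hT : T.Countable) (hs : T ⊆ AmC σ β0 β1 α J) :
    ∃ τ : Sys I, SLe τ σ ∧ τ.a = σ.a ∪ J '' (σ.a ∩ Ico β0 β1) ∧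
      τ.Φ = σ.Φ ∪ J '' (σ.Φ ∩ Ico β0 β1) ∧ τ.Γ = σ.Γ ∪ Γ1 ∧ T ⊆ τ.s := by
  have hc : Cls (σ.a ∪ J '' (σ.a ∩ Ico β0 β1)) (σ.Φ ∪ J '' (σ.Φ ∩ Ico β0 β1)) (σ.Γ ∪ Γ1)
      (AmC σ β0 β1 α J) :=
    ⟨σ.cls.ac.union ((σ.cls.ac.mono inter_subset_left).image _),
      union_subset σ.cls.top (by rintro _ ⟨γ, hγ, rfl⟩; exact (h.up γ hγ).2),
      union_subset_union σ.cls.sub (image_mono (inter_subset_inter_left _ σ.cls.sub)),
      σ.cls.Γc.union h2,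
      fun γ hγ => hγ.elim (fun h4 => (σ.cls.prm γ h4).mono subset_union_left) fun h4 => (h3 γ h4).1,
      fun _ hm => hm.1, amC_mem h σ.cls.one, amC_mix h, amC_box h, amC_prom h h3⟩
  obtain ⟨τ, a1, a2, a3, a4, -⟩ := hc.hull (σ.sc.union hT) (union_subset (amC_mem h) hs)
  exact ⟨τ, ⟨a1 ▸ subset_union_left, a2 ▸ subset_union_left, a3 ▸ subset_union_left,
    subset_union_left.trans a4⟩, a1, a2, a3, subset_union_right.trans a4⟩

end Pool.Agent.B8N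
end

-- merged part: Pool.Agent.Work.MP_b8a914_gt.N.Thin
section
/-! Thinning a frame at one coordinate. -/

set_option linter.unusedSectionVars false

namespace Pool.Agent.B8N
open Filter Topology Function Set Pool.Agent.B8F

/-- all late running sums of a thinned branch lie in the chosen intervals (`dm0Th_gd`, compare
`dm0_main`) -/
theorem dm0_all {σ : (ℕ → ℕ) → ℕ → ℕ} (hσ : Sec σ) {B : Set ℕ} (hB : B.Infinite) {η : ℕ → ℕ}
    (hη : StrictMono η) (y : ℕ → ℕ) : ∃ i0, ∀ i, i0 ≤ i → ∃ k,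
      dm0Pi σ (η k) ≤ zf (σ (dm0Th σ B η y)) i ∧ zf (σ (dm0Th σ B η y)) i < dm0Pi σ (η k + 1) := by
  classical
  have hw := dm0Th_gd hσ hB η y
  generalize dm0Th σ B η y = w at hw ⊢
  refine ⟨dm0len σ w 0, fun i hi => ?_⟩
  have hm : StrictMono (dm0len σ w) := strictMono_nat_of_lt_succ (dm0len_lt hσ w)
  have hz : ∀ n j, j < dm0len σ w (n + 1) → zf (σ (dm0tp w n (w n))) j = zf (σ w) j :=
    fun n j hj => dm0_zf_congr (dm0len_spec hσ w (n + 1) _ _ (dm0tp_self w n) .rfl').1 hj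
  have hex : ∃ n, i < dm0len σ w (n + 1) := ⟨i, hm.id_le (i + 1)⟩
  obtain ⟨n, hn1, hn2⟩ : ∃ n, dm0len σ w n ≤ i ∧ i < dm0len σ w (n + 1) := by
    refine ⟨Nat.find hex, ?_, Nat.find_spec hex⟩
    rcases h : Nat.find hex with _ | n
    · exact hi
    · exact not_lt.1 (Nat.find_min hex (by omega))
  obtain ⟨⟨k, h1, h2⟩, -⟩ := hw n
  rw [dm0eta_eq hη] at h1 h2
  rw [hz n _ (dm0len_lt hσ w n)] at h1
  refine ⟨k, h1.trans ((zf_mono _).monotone hn1), ?_⟩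
  unfold dm0top at h2
  rw [dm0len_congr σ (dm0tp_self w n)] at h2
  rw [← hz n _ hn2]
  exact ((zf_mono _).monotone hn2.le).trans_lt h2

theorem dm0_key {σ : (ℕ → ℕ) → ℕ → ℕ} (hσ : Sec σ) {B : Set ℕ} (hB : B.Infinite) (η : ℕ → ℕ)
    (y : ℕ → ℕ) : KeyP (zf (σ (dm0Th σ B η y))) B (dm0Pi σ) η :=
  ⟨dm0Pi_mono σ, fun hη => ⟨_, fun i hi hb => dm0_main hσ hη (dm0Th_gd hσ hB η y) i hi hb⟩⟩

/-- indices of intervals of `P` that are far apart with respect to `h` -/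
def far (P h : ℕ → ℕ) : ℕ → ℕ
  | 0 => 0
  | j + 1 => far P h j + 2 + (Finset.range (P (far P h j + 1))).sup h

theorem far_mono (P h : ℕ → ℕ) : StrictMono (far P h) :=
  strictMono_nat_of_lt_succ fun j => by rw [far]; omega

theorem cont_far : Continuous fun q : (ℕ → ℕ) × (ℕ → ℕ) => far q.1 q.2 := by
  refine cont_seq.2 fun q0 j => ?_
  induction j with
  | zero => exact Eventually.of_forall fun _ => rfl
  | succ j ih =>
    filter_upwards [ih, cont_seq.1 continuous_fst q0 (far q0.1 q0.2 j + 1),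
      ev_ag (x := fun q : (ℕ → ℕ) × (ℕ → ℕ) => q.2) (y := fun _ => q0.2)
        (q0.1 (far q0.1 q0.2 j + 1)) fun i _ => cont_seq.1 continuous_snd q0 i] with q a b c
    rw [far, far, a, b]
    exact congrArg _ (Finset.sup_congr rfl fun i hi => c i (Finset.mem_range.1 hi))

theorem thin_far {P h : ℕ → ℕ} (hP : StrictMono P) {j j' n a b : ℕ} (hj : j < j')
    (h1 : n ≤ a) (h2 : a < P (far P h j + 1)) (h3 : P (far P h j') ≤ b) (h4 : b ≤ h n) :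
    False := by
  have e1 : h n ≤ (Finset.range (P (far P h j + 1))).sup h :=
    Finset.le_sup (f := h) (Finset.mem_range.2 (h1.trans_lt h2))
  have e2 : far P h (j + 1) ≤ far P h j' := (far_mono P h).monotone hj
  have e3 : far P h j' ≤ P (far P h j') := hP.id_le _
  rw [far] at e2
  omega

/-- if `n` is large and both `[n, h n]` hold running sums, these lie in intervals with different
indices `far P h j`, `far P h j'`, `j < j'`, and `h n < far P h (j + 1) ≤ P (far P h j')` -/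
theorem far_gap {P h y0 y1 : ℕ → ℕ} (hP : StrictMono P)
    (h0 : ∃ i0, ∀ i, i0 ≤ i → ∃ k, P (far P h (2 * k)) ≤ zf y0 i ∧
      zf y0 i < P (far P h (2 * k) + 1))
    (h1 : ∃ i0, ∀ i, i0 ≤ i → ∃ k, P (far P h (2 * k + 1)) ≤ zf y1 i ∧
      zf y1 i < P (far P h (2 * k + 1) + 1)) :
    ∃ n0, ∀ n, n0 ≤ n → Gap y0 n (h n) ∨ Gap y1 n (h n) := by
  obtain ⟨i0, h0⟩ := h0
  obtain ⟨i1, h1⟩ := h1
  refine ⟨zf y0 i0 + zf y1 i1, fun n hn => ?_⟩
  by_contra hc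
  rw [not_or] at hc
  obtain ⟨i, hi⟩ := not_forall.1 hc.1
  obtain ⟨i', hi'⟩ := not_forall.1 hc.2
  obtain ⟨a1, a2⟩ := not_not.1 hi
  obtain ⟨b1, b2⟩ := not_not.1 hi'
  obtain ⟨k, c1, c2⟩ := h0 i ((zf_mono y0).le_iff_le.1 (by omega))
  obtain ⟨k', d1, d2⟩ := h1 i' ((zf_mono y1).le_iff_le.1 (by omega))
  rcases lt_or_ge (2 * k) (2 * k' + 1) with e | e
  · exact thin_far hP e a1 c2 d1 b2
  · exact thin_far hP (by omega : 2 * k' + 1 < 2 * k) b1 d2 c1 a2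

variable {I : Type} [LinearOrder I] [WellFoundedLT I]

theorem cont_Pi {Q : Fr I} (hQ : IsMi Q) (α : I) :
    Continuous fun u => dm0Pi (Cond3_sig Q α u) :=
  cont_seq.2 fun z0 k => dm0_ev_Pi (Cond3_sig_sec hQ α z0)
    (fun y i => cont_seq.1 (Cond3_sig_cont hQ α y) z0 i) k

/-- `T v = update v α (dm0Th (Cond3_sig Q α v) B (η v) (v α))`; compare the frame `T` in
`B8F.key_dense`; `Big` holds as `dm0Th_eq` is a value of `Nat.nth` -/
theorem thin_at {a : Set I} (ha : a.Countable) {Q : Fr I} (hQ : Gd a Q) {α : I} (hα : α ∈ a)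
    {B : Set ℕ} (hB : B.Infinite) {η : Pt I → ℕ → ℕ} (h1 : Continuous η)
    (h2 : DepOn (a ∩ Iio α) η) :
    ∃ q, Gd a q ∧ (∀ β, Le β q Q) ∧ (∀ v, AgB α (q v) (Q v)) ∧
      ∀ v, q v α = Cond3_sig Q α v (dm0Th (Cond3_sig Q α v) B (η v) (v α)) := by
  have hp := hQ.mi
  have eσ : ∀ {u v}, AgB α u v → Cond3_sig Q α u = Cond3_sig Q α v :=
    fun huv => Cond3_sig_agB hp huv
  have eη : ∀ {u v}, AgB α u v → η u = η v := fun huv => h2 _ _ fun γ hγ => huv γ hγ.2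
  let t : Pt I → ℕ → ℕ := fun v => dm0Th (Cond3_sig Q α v) B (η v) (v α)
  have ht : Continuous t := by
    refine cont_seq.2 fun v0 n => ?_
    have := dm0_ev_N (F := 𝓝 v0) (σ := fun v => Cond3_sig Q α v) (η := η) (y := fun v => v α)
      (Cond3_sig_sec hp α v0) (fun y i => cont_seq.1 (Cond3_sig_cont hp α y) v0 i)
      (fun i => cont_seq.1 h1 v0 i) hB (fun i => cont_seq.1 (continuous_apply α) v0 i) (n + 1)
    exact this.mono fun q hq => congrFun hq n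
  let T : Pt I → Pt I := fun v => update v α (t v)
  have Tα : ∀ v, T v α = t v := fun v => update_self _ _ _
  have Tne : ∀ v {γ}, γ ≠ α → T v γ = v γ := fun v _ hγ => update_of_ne hγ _ _
  have hS : Supp a T := by
    refine ⟨fun u γ hγ => Tne u fun e => hγ (e ▸ hα), fun u v huv γ hγ => ?_⟩
    by_cases hβ : γ = α
    · subst hβ
      rw [Tα, Tα]
      show dm0Th _ B _ _ = dm0Th _ B _ _
      rw [Cond3_sig_dep hp hQ.supp γ u v fun γ' h' => huv γ' h'.1,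
        h2 u v fun γ' h' => huv γ' h'.1, huv γ hγ]
    · rw [Tne u hβ, Tne v hβ, huv γ hγ]
  have hL : ∀ β u n, IsLen T β u n n := by
    intro β u n
    by_cases hβ : β = α
    · subst hβ
      intro v v' b1 b2 d e
      rw [Tα, Tα]
      show Ag n (dm0Th _ B _ _) (dm0Th _ B _ _) ∧ (dm0Th _ B _ _ n = dm0Th _ B _ _ n ↔ _)
      rw [eσ b1, eη b1, eσ b2, eη b2]
      have h := d.trans e.symm
      constructor
      · have h3 := dm0N_ag (Cond3_sig Q β u) B (η u) (v β) n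
        rw [dm0N_congr _ B _ n h] at h3
        exact h3.symm.trans (dm0N_ag _ B _ (v' β) n)
      · rw [dm0Th_eq, dm0Th_eq, dm0N_congr _ B _ n h]
        exact (Nat.nth_injective (dm0Gd_inf (Cond3_sig_sec hp β u) hB _ _ n)).eq_iff
    · exact isLen_id (fun v => Tne v hβ) u n
  have hT : IsMi T := by
    refine ⟨continuous_id.update α ht, fun β u v huv => ?_, ⟨a, ha, hS⟩,
      fun β u n => ⟨n, hL β u n⟩⟩
    by_cases hβ : β = α
    · subst hβ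
      have b : AgB β u v := fun γ hγ => huv γ hγ.le
      rw [Tα, Tα]
      show dm0Th _ B _ _ = dm0Th _ B _ _
      rw [eσ b, eη b, huv β le_rfl]
    · rw [Tne u hβ, Tne v hβ, huv β le_rfl]
  have hB' : Big T := by
    intro β u n l hl
    rw [hl.unique (hL β u n)]
    by_cases hβ : β = α
    · subst hβ
      rw [Tα]
      show _ ≤ dm0Th _ B _ _ n
      rw [dm0Th_eq]
      exact (Nat.nth_strictMono (dm0Gd_inf (Cond3_sig_sec hp β u) hB _ _ n)).id_le _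
    · rw [Tne u hβ]
  exact ⟨Q ∘ T, hQ.comp ⟨hT, hS, hB'⟩, fun β => le_comp Q T,
    fun v => hp.agB (agB_update v (t v)), fun _ => rfl⟩

end Pool.Agent.B8N
end

-- merged part: Pool.Agent.Work.MP_b8a914_gt.N.Key
section
/-! Reflection at a closure point. -/

set_option linter.unusedSectionVars false

namespace Pool.Agent.B8N
open Filter Topology Function Set Pool.Agent.B8F

variable {I : Type} [LinearOrder I] [OrderTop I] [WellFoundedLT I]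

/-- Every condition has a copy below `α` whose extensions below `α` amalgamate with it.  Take
`β0 < α` above `r.a ∩ Iio α`, `room` for `r.a ∩ Ici α`, `e` = identity below `α`, `exists_copy`,
the frame of the copy from `Cls.res β0 (push r.a e r.p)`.  For the amalgam `J` is the inverse of
`e` on `Ico β0 β1` and the identity elsewhere, `Γ1 = r.Γ`, `T = r.s ∪ {t}` with `t` from
`exists_am` for `r''.p` and `push r.a e m`. -/
theorem reflect {α : I} (cof : ∀ s : Set I, s.Countable → s ⊆ Iio α → ∃ β < α, ∀ γ ∈ s, γ < β)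
    (r : CN I) : ∃ rb : CN I, rb.a ⊆ Iio α ∧ rb.A = r.A ∧ (∀ x, In ⊤ rb.p x ↔ In α r.p x) ∧
      (∀ r0 : CN I, r ≤ r0 → r0.a ⊆ Iio α → rb ≤ r0) ∧
      ∀ r'', r'' ≤ rb → r''.a ⊆ Iio α → ∀ m ∈ r.s, Le α r.p m →
        ∃ q : CN I, q ≤ r'' ∧ SLe q.toSys r.toSys ∧ Le ⊤ q.p m := by
  classical
  obtain ⟨β0, h0, hβ0⟩ := cof (r.a ∩ Iio α) (r.cls.ac.mono inter_subset_left) inter_subset_right
  obtain ⟨e0, β1, b01, b1α, hm0, him⟩ :=
    room h0 cof (c := r.a ∩ Ici α) (r.cls.ac.mono inter_subset_left)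
  let e : I → I := fun γ => if γ < α then γ else e0 γ
  have elo : ∀ γ < α, e γ = γ := fun γ hγ => if_pos hγ
  have ehi : ∀ γ, ¬ γ < α → e γ = e0 γ := fun γ hγ => if_neg hγ
  have eI : ∀ γ ∈ r.a, ¬ γ < α → e γ ∈ Ico β0 β1 := fun γ h1 h2 => by
    rw [ehi γ h2, ← him]; exact ⟨γ, ⟨h1, not_lt.1 h2⟩, rfl⟩
  have c0 : ∀ γ ∈ r.a, γ < α ↔ e γ < β0 := fun γ h1 =>
    ⟨fun h2 => by rw [elo γ h2]; exact hβ0 γ ⟨h1, h2⟩,
      fun h2 => by_contra fun h3 => (eI γ h1 h3).1.not_gt h2⟩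
  have e1 : ∀ γ ∈ r.a, e γ < β1 := fun γ h1 => by
    by_cases h2 : γ < α
    · exact ((c0 γ h1).1 h2).trans_le b01
    · exact (eI γ h1 h2).2
  have c1 : ∀ γ ∈ r.a, γ < ⊤ ↔ e γ < β1 := fun γ h1 =>
    ⟨fun _ => e1 γ h1, fun _ => r.cls.top h1⟩
  have em : StrictMonoOn e r.a := fun γ h1 γ' h2 h3 => by
    by_cases h4 : γ' < α
    · rwa [elo γ' h4, elo γ (h3.trans h4)]
    · by_cases h5 : γ < α
      · exact ((c0 γ h1).1 h5).trans_le (eI γ' h2 h4).1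
      · rw [ehi γ h5, ehi γ' h4]
        exact hm0 ⟨h1, not_lt.1 h5⟩ ⟨h2, not_lt.1 h4⟩ h3
  obtain ⟨τ, ta, tΦ, tΓ, ts⟩ := exists_copy r.toSys em
    fun γ hγ => (e1 γ hγ).trans_le (b1α.trans le_top)
  have pm : ∀ m ∈ r.s, push r.a e m ∈ τ.s := fun m hm => ts ▸ mem_image_of_mem _ hm
  have lo : ∀ m ∈ r.s, ∀ x, In β0 (push r.a e m) x ↔ In α m x := fun m hm x => by
    have a1 : AgB α (x ∘ e) x := fun γ hγ => congrArg x (elo γ hγ)
    exact (in_push em.injOn (r.cls.gd m hm).supp c0 x).trans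
      ⟨fun h => h.congr a1, fun h => h.congr a1.symm⟩
  have rs : ∀ m ∈ r.s, ∃ t ∈ τ.s, ∀ x, In ⊤ t x ↔ In α m x := fun m hm =>
    let ⟨t, h1, h2⟩ := τ.cls.res β0 (pm m hm); ⟨t, h1, fun x => (h2 x).trans (lo m hm x)⟩
  obtain ⟨t0, t0s, ht0⟩ := rs r.p r.pm
  refine ⟨⟨τ, r.A, r.inf, t0, t0s⟩, ?_, rfl, ht0, fun r0 h1 h2 => ?_, fun r'' h1 h2 m hm hl => ?_⟩
  · show τ.a ⊆ Iio α
    rw [ta]
    rintro _ ⟨γ, hγ, rfl⟩
    exact (e1 γ hγ).trans_le b1α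
  · have eid : ∀ γ ∈ r0.a, e γ = γ := fun γ hγ => elo γ (h2 hγ)
    refine ⟨h1.1, ⟨fun γ hγ => ?_, fun γ hγ => ?_, fun γ hγ => ?_, fun m hm => ?_⟩, fun v => ?_⟩
    · exact ta ▸ ⟨γ, h1.2.1.1 hγ, eid γ hγ⟩
    · exact tΦ ▸ ⟨γ, h1.2.1.2.1 hγ, eid γ (r0.cls.sub hγ)⟩
    · exact tΓ ▸ ⟨γ, h1.2.1.2.2.1 hγ, pushP_eq (r0.cls.prm γ hγ) eid⟩
    · exact ts ▸ ⟨m, h1.2.1.2.2.2 hm, push_eq em.injOn (r0.cls.gd m hm).supp h1.2.1.1 eid⟩
    · exact In.up r0.gd.mi r0.gd.supp (((ht0 _).1 .self).le (h1.2.2.mono le_top))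
        fun γ hγ _ => h2 hγ
  · have hex : ∀ δ ∈ Ico β0 β1, ∃ γ ∈ r.a ∩ Ici α, e0 γ = δ := fun δ hδ => by
      rwa [← him] at hδ
    let J : I → I := fun δ => if h : δ ∈ Ico β0 β1 then (hex δ h).choose else δ
    have Jin : ∀ δ ∈ Ico β0 β1, J δ ∈ r.a ∩ Ici α ∧ e0 (J δ) = δ := fun δ hδ => by
      have a1 : J δ = (hex δ hδ).choose := dif_pos hδ
      rw [a1]; exact (hex δ hδ).choose_spec
    have Jlo : ∀ δ < β0, J δ = δ := fun δ hδ => dif_neg fun h => h.1.not_gt hδ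
    have Je : ∀ γ ∈ r.a, J (e γ) = γ := fun γ hγ => by
      by_cases h3 : γ < α
      · rw [Jlo _ ((c0 γ hγ).1 h3), elo γ h3]
      · have a1 := Jin _ (eI γ hγ h3)
        exact hm0.injOn a1.1 ⟨hγ, not_lt.1 h3⟩ (a1.2.trans (ehi γ h3))
    have sa : ∀ γ ∈ r.a, e γ ∈ r''.a := fun γ hγ => h1.2.1.1 (ta ▸ mem_image_of_mem e hγ)
    have hA : AmD r''.a β0 β1 α J := by
      refine ⟨r''.cls.ac, b01, b1α, h2, Jlo, fun δ hδ δ' hδ' h3 => ?_, fun δ hδ => ?_⟩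
      · have a1 := Jin δ hδ.2
        have a2 := Jin δ' hδ'.2
        refine (hm0.lt_iff_lt a1.1 a2.1).1 ?_
        rwa [a1.2, a2.2]
      · exact ⟨(Jin δ hδ.2).1.2, r.cls.top (Jin δ hδ.2).1.1⟩
    have un : ∀ {X X' : Set I}, X ⊆ r.a → (∀ γ ∈ X, e γ ∈ X') →
        X ⊆ X' ∪ J '' (X' ∩ Ico β0 β1) := fun hX hX' γ hγ => by
      by_cases h3 : γ < α
      · exact Or.inl (elo γ h3 ▸ hX' γ hγ)
      · exact Or.inr ⟨e γ, ⟨hX' γ hγ, eI γ (hX hγ) h3⟩, Je γ (hX hγ)⟩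
    have aa := un Subset.rfl sa
    have hi : ∀ m ∈ r.s, ∀ z, In β1 (push r.a e m) (z ∘ J) ↔ In ⊤ m z := fun m hm z => by
      have a1 : ∀ γ ∈ r.a, ((z ∘ J) ∘ e) γ = z γ := fun γ hγ => congrArg z (Je γ hγ)
      exact (in_push em.injOn (r.cls.gd m hm).supp c1 _).trans
        ⟨fun h => In.dep (r.cls.gd m hm).supp h fun γ hγ _ => a1 γ hγ,
          fun h => In.dep (r.cls.gd m hm).supp h fun γ hγ _ => (a1 γ hγ).symm⟩
    have ss : τ.s ⊆ r''.s := h1.2.1.2.2.2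
    have hl0 : Le β0 r''.p (push r.a e m) := fun v =>
      (lo m hm _).2 (((ht0 _).1 (h1.2.2 v)).le hl)
    obtain ⟨t, tg, tam⟩ := exists_am hA r''.gd (r''.cls.gd _ (ss (pm m hm))) hl0
    obtain ⟨τ2, s1, s2, s3, s4, s5⟩ := amalg (σ := r''.toSys) hA (Γ1 := r.Γ) r.cls.Γc
      (fun γ hγ => by
        have a1 := r.cls.prm γ hγ
        refine ⟨a1.mono aa, pushP e γ, h1.2.1.2.2.1 (tΓ ▸ mem_image_of_mem _ hγ), e1 _ a1.1,
          (Je _ a1.1).symm, fun k n z y => ?_⟩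
        exact (a1.2.2 k n y z ((z ∘ J) ∘ e) fun δ hδ => (congrArg z (Je δ hδ.1)).symm).to_iff)
      (T := insert t r.s) (r.sc.insert t) (by
        rintro m' (rfl | hm')
        · exact ⟨tg, r''.p, r''.pm, _, ss (pm m hm), hl0, tam⟩
        · obtain ⟨t', a1, a2⟩ := rs m' hm'
          refine ⟨(r.cls.gd m' hm').mono aa, t', ss a1, _, ss (pm m' hm'),
            fun v => (lo m' hm' _).2 ((a2 _).1 .self), fun z => ?_⟩
          rw [hi m' hm' z]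
          exact ⟨fun h => ⟨((a2 z).2 (h.mono le_top)).mono le_top, h⟩, And.right⟩)
    refine ⟨⟨τ2, r''.A, r''.inf, t, s5 (mem_insert _ _)⟩, CN.le_of Subset.rfl s1 fun v => ?_,
      ⟨s2 ▸ aa, s3 ▸ un r.cls.sub fun γ hγ => h1.2.1.2.1 (tΦ ▸ mem_image_of_mem e hγ),
        s4 ▸ subset_union_right, (subset_insert _ _).trans s5⟩, fun v => ?_⟩
    · exact In.up r''.gd.mi r''.gd.supp ((tam _).1 .self).1 fun γ hγ _ => h2 hγ
    · exact (hi m hm _).1 ((tam _).1 .self).2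

/-- `grow_supp` by `{α}`, `exists_seal` gives `Q`, three thinnings `thin_at` with
`η = fun _ k => 3 * k + ε`, add `Q` and them, `reflect`, the code is
`(res α Q, fun u => dm0Pi (Cond3_sig Q α u))`; compare `B8F.key_dense` -/
theorem key_dense {Fc : CN I → VC I → ℕ → Prop}
    (hm : ∀ r r' c ε, Fc r c ε → r' ≤ r → Fc r' c ε) {r0 : CN I} {α : I} (h : CP Fc r0 α)
    {r : CN I} (hr : r ≤ r0) {B : Set ℕ} (hB : B.Infinite) :
    ∃ r', r' ≤ r ∧ ∃ c ε, Nice ⊤ c ∧ Le ⊤ r'.p c.1 ∧ Fc r' c ε ∧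
      ∀ v w, AgB ⊤ (c.1 w) (r'.p v) → KeyP (zf (r'.p v α)) B (c.2 w) fun k => 3 * k + ε := by
  obtain ⟨r1, l1, -, -, a1⟩ := grow_supp r (countable_singleton α) (singleton_subset_iff.2 h.lt)
  have hα : α ∈ r1.a := a1 ▸ Or.inr rfl
  obtain ⟨Q, hQ, lQ, -, hadd⟩ := exists_seal r1.toSys r1.pm (fun _ => univ)
    fun _ m hm' _ => ⟨m, trivial, hm', .rfl'⟩
  have hp := hQ.mi
  choose q q1 q2 q3 q4 using fun ε : ℕ => thin_at r1.cls.ac hQ hα hB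
    (η := fun _ k => 3 * k + ε) continuous_const fun _ _ _ => rfl
  obtain ⟨τ, t1, -, -, -, t5⟩ := hadd (insert Q (range q)) ((countable_range q).insert Q) (by
    rintro _ (rfl | ⟨ε, rfl⟩)
    · exact ⟨hQ, .rfl'⟩
    · exact ⟨q1 ε, q2 ε ⊤⟩)
  let r2 : CN I := ⟨τ, r1.A, r1.inf, Q, t5 (mem_insert _ _)⟩
  have l2 : r2 ≤ r := (CN.le_of (r' := r2) (r := r1) Subset.rfl t1 lQ).trans l1
  obtain ⟨rb, b1, b2, b3, b4, b5⟩ := reflect h.cof r2
  let c : VC I := (res α Q, fun u => dm0Pi (Cond3_sig Q α u))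
  have hc : Nice α c := ⟨hp.res α, cont_Pi hp α, r1.a ∩ Iio α, r1.cls.ac.mono inter_subset_left,
    inter_subset_right, hp.supp_res hQ.supp α,
    fun u v huv => congrArg dm0Pi (Cond3_sig_dep hp hQ.supp α u v huv)⟩
  have lc : Le ⊤ rb.p c.1 := fun v => (in_res hp le_top _).2 ((b3 _).1 .self)
  obtain ⟨r'', d1, d2, ε, -, d3⟩ := h.cl rb (b4 r0 (l2.trans hr) h.sub) b1 c hc lc
  obtain ⟨r', f1, f2, f3⟩ := b5 r'' d1 d2 (q ε) (t5 (Or.inr ⟨ε, rfl⟩)) fun v => ⟨v, q3 ε v⟩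
  have f4 : r' ≤ rb := f1.trans d1
  have f5 : r' ≤ r2 := ⟨b2 ▸ f4.1, f2, f3.trans (q2 ε ⊤)⟩
  refine ⟨r', f5.trans l2, c, ε, hc.mono le_top, f4.2.2.trans lc, hm _ _ _ _ d3 f1,
    fun v w e1 => ?_⟩
  obtain ⟨u, hu⟩ := f3 v
  have e2 : c.2 w = dm0Pi (Cond3_sig Q α u) := congrArg dm0Pi (Cond3_sig_agB hp (hp.inj
    ((res_agB α Q w).symm.trans ((e1.mono le_top).trans
      ((hu.mono le_top).symm.trans (q3 ε u))))))
  rw [e2, ← hu α h.lt, q4]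
  exact dm0_key (Cond3_sig_sec hp α u) hB _ _

end Pool.Agent.B8N
end

-- merged part: Pool.Agent.Work.MP_b8a914_gt.N.Ex
section
/-! Density arguments for the example. -/

set_option linter.unusedSectionVars false

namespace Pool.Agent.B8N
open Filter Topology Function Set Pool.Agent.B8F Pool.Agent.B8P

section
variable {I : Type} [LinearOrder I] [OrderTop I]

/-- the promise for the covers read off the code `c`, to be kept with the help of `β` -/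
def prm (c : VC I) (β : I) : Prm I :=
  (β, fun n e => {q | (∃ k, wd q.2 k = e) ∧
    ∀ᶠ x in 𝓝 q.1, ∀ w, AgB ⊤ (c.1 w) x → c.2 w (pr2 n e) = 1})

theorem prm_O {c : VC I} {β φ : I} {x w : Pt I} (hw : AgB ⊤ (c.1 w) x)
    (h : Oset (prm c β) φ x) :
    ∃ n k, wd (x φ) k ≤ x β n ∧ c.2 w (pr2 n (wd (x φ) k)) = 1 := by
  obtain ⟨n, e, h1, ⟨k, rfl⟩, h2⟩ := h
  exact ⟨n, k, h1, h2.self_of_nhds w hw⟩

variable [WellFoundedLT I]

/-- the inverse of `c.1` is continuous on the range (`IsMi.ev_inv` or `proj_open` with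
`IsMi.inj`) -/
theorem prm_C {c : VC I} (hc : Nice ⊤ c) {β φ : I} {x w : Pt I} (hw : AgB ⊤ (c.1 w) x) {n : ℕ}
    (h : Cset (prm c β) φ n x) (k : ℕ) : c.2 w (pr2 n (wd (x φ) k)) ≠ 1 := by
  intro e
  refine h (wd (x φ) k) ⟨⟨k, rfl⟩, ?_⟩
  have h1 : ∀ᶠ w' in 𝓝 w, c.2 w' (pr2 n (wd (x φ) k)) = 1 :=
    (cont_seq.1 hc.2.1 w (pr2 n (wd (x φ) k))).mono fun w' h' => h'.trans e
  have h2 := proj_open hc.1 ⊤ h1
  have h3 : ∀ᶠ x' in 𝓝 (c.1 w), ∀ w', AgB ⊤ (c.1 w') x' → c.2 w' (pr2 n (wd (x φ) k)) = 1 :=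
    h2.mono fun x' h' w' hw' => by
      obtain ⟨w'', a, b⟩ := h' ⟨w', hw'⟩
      rw [hc.dep (hc.1.inj (hw'.trans a.symm))]
      exact b
  refine ev_dep (a := Iio ⊤) (fun u v huv => propext ⟨fun a w' b => a w' ?_, fun a w' b => a w' ?_⟩)
    h3 hw
  · exact b.trans fun γ hγ => (huv γ hγ).symm
  · exact b.trans huv

omit [WellFoundedLT I] in
theorem Ex_dep {c : VC I} {s : Set I} (h1 : Supp s c.1) (h2 : DepOn s c.2) (j : ℕ) :
    DepOn s fun x => ∀ w, AgB ⊤ (c.1 w) x → c.2 w j = 1 := by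
  classical
  have key : ∀ x x' : Pt I, (∀ γ ∈ s, x γ = x' γ) → (∀ w, AgB ⊤ (c.1 w) x → c.2 w j = 1) →
      ∀ w, AgB ⊤ (c.1 w) x' → c.2 w j = 1 := by
    intro x x' e h w' hw'
    let w : Pt I := fun γ => if γ ∈ s then w' γ else x γ
    have a : ∀ γ ∈ s, w γ = w' γ := fun γ hγ => if_pos hγ
    rw [← h2 w w' a]
    refine h w fun γ hγ => ?_
    by_cases b : γ ∈ s
    · rw [h1.2 w w' a γ b, hw' γ hγ, e γ b]
    · rw [h1.1 w γ b]
      exact if_neg b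
  exact fun u v huv => propext ⟨key u v huv, key v u fun γ hγ => (huv γ hγ).symm⟩

theorem Ex_wd (e : ℕ) : IsOpen {y : ℕ → ℕ | ∃ k, wd y k = e} := by
  refine isOpen_iff_eventually.2 fun y hy => ?_
  obtain ⟨k, hk⟩ := hy
  have h1 : ∀ᶠ y' in 𝓝 y, Ag k y' y :=
    ev_ag k fun i _ => tendsto_seq.1 (tendsto_id (x := 𝓝 y)) i
  exact h1.mono fun y' h' => ⟨k, (wd_congr h').trans hk⟩

/-- `dep_ev` -/
theorem prm_ok {c : VC I} {s a : Set I} {β : I} (h1 : Supp s c.1) (h2 : DepOn s c.2)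
    (h3 : s ⊆ a ∩ Iio β) (hβ : β ∈ a) : PrmOK a (prm c β) := by
  refine ⟨hβ, fun n e => ?_, fun n e y => ?_⟩
  · exact ((Ex_wd e).preimage continuous_snd).inter
      ((isOpen_setOfPred_eventually_nhds (p := fun x : Pt I =>
        ∀ w, AgB ⊤ (c.1 w) x → c.2 w (pr2 n e) = 1)).preimage continuous_fst)
  · intro u v huv
    have := (dep_ev (Ex_dep h1 h2 (pr2 n e))).mono h3 u v huv
    exact congrArg (fun t : Prop => (∃ k, wd y k = e) ∧ t) this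

end

/-- `grow` by the support of `c` and a new coordinate above everything (`exists_bound`) -/
theorem men_dense {c : VC II} (hc : Nice ⊤ c) (r : CN II) :
    ∃ r', r' ≤ r ∧ ∃ β, prm c β ∈ r'.Γ := by
  obtain ⟨-, -, s, hs, hs', h1, h2⟩ := hc
  obtain ⟨β, hβ, hb⟩ := exists_bound (r.cls.ac.union hs)
  obtain ⟨τ, a1, -, -, a4⟩ := grow r.toSys (b := insert β s) (Φ1 := ∅) (Γ1 := {prm c β})
    (hs.insert β) (insert_subset hβ hs') (empty_subset _) (countable_singleton _) (by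
      rintro _ rfl
      refine ⟨prm_ok h1 h2 (fun γ hγ => ⟨Or.inr (mem_insert_of_mem _ hγ),
        hb γ (Or.inr hγ) (hs' hγ)⟩) (Or.inr (mem_insert _ _)), fun h => ?_, fun h => h⟩
      exact lt_irrefl β (hb β (Or.inl h) hβ))
  refine ⟨⟨τ, r.A, r.inf, r.p, a1.2.2.2 r.pm⟩, CN.le_of Subset.rfl a1 .rfl', β, ?_⟩
  show prm c β ∈ τ.Γ
  rw [a4]
  exact Or.inr rfl

/-- `grow` by a new point, then a box -/
theorem big_dense (r : CN II) (k : ℕ) :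
    ∃ r', r' ≤ r ∧ ∃ φ ∈ r'.Φ, ∀ v, r'.p v φ 0 = k := by
  obtain ⟨φ, hφ, hb⟩ := exists_bound r.cls.ac
  have hn : φ ∉ r.a := fun h => lt_irrefl φ (hb φ h hφ)
  obtain ⟨τ, a1, a2, a3, -⟩ := grow r.toSys (b := {φ}) (Φ1 := {φ}) (Γ1 := ∅)
    (countable_singleton _) (singleton_subset_iff.2 hφ) (singleton_subset_iff.2 ⟨rfl, hn⟩)
    countable_empty fun _ h => h.elim
  obtain ⟨m, h1, h2, h3⟩ := τ.cls.box r.p (a1.2.2.2 r.pm) {(φ, 0, k)}
    (fun t ht => by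
      rw [Finset.mem_singleton.1 ht, a2]
      exact Or.inr rfl)
    ⟨fun _ _ => k, fun t ht => by
      rw [Finset.mem_singleton.1 ht]
      show r.p _ φ 0 = k
      rw [r.gd.supp.1 _ φ hn]⟩
  refine ⟨⟨τ, r.A, r.inf, m, h1⟩, CN.le_of Subset.rfl a1 h2, φ, ?_,
    fun v => h3 v _ (Finset.mem_singleton_self _)⟩
  show φ ∈ τ.Φ
  rw [a3]
  exact Or.inr rfl

/-- the value of a code supported below `α`, read off a frame below it -/
theorem Ex_fac {c : VC II} (hc : IsMi c.1) {s a : Set II} {α : II} (h1 : Supp s c.1)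
    (h2 : DepOn s c.2) (h3 : s ⊆ a ∩ Iio α) {Q : Fr II} (hQ : Gd a Q) (hl : Le ⊤ Q c.1) :
    DepOn (a ∩ Iio α) fun u => c.2 (fac ⊤ Q c.1 u) := by
  classical
  intro u v huv
  let w : Pt II := fun γ => if γ < α then u γ else v γ
  have a1 : AgB α u w := fun γ hγ => (if_pos hγ).symm
  have a2 : ∀ γ ∈ a, w γ = v γ := fun γ hγ => by
    by_cases b : γ < α
    · exact (if_pos b).trans (huv γ ⟨hγ, b⟩)
    · exact if_neg b
  refine h2 _ _ fun γ hγ => ?_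
  rw [fac_agB hQ.mi hc hl a1 γ (h3 hγ).2]
  exact (fac_supp hc hl hQ.supp (h1.mono (h3.trans inter_subset_left))).2 w v a2 γ (h3 hγ).1

/-- `grow` by the support of `c` and a new point `φ0` above everything; `exists_seal` gives `Q`;
`H u = c.2 (fac ⊤ Q c.1 u)`, `P u = dm0Pi (Cond3_sig Q φ0 u)`; two thinnings `q0`, `q1` by `thin_at`
with `B = univ`, `η u k = far (P u) (H u) (2 * k + i)`; add them; `amalg` with `β0 = φ0`,
`β1 = α = φ1 > φ0`, `J = update id φ0 φ1`, `Γ1 = ∅` and the frame `exists_am q0 q1`; `dm0_all`,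
`far_gap`. -/
theorem dom_dense {c : VC II} (hc : Nice ⊤ c) {r : CN II} (h : Le ⊤ r.p c.1) :
    ∃ r', r' ≤ r ∧ ∃ φ0 ∈ r'.Φ, ∃ φ1 ∈ r'.Φ, ∀ v w, AgB ⊤ (c.1 w) (r'.p v) →
      ∃ n0, ∀ n, n0 ≤ n → Gap (r'.p v φ0) n (c.2 w n) ∨ Gap (r'.p v φ1) n (c.2 w n) := by
  classical
  obtain ⟨hc1, hc2, s, hs, hs', h1, h2⟩ := hc
  obtain ⟨φ0, hφ0, hb0⟩ := exists_bound (r.cls.ac.union hs)
  have hn : φ0 ∉ r.a := fun h => lt_irrefl φ0 (hb0 φ0 (Or.inl h) hφ0)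
  obtain ⟨σ, a1, a2, a3, -⟩ := grow r.toSys (b := insert φ0 s) (Φ1 := {φ0}) (Γ1 := ∅)
    (hs.insert φ0) (insert_subset hφ0 hs') (singleton_subset_iff.2 ⟨mem_insert _ _, hn⟩)
    countable_empty fun _ h => h.elim
  have m0 : φ0 ∈ σ.a := by rw [a2]; exact Or.inr (mem_insert _ _)
  have f0 : φ0 ∈ σ.Φ := by rw [a3]; exact Or.inr rfl
  have hle : ∀ γ ∈ σ.a, γ ≤ φ0 := fun γ hγ => by
    have ht := σ.cls.top hγ
    rw [a2] at hγ
    rcases hγ with b | rfl | b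
    · exact (hb0 γ (Or.inl b) ht).le
    · exact le_rfl
    · exact (hb0 γ (Or.inr b) ht).le
  have hsa : s ⊆ σ.a ∩ Iio φ0 := fun γ hγ =>
    ⟨by rw [a2]; exact Or.inr (mem_insert_of_mem _ hγ), hb0 γ (Or.inr hγ) (hs' hγ)⟩
  obtain ⟨Q, hQ, hQp, -, hT⟩ := exists_seal σ (a1.2.2.2 r.pm) (fun _ => univ)
    fun _ r' hr' _ => ⟨r', mem_univ _, hr', .rfl'⟩
  have hQc : Le ⊤ Q c.1 := hQp.trans h
  let H : Pt II → ℕ → ℕ := fun u => c.2 (fac ⊤ Q c.1 u)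
  let P : Pt II → ℕ → ℕ := fun u => dm0Pi (Cond3_sig Q φ0 u)
  let F : Pt II → ℕ → ℕ := fun u => far (P u) (H u)
  have hF : Continuous F :=
    cont_far.comp ((cont_Pi hQ.mi φ0).prodMk (hc2.comp (fac_cont hQ.mi hc1 hQc)))
  have dF : DepOn (σ.a ∩ Iio φ0) F := fun u v huv =>
    congrArg₂ far (congrArg dm0Pi (Cond3_sig_dep hQ.mi hQ.supp φ0 u v huv))
      (Ex_fac hc1 h1 h2 hsa hQ hQc u v huv)
  obtain ⟨q0, g0, l0, b0, e0⟩ := thin_at σ.cls.ac hQ m0 infinite_univ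
    (η := fun u k => F u (2 * k))
    (continuous_pi fun k => (continuous_apply (2 * k)).comp hF)
    fun u v huv => funext fun k => congrFun (dF u v huv) (2 * k)
  obtain ⟨q1, g1, l1, b1, e1⟩ := thin_at σ.cls.ac hQ m0 infinite_univ
    (η := fun u k => F u (2 * k + 1))
    (continuous_pi fun k => (continuous_apply (2 * k + 1)).comp hF)
    fun u v huv => funext fun k => congrFun (dF u v huv) (2 * k + 1)
  obtain ⟨τ, c1, c2, c3, -, c5⟩ := hT {q0, q1} (toFinite _).countable (by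
    rintro _ (rfl | rfl)
    · exact ⟨g0, l0 ⊤⟩
    · exact ⟨g1, l1 ⊤⟩)
  obtain ⟨φ1, hφ1, hb1⟩ := exists_bound σ.cls.ac
  have h01 : φ0 < φ1 := hb1 φ0 m0 hφ0
  let J : II → II := update id φ0 φ1
  have J0 : J φ0 = φ1 := update_self _ _ _
  have Jl : ∀ γ < φ0, J γ = γ := fun γ hγ => update_of_ne hγ.ne _ _
  have hone : ∀ γ ∈ τ.a ∩ Ico φ0 φ1, γ = φ0 := fun γ hγ =>
    le_antisymm (hle γ (c2 ▸ hγ.1)) hγ.2.1
  have hD : AmD τ.a φ0 φ1 φ1 J :=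
    ⟨τ.cls.ac, h01.le, le_rfl, fun γ hγ => hb1 γ (c2 ▸ hγ) (τ.cls.top hγ), Jl,
      fun γ hγ γ' hγ' hlt => absurd ((hone γ hγ).trans (hone γ' hγ').symm) hlt.ne,
      fun γ hγ => by rw [hone γ hγ, J0]; exact ⟨le_rfl, hφ1⟩⟩
  have h0 : Gd τ.a q0 := c2 ▸ g0
  have h1' : Gd τ.a q1 := c2 ▸ g1
  have hl : Le φ0 q0 q1 := fun v => ⟨v, (b1 v).trans (b0 v).symm⟩
  obtain ⟨t, gt, ht⟩ := exists_am hD h0 h1' hl
  obtain ⟨ρ, d1, -, d3, -, d5⟩ := amalg hD (Γ1 := ∅) countable_empty (fun _ h => h.elim)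
    (T := {t}) (countable_singleton _) (singleton_subset_iff.2
      ⟨gt, q0, c5 (Or.inl rfl), q1, c5 (Or.inr rfl), hl, ht⟩)
  have f0' : φ0 ∈ τ.Φ := c3 ▸ f0
  refine ⟨⟨ρ, r.A, r.inf, t, d5 rfl⟩, CN.le_of Subset.rfl ((d1.trans c1).trans a1) fun v => ?_,
    φ0, d1.2.1 f0', φ1, ?_, fun v w hw => ?_⟩
  · exact ((In.up h0.mi h0.supp ((ht (t v)).1 .self).1 fun γ hγ _ => hD.sub hγ).le (l0 ⊤)).le hQp
  · show φ1 ∈ ρ.Φ
    rw [d3]
    exact Or.inr ⟨φ0, ⟨f0', le_rfl, h01⟩, J0⟩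
  · obtain ⟨⟨u0, k0⟩, u1, k1⟩ := (ht (t v)).1 .self
    have hz : AgB φ0 (t v ∘ J) (t v) := fun γ hγ => congrArg (t v) (Jl γ hγ)
    have z0 : AgB φ0 (Q u0) (t v) := (b0 u0).symm.trans (k0.mono h01.le)
    have z1 : AgB φ0 (Q u1) (t v) := ((b1 u1).symm.trans (k1.mono h01.le)).trans hz
    have hu : AgB φ0 u1 u0 := hQ.mi.inj (z1.trans z0.symm)
    have hF1 : F u1 = F u0 := dF u1 u0 fun γ hγ => hu γ hγ.2
    have hw' : c.2 w = H u0 := h2 _ _ fun γ hγ =>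
      hc1.inj ((hw.mono le_top).trans (((fac_spec hc1 hQc u0).mono le_top).trans z0).symm) γ
        (hsa hγ).2
    have y0 : t v φ0 = _ := (k0 φ0 h01).symm.trans (e0 u0)
    have y1 : t v φ1 = _ := ((congrArg (t v) J0).symm.trans (k1 φ0 h01).symm).trans (e1 u1)
    rw [Cond3_sig_agB hQ.mi hu, hF1] at y1
    show ∃ n0, ∀ n, n0 ≤ n → Gap (t v φ0) n (c.2 w n) ∨ Gap (t v φ1) n (c.2 w n)
    rw [y0, y1, hw']
    have hm : StrictMono (F u0) := far_mono _ _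
    exact far_gap (dm0Pi_mono _)
      (dm0_all (Cond3_sig_sec hQ.mi φ0 u0) infinite_univ (η := fun k => F u0 (2 * k))
        (fun i j hij => hm (by omega)) _)
      (dm0_all (Cond3_sig_sec hQ.mi φ0 u0) infinite_univ (η := fun k => F u0 (2 * k + 1))
        (fun i j hij => hm (by omega)) _)

end Pool.Agent.B8N
end

-- merged part: Pool.Agent.Work.MP_b8a914_gt.N.Gen
section
/-! The generic model. -/

namespace Pool.Agent.B8N
open Pool.Agent.Lib.ZFModel Pool.Agent.Lib.ZFModel.Name Pool.Agent.Work.MP_63c7e0_lc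
  Pool.Agent.B8F Pool.Agent.B8P

/-- the name of the value of a code -/
def genV (c : VC II) : Name (CN II) := relName (DecN c)

/-- the code of a coordinate -/
def genC (φ : II) : VC II := (id, fun w => w φ)

/-- the name of the example -/
def genY : Name (CN II) := rName (fun φ : II => genV (genC φ)) fun φ r => φ ∈ r.Φ

def GenFr (a : Name (CN II)) (r : CN II) (c : VC II) (ε : ℕ) : Prop :=
  MemF (pairN (genV c) (natN ε)) a r

def GenPh (a : Name (CN II)) (i n : ℕ) (r : CN II) : Prop := MemF (pairN (natN i) (natN n)) a r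

theorem gen_en (r : CN II) : ∃ e : ℕ → II, r.a ⊆ Set.range e := by
  obtain ⟨e, he⟩ := (r.cls.ac.insert ⊤).exists_eq_range ⟨⊤, Set.mem_insert _ _⟩
  exact ⟨e, he ▸ Set.subset_insert _ _⟩

theorem gen_cp (a : Name (CN II)) (r : CN II) : ∃ α : II, DDn (GenFr a) r → CP (GenFr a) r α := by
  by_cases h : DDn (GenFr a) r
  · obtain ⟨α, h1⟩ := exists_CP h
    exact ⟨α, fun _ => h1⟩
  · exact ⟨⊤, fun h' => absurd h' h⟩

theorem nice_C {φ : II} (h : φ < ⊤) : Nice ⊤ (genC φ) :=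
  ⟨isMi_id, continuous_apply φ, {φ}, Set.countable_singleton φ, Set.singleton_subset_iff.2 h,
    ⟨fun _ _ _ => rfl, fun _ _ h γ hγ => h γ hγ⟩, fun _ _ h => h φ rfl⟩

theorem nice_inv (r : CN II) {γ : II} (h : γ < ⊤) : Nice ⊤ ((r.p, fun w => w γ) : VC II) :=
  ⟨r.gd.mi, continuous_apply γ, insert γ r.a, r.cls.ac.insert γ, Set.insert_subset h r.cls.top,
    r.gd.supp.mono (Set.subset_insert _ _), fun _ _ h => h γ (Set.mem_insert _ _)⟩

/-- indices of the dense sets -/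
inductive GenK : Type
  | supp (n : ℕ) | inv (i : ℕ) | dec (k : ℕ) | reap | all | fin (i n : ℕ) | refl | cp
  | opt | key | zc | xc | men | dcd | big (k : ℕ) | dom
  deriving Countable

/-- the dense sets -/
def GenW0 (k : GenK) (a : Name (CN II)) (r : CN II) (c : VC II) (γ γ' : II) (q : CN II)
    (δ : II) (c2 : VC II) : Prop :=
  match k with
  | .supp n => δ = (gen_en r).choose n
  | .inv i => ∃ n, DecN (r.p, fun w => w γ) i n q
  | .dec k => ∃ n, DecN c k n q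
  | .reap => (∀ b ∈ q.A, MemF (natN b) a q) ∨ ∀ b ∈ q.A, ∀ q', q' ≤ q → ¬ MemF (natN b) a q'
  | .all => (∃ i, ∀ q', q' ≤ q → ∀ n, ¬ GenPh a i n q') ∨
      (c2.1 = q.p ∧ Nice ⊤ c2 ∧ ∀ i q', q' ≤ q → ∀ v w, AgB ⊤ (q.p w) (q'.p v) →
        ∃ q'', q'' ≤ q' ∧ GenPh a i (c2.2 w i) q'')
  | .fin i n => GenPh a i n q
  | .refl => DDn (GenFr a) q ∨ (Nice ⊤ c2 ∧ Le ⊤ q.p c2.1 ∧
      ∀ r', r' ≤ q → ∀ ε < 3, ¬ GenFr a r' c2 ε)
  | .cp => δ = (gen_cp a r).choose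
  | .opt => True
  | .key => ∃ ε, Nice ⊤ c2 ∧ Le ⊤ q.p c2.1 ∧ GenFr a q c2 ε ∧
      ∀ v w, AgB ⊤ (c2.1 w) (q.p v) → KeyP (zf (q.p v γ)) r.A (c2.2 w) fun k => 3 * k + ε
  | .zc => c2 = (id, fun w => zf (w γ))
  | .xc => c2 = genC γ
  | .men => prm c δ ∈ q.Γ
  | .dcd => Dcd (prm c γ') γ q.p
  | .big k => ∃ φ ∈ q.Φ, ∀ v, q.p v φ 0 = k
  | .dom => ∃ φ0 ∈ q.Φ, ∃ φ1 ∈ q.Φ, ∀ v w, AgB ⊤ (c.1 w) (q.p v) →
      ∃ n0, ∀ n, n0 ≤ n → Gap (q.p v φ0) n (c.2 w n) ∨ Gap (q.p v φ1) n (c.2 w n)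

def genW : Fam (CN II) (II × VC II) GenK (CN II × (II × VC II)) :=
  fun k v c a qj => GenW0 k (v 0) (c 0) (a 0).2 (a 1).1 (a 2).1 qj.1 qj.2.1 qj.2.2

def genRN : Fam (CN II) (II × VC II) GenK (Name (CN II)) :=
  fun k _ _ a x => match k with
  | .opt => x = genV (a 0).2
  | _ => x = genY

def genId : VC II := (id, fun _ => id)

/-- the generic models -/
abbrev GenM := GenW (CN.one II) ((⊤, genId) : II × VC II) genRN genW

variable (g : GenM)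

def GenHC (c : VC II) : Prop := ∃ j ∈ g.AN, j.2 = c

def GenHI (γ : II) : Prop := ∃ j ∈ g.AN, j.1 = γ

theorem gen_hc_id : GenHC g genId := ⟨_, g.a0_mem, rfl⟩

theorem gen_hi_top : GenHI g ⊤ := ⟨_, g.a0_mem, rfl⟩

theorem gen_Y_mem : genY ∈ g.N := by
  obtain ⟨y, hy, h⟩ := g.clN .all [] [] [] mem_list₀ mem_list₀ mem_list₀ ⟨_, rfl⟩
  exact (h : y = _) ▸ hy

variable {g}

theorem GenHC.mem {c : VC II} (h : GenHC g c) : relName (DecN c) ∈ g.N := by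
  obtain ⟨j, hj, rfl⟩ := h
  obtain ⟨y, hy, h⟩ := g.clN .opt [] [] [j] mem_list₀ mem_list₀ (mem_list₁ hj) ⟨_, rfl⟩
  have h' : y = relName (DecN j.2) := h
  exact h' ▸ hy

theorem gen_meet (k : GenK) {a : Name (CN II)} (ha : a ∈ g.N) {r : CN II} (hr : r ∈ g.PN)
    {c : VC II} (hc : GenHC g c) {γ γ' : II} (h1 : GenHI g γ) (h2 : GenHI g γ') {p : CN II}
    (hp : g.G p) (hd : ∀ q, q ≤ p → ∃ q', q' ≤ q ∧ ∃ δ c2, GenW0 k a r c γ γ' q' δ c2) :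
    ∃ q ∈ g.PN, g.G q ∧ ∃ δ c2, GenHI g δ ∧ GenHC g c2 ∧ GenW0 k a r c γ γ' q δ c2 := by
  obtain ⟨j0, hj0, rfl⟩ := hc
  obtain ⟨j1, hj1, rfl⟩ := h1
  obtain ⟨j2, hj2, rfl⟩ := h2
  obtain ⟨q, hq, hG, j, hj, h⟩ := g.meet k [a] [r] [j0, j1, j2] (mem_list₁ ha)
    (mem_list₁ hr) (mem_listc hj0 (mem_list₂ hj1 hj2)) p hp fun q hq => by
      obtain ⟨q', h1, δ, c2, h2⟩ := hd q hq
      exact ⟨q', h1, (δ, c2), h2⟩
  exact ⟨q, hq, hG, j.1, j.2, ⟨j, hj, rfl⟩, ⟨j, hj, rfl⟩, h⟩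

theorem gen_hi_a {r : CN II} (hr : r ∈ g.PN) {γ : II} (h : γ ∈ r.a) : GenHI g γ := by
  obtain ⟨n, rfl⟩ := (gen_en r).choose_spec h
  obtain ⟨_, -, -, δ, c2, h1, -, h⟩ := gen_meet (.supp n) g.empty_mem hr (gen_hc_id g)
    (gen_hi_top g) (gen_hi_top g) g.G_p0 fun q _ => ⟨q, le_rfl, _, genId, rfl⟩
  exact (h : δ = _) ▸ h1

theorem gen_x (g : GenM) : ∃ x, ∀ r, g.G r → In ⊤ r.p x := by
  refine exists_xG g.G g.PN {γ | GenHI g γ} (fun _ _ => gen1_dir g) g.p0_mem g.G_p0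
    (fun r hr => r.gd.supp.mono fun _ h => gen_hi_a hr h) fun r hr hG γ hγ ht i => ?_
  obtain ⟨q, -, hq, _, _, -, -, h⟩ := gen_meet (.inv i) g.empty_mem hr (gen_hc_id g)
    hγ hγ hG fun q hq => by
      obtain ⟨q', h1, h2⟩ := dec_dense (nice_inv r ht) hq.2.2 i
      exact ⟨q', h1, ⊤, genId, h2⟩
  exact ⟨q, hq, h⟩

variable (g) in
/-- `H` is the value of the code `c` -/
structure GenVal (x : Pt II) (c : VC II) (H : ℕ → ℕ) : Prop where
  hc : GenHC g c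
  nice : Nice ⊤ c
  valid : ∃ r, g.G r ∧ Le ⊤ r.p c.1
  val : ∃ w, AgB ⊤ (c.1 w) x ∧ H = c.2 w

variable {x : Pt II} {α : II} {c : VC II} {H : ℕ → ℕ}

theorem gen_z (hγ : GenHI g α) (ht : α < ⊤) :
    GenVal g x (id, fun w => zf (w α)) (zf (x α)) := by
  obtain ⟨_, -, -, _, c2, -, h1, h⟩ := gen_meet .zc g.empty_mem g.p0_mem (gen_hc_id g)
    hγ hγ g.G_p0 fun q _ => ⟨q, le_rfl, ⊤, _, rfl⟩
  exact ⟨(h : c2 = _) ▸ h1, nice_z ht, ⟨_, g.G_p0, le_id _⟩, x, .rfl', rfl⟩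

theorem gen_co (hγ : GenHI g α) (ht : α < ⊤) : GenVal g x (genC α) (x α) := by
  obtain ⟨_, -, -, _, c2, -, h1, h⟩ := gen_meet .xc g.empty_mem g.p0_mem (gen_hc_id g)
    hγ hγ g.G_p0 fun q _ => ⟨q, le_rfl, ⊤, _, rfl⟩
  exact ⟨(h : c2 = _) ▸ h1, nice_C ht, ⟨_, g.G_p0, le_id _⟩, x, .rfl', rfl⟩

theorem gen_phi {r : CN II} (hr : g.G r) {φ : II} (h : φ ∈ r.Φ) : GenHI g φ ∧ φ < ⊤ := by
  obtain ⟨s, h1, -, h2⟩ := g.below r hr
  exact ⟨gen_hi_a h1 (h2.2.1.1 (r.cls.sub h)), r.cls.top (r.cls.sub h)⟩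

variable (hx : ∀ r, g.G r → In ⊤ r.p x)
include hx

theorem gen_val (h1 : GenHC g c) (h2 : Nice ⊤ c) {r : CN II} (hr : g.G r) (h3 : Le ⊤ r.p c.1) :
    ∃ w, AgB ⊤ (c.1 w) x ∧ GenVal g x c (c.2 w) := by
  obtain ⟨w, hw⟩ := (hx r hr).le h3
  exact ⟨w, hw, h1, h2, ⟨r, hr, h3⟩, w, hw, rfl⟩

theorem GenVal.dec (h : GenVal g x c H) (k n : ℕ) : (∃ r, g.G r ∧ DecN c k n r) ↔ H k = n := by
  obtain ⟨w, hw, rfl⟩ := h.val
  have h1 : ∀ n, (∃ r, g.G r ∧ DecN c k n r) → c.2 w k = n := by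
    rintro n ⟨r, hr, h1⟩
    obtain ⟨v, hv⟩ := hx r hr
    exact h1.2 v w (hw.trans hv.symm)
  refine ⟨h1 n, ?_⟩
  rintro rfl
  obtain ⟨r, hr, h2⟩ := h.valid
  obtain ⟨q, -, hq, -, -, -, -, n, h3⟩ := gen_meet (.dec k) g.empty_mem g.p0_mem h.hc
    (gen_hi_top g) (gen_hi_top g) hr fun q hq => by
      obtain ⟨q', h3, h4⟩ := dec_dense h.nice (hq.2.2.trans h2) k
      exact ⟨q', h3, ⊤, genId, h4⟩
  exact ⟨q, hq, h1 n ⟨q, hq, h3⟩ ▸ h3⟩

theorem GenVal.cf (h : GenVal g x c H) : CF g.toGen.E H := gen1_cf g h.hc.mem (h.dec hx)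

theorem GenVal.code {η : FN g.toGen.E ℕ ℕ} (h : GenVal g x c η.1) :
    CT.code g.toGen.E η = g.toGen.cl ⟨_, h.hc.mem⟩ := gen1_code g h.hc.mem η (h.dec hx)

omit hx in
theorem gen_reap (A : PW g.toGen.E ℕ) : ∃ r ∈ g.PN, g.G r ∧ (r.A ⊆ A.1 ∨ Disjoint r.A A.1) := by
  obtain ⟨a, ha, h⟩ := gen1_cs g A.2
  have h1 : ∀ t, t ∈ A.1 ↔ ∃ r, g.G r ∧ MemF (natN t) a r := fun t => h t _ (g.nat_mem t) rfl
  obtain ⟨q, hq, hG, _, _, -, -, h2⟩ := gen_meet .reap ha g.p0_mem (gen_hc_id g)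
    (gen_hi_top g) (gen_hi_top g) g.G_p0 fun q _ => by
      obtain ⟨q', h2, h3⟩ := reap_dense (fun b r => MemF (natN b) a r)
        (fun _ _ _ h h' => h.mono h') q
      exact ⟨q', h2, ⊤, genId, h3.imp (fun h b hb => MemF.reg (h b hb)) id⟩
  refine ⟨q, hq, hG, Or.imp (fun h2 b hb => (h1 b).2 ⟨q, hG, h2 b hb⟩)
    (fun h2 => Set.disjoint_left.2 fun b hb hb' => ?_) h2⟩
  obtain ⟨r, hr, h3⟩ := (h1 b).1 hb'
  obtain ⟨s, -, h4, h5⟩ := g.dir _ _ hG hr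
  exact h2 b hb s h4 (h3.mono h5)

/-- every function of the model is the value of a code -/
theorem gen_all (φ : ℕ → ℕ) (hφ : CF g.toGen.E φ) : ∃ c, GenVal g x c φ := by
  obtain ⟨a, ha, h⟩ := gen1_cs g hφ.out
  have h1 : ∀ i n, n = φ i ↔ ∃ r, g.G r ∧ GenPh a i n r := fun i n =>
    h (i, n) _ (gen1_pair_mem g (g.nat_mem i) (g.nat_mem n))
      (gen1_pr g (g.nat_mem i) (g.nat_mem n))
  obtain ⟨q, -, hG, -, c, -, hc, ⟨i, h2⟩ | ⟨h2, h3, h5⟩⟩ := gen_meet .all ha g.p0_mem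
    (gen_hc_id g) (gen_hi_top g) (gen_hi_top g) g.G_p0 fun q _ => by
      by_cases hd : ∀ i q', q' ≤ q → ∃ q'', q'' ≤ q' ∧ ∃ n, GenPh a i n q''
      · obtain ⟨q', h2, f, h3, h4, h5⟩ := PT (GenPh a) (fun _ _ _ _ h h' => MemF.mono h h') q hd
        exact ⟨q', h2, ⊤, (q'.p, f), Or.inr ⟨rfl, nice_of_dep q' h3 h4, h5⟩⟩
      · push Not at hd
        obtain ⟨i, q', h2, h3⟩ := hd
        exact ⟨q', h2, ⊤, genId, Or.inl ⟨i, h3⟩⟩
  · obtain ⟨r, hr, h3⟩ := (h1 i _).1 rfl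
    obtain ⟨s, -, h4, h5⟩ := g.dir _ _ hG hr
    exact absurd (MemF.mono h3 h5) (h2 s h4 _)
  · obtain ⟨w, -, hv⟩ := gen_val hx hc h3 hG (h2 ▸ Le.rfl')
    refine ⟨c, (funext fun i => ?_ : c.2 w = φ) ▸ hv⟩
    obtain ⟨r1, hr1, d1⟩ := (hv.dec hx i _).2 rfl
    obtain ⟨t, ht, t1, t2⟩ := g.dir _ _ hr1 hG
    obtain ⟨u, -, hu, _, _, -, -, h6⟩ := gen_meet (.fin i (c.2 w i)) ha g.p0_mem
      (gen_hc_id g) (gen_hi_top g) (gen_hi_top g) ht fun q' hq' => by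
        obtain ⟨w', hw'⟩ := (hq'.trans t2).2.2 x
        have e1 := (d1.mono (hq'.trans t1)).2 x w' (h2 ▸ hw')
        obtain ⟨q'', h6, h7⟩ := h5 i q' (hq'.trans t2) x w' hw'
        exact ⟨q'', h6, ⊤, genId, e1 ▸ h7⟩
    exact (h1 i _).2 ⟨u, hu, h6⟩

theorem gen_ref : RefN g.toGen.E := by
  intro Rel hR hT
  obtain ⟨a, ha, h⟩ := gen1_cs g hR
  have h1 : ∀ {c : VC II} {P : FN g.toGen.E ℕ ℕ} (ε : ℕ), GenVal g x c P.1 →
      (Rel P ε ↔ ∃ r, g.G r ∧ GenFr a r c ε) := by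
    intro c P ε v1
    refine h (P, ε) _ (gen1_pair_mem g v1.hc.mem (g.nat_mem ε)) ?_
    rw [code_prod, v1.code hx, gen1_code_nat, gen1_pr]
    rfl
  obtain ⟨r0, hr0, hG0, -, c1, -, hc1, hD | ⟨n1, l1, h2⟩⟩ := gen_meet .refl ha
    g.p0_mem (gen_hc_id g) (gen_hi_top g) (gen_hi_top g) g.G_p0 fun q _ => by
      by_cases hd : DDn (GenFr a) q
      · exact ⟨q, le_rfl, ⊤, genId, Or.inl hd⟩
      · unfold DDn at hd
        push Not at hd
        obtain ⟨r, hr, c1, h2⟩ := hd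
        exact ⟨r, hr, ⊤, c1, Or.inr h2⟩
  swap
  · obtain ⟨w1, -, v1⟩ := gen_val hx hc1 n1 hG0 l1
    obtain ⟨ε, hε, h3⟩ := hT ⟨_, v1.cf hx⟩
    obtain ⟨r, hr, h4⟩ := (h1 ε v1).1 h3
    obtain ⟨t, -, t1, t2⟩ := g.dir _ _ hr hG0
    exact absurd (MemF.mono h4 t1) (h2 t t2 ε hε)
  have hC := (gen_cp a r0).choose_spec hD
  have hI : GenHI g (gen_cp a r0).choose := by
    obtain ⟨_, -, -, δ, c2, h2, -, h3⟩ := gen_meet .cp ha hr0 (gen_hc_id g)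
      (gen_hi_top g) (gen_hi_top g) g.G_p0 fun q _ => ⟨q, le_rfl, _, genId, rfl⟩
    exact (h3 : δ = _) ▸ h2
  generalize (gen_cp a r0).choose = α at hC hI
  refine ⟨zf (x α), (gen_z hI hC.lt).cf hx, zf_mono _, fun A => ?_⟩
  obtain ⟨r, hr, -, hA⟩ := gen_reap A
  obtain ⟨q, -, hq, -, c2, -, hc2, ε, n2, l2, h3, h4⟩ := gen_meet .key ha hr (gen_hc_id g)
    hI hI hG0 fun q hq => by
      obtain ⟨q', h3, c2, ε, h4⟩ := key_dense (Fc := GenFr a)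
        (fun _ _ _ _ h h' => MemF.mono h h') hC hq r.inf
      exact ⟨q', h3, ⊤, c2, ε, h4⟩
  obtain ⟨w2, hw2, v2⟩ := gen_val hx hc2 n2 hq l2
  obtain ⟨v, hv'⟩ := hx q hq
  have h5 := h4 v w2 (hw2.trans hv'.symm)
  rw [hv' _ hC.lt] at h5
  exact ⟨r.A, hA, ⟨_, v2.cf hx⟩, ε, (h1 ε v2).2 ⟨q, hq, h3⟩, h5⟩

theorem gen_E_Y (η : FN g.toGen.E ℕ ℕ) :
    g.toGen.E (CT.code g.toGen.E η) (g.toGen.cl ⟨_, gen_Y_mem g⟩) ↔
      ∃ r φ, g.G r ∧ φ ∈ r.Φ ∧ η.1 = x φ := by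
  refine (g.toGen.E_rName (gen_Y_mem g) _).trans ⟨?_, ?_⟩
  · rintro ⟨φ, r, h1, h2, h3, e⟩
    have hv : GenVal g x (genC φ) (x φ) := gen_co (gen_phi h2 h1).1 (gen_phi h2 h1).2
    exact ⟨r, φ, h2, h1, funext fun k =>
      (gen1_fn_iff g hv.hc.mem η e k _).1 ((hv.dec hx k _).2 rfl)⟩
  · rintro ⟨r, φ, h2, h1, e⟩
    have hv : GenVal g x (genC φ) η.1 := e ▸ gen_co (gen_phi h2 h1).1 (gen_phi h2 h1).2
    exact ⟨φ, r, h1, h2, hv.hc.mem, hv.code hx⟩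

theorem gen_iface : Nonempty (IfaceY g.toGen.E) := by
  have mk : ∀ {r φ}, g.G r → φ ∈ r.Φ → ∃ y : FN g.toGen.E ℕ ℕ,
      g.toGen.E (CT.code g.toGen.E y) (g.toGen.cl ⟨_, gen_Y_mem g⟩) ∧ y.1 = x φ := by
    intro r φ h2 h1
    have hv : GenVal g x (genC φ) (x φ) := gen_co (gen_phi h2 h1).1 (gen_phi h2 h1).2
    exact ⟨⟨_, hv.cf hx⟩, (gen_E_Y hx _).2 ⟨r, φ, h2, h1, rfl⟩, rfl⟩
  refine ⟨⟨⟨{η | g.toGen.E (CT.code g.toGen.E η) (g.toGen.cl ⟨_, gen_Y_mem g⟩)},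
    ⟨_, fun _ => Iff.rfl⟩⟩, fun φ hφ hc => ?_, fun h hh => ?_, fun k => ?_⟩⟩
  · obtain ⟨c, hv⟩ := gen_all hx φ hφ
    obtain ⟨w, hw, rfl⟩ := hv.val
    obtain ⟨q, hq0, hq, β, _, hβ, -, h3⟩ := gen_meet .men g.empty_mem g.p0_mem hv.hc
      (gen_hi_top g) (gen_hi_top g) g.G_p0 fun q _ => by
        obtain ⟨q', h3, β, h4⟩ := men_dense hv.nice q
        exact ⟨q', h3, β, genId, h4⟩
    have hβt : β < ⊤ := q.cls.top (q.cls.prm _ h3).1
    refine ⟨x β, (gen_co hβ hβt).cf hx, fun y hy => ?_⟩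
    obtain ⟨r, ψ, h4, h5, e⟩ := (gen_E_Y hx y).1 hy
    obtain ⟨s, hs, s1, s2⟩ := g.dir _ _ hq h4
    obtain ⟨t, -, ht, _, _, -, -, h6⟩ := gen_meet .dcd g.empty_mem g.p0_mem hv.hc
      (gen_phi h4 h5).1 hβ hs fun t ht => by
        obtain ⟨t', h6, h7⟩ := dcd_dense t ((ht.trans s1).2.1.2.2.1 h3) ((ht.trans s2).2.1.2.1 h5)
        exact ⟨t', h6, ⊤, genId, h7⟩
    obtain ⟨v, hv'⟩ := hx t ht
    have e1 : t.p v ψ = x ψ := hv' ψ (gen_phi h4 h5).2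
    rw [e]
    rcases h6 with h6 | ⟨n, h6⟩
    · have h7 := prm_O (hw.trans hv'.symm) (h6 v)
      rwa [e1, hv' β hβt] at h7
    · obtain ⟨k, hk⟩ := hc y hy n
      have h7 := prm_C hv.nice (hw.trans hv'.symm) (h6 v) k
      rw [e1, ← e] at h7
      exact absurd hk h7
  · obtain ⟨c, hv⟩ := gen_all hx h hh
    obtain ⟨r1, hr1, h2⟩ := hv.valid
    obtain ⟨w, hw, rfl⟩ := hv.val
    obtain ⟨q, -, hq, -, -, -, -, φ0, h3, φ1, h4, h5⟩ := gen_meet .dom g.empty_mem g.p0_mem hv.hc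
      (gen_hi_top g) (gen_hi_top g) hr1 fun q hq => by
        obtain ⟨q', h3, h4⟩ := dom_dense hv.nice (hq.2.2.trans h2)
        exact ⟨q', h3, ⊤, genId, h4⟩
    obtain ⟨v, hv'⟩ := hx q hq
    have h6 := h5 v w (hw.trans hv'.symm)
    rw [hv' φ0 (gen_phi hq h3).2, hv' φ1 (gen_phi hq h4).2] at h6
    obtain ⟨y0, a0, b0⟩ := mk hq h3
    obtain ⟨y1, a1, b1⟩ := mk hq h4
    exact ⟨y0, a0, y1, a1, by rwa [b0, b1]⟩
  · obtain ⟨q, -, hq, -, -, -, -, φ, h3, h4⟩ := gen_meet (.big k) g.empty_mem g.p0_mem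
      (gen_hc_id g) (gen_hi_top g) (gen_hi_top g) g.G_p0 fun q _ => by
        obtain ⟨q', h3, h4⟩ := big_dense q k
        exact ⟨q', h3, ⊤, genId, h4⟩
    obtain ⟨v, hv'⟩ := hx q hq
    obtain ⟨y, a0, b0⟩ := mk hq h3
    exact ⟨y, a0, by rw [b0, ← hv' φ (gen_phi hq h3).2, h4]⟩

end Pool.Agent.B8N
end
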