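import Pool.Agent.Work.MP_b8a914_gt.N.Space
import Pool.Agent.Work.MP_b8a914_gt.P.Prod
import Pool.Agent.Work.MP_b8a914_gt.N.Gen
import Pool.Agent.Work.MP_b8a914_gt.N.Fan
import Pool.Agent.Work.MP_b8a914_gt.P.Main

-- merged part: Pool.Agent.Work.MP_b8a914_gt.N.Ncf
section
/-! Near coherence of filters from reflection. -/

namespace Pool.Agent.B8N
open Pool.Agent.Lib.ZFModel Pool.Agent.Work.MP_63c7e0_lc Pool.Agent.B8F Pool.Agent.B8P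

set_option synthInstance.maxSize 100000
set_option linter.unusedSectionVars false

variable {M : Type 1} {E : M → M → Prop} [Fact (IsZFC E)] [CT E ℕ] [NatE E]

theorem Ncf_sub {w : M} (hw : Is E ℕ w) (Z : PW E ℕ) : Sub E (CT.code E Z) w :=
  fun x hx => let ⟨n, _, h⟩ := (E_code_pw Z x).1 hx; (hw x).2 ⟨n, h⟩

theorem Ncf_inter {w U : M} (hU : IsUlt E w U) (C D : PW E ℕ) (h1 : E (CT.code E C) U)
    (h2 : E (CT.code E D) U) : (C.1 ∩ D.1).Infinite := by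
  let Z : PW E ℕ := ⟨C.1 ∩ D.1, @CS.and _ _ _ _ _ _ _ C.2 D.2⟩
  have h3 : E (CT.code E Z) U := hU.2.2.1 _ _ _ h1 h2 fun x => by
    rw [E_code_pw Z x, E_code_pw C x, E_code_pw D x]
    constructor
    · rintro ⟨t, ht, rfl⟩
      exact ⟨⟨t, ht.1, rfl⟩, t, ht.2, rfl⟩
    · rintro ⟨⟨t, ht, rfl⟩, s, hs, e⟩
      exact ⟨t, ⟨ht, CT.inj e ▸ hs⟩, rfl⟩
  exact fun hf => (hU.1 _ h3).2 ((isFin_code Z).2 hf)

theorem Ncf_compl {w U : M} (hw : Is E ℕ w) (hU : IsUlt E w U) (C D : PW E ℕ)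
    (h : ∀ n, n ∈ D.1 ↔ n ∉ C.1) : E (CT.code E C) U ∨ E (CT.code E D) U := by
  refine hU.2.2.2 _ _ (Ncf_sub hw C) fun x => ?_
  rw [E_code_pw D x, hw x]
  constructor
  · rintro ⟨t, ht, rfl⟩
    exact ⟨⟨t, rfl⟩, fun h1 => (h t).1 ht ((mem_code_pw C t).1 h1)⟩
  · rintro ⟨⟨t, rfl⟩, h1⟩
    exact ⟨t, (h t).2 fun h2 => h1 ((mem_code_pw C t).2 h2), rfl⟩

theorem Ncf_not {w U : M} (hw : Is E ℕ w) (hU : IsUlt E w U) (C W : PW E ℕ)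
    (h : ¬ E (CT.code E W) U) (hf : (C.1 \ W.1).Finite) : ¬ E (CT.code E C) U := by
  let D : PW E ℕ := ⟨W.1ᶜ, (inferInstance : CS E fun n : ℕ => n ∉ W.1)⟩
  exact fun h1 => Ncf_inter hU C D h1
    ((Ncf_compl hw hU W D fun _ => Iff.rfl).resolve_left h) hf

/-- the relation that is reflected -/
def NcfRel (E : M → M → Prop) [Fact (IsZFC E)] [CT E ℕ] (U V : M) (P : FN E ℕ ℕ) (ε : ℕ) : Prop :=
  (∀ i j, i < j → P.1 i < P.1 j) → ∀ W : PW E ℕ,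
    (∀ n, n ∈ W.1 ↔ ∃ k, P.1 (3 * k + ε) ≤ n ∧ n < P.1 (3 * k + ε + 1)) →
      ¬ E (CT.code E W) U ∧ ¬ E (CT.code E W) V

theorem Ncf_cs (U V : M) : CS E fun t : FN E ℕ ℕ × ℕ => NcfRel E U V t.1 t.2 := by
  have h1 : CS E fun P : FN E ℕ ℕ => ∀ i j, i < j → P.1 i < P.1 j := inferInstance
  have h2 : CS E fun q : ((FN E ℕ ℕ × ℕ) × ℕ) × ℕ =>
      q.1.1.1.1 (3 * q.2 + q.1.1.2) ≤ q.1.2 ∧ q.1.2 < q.1.1.1.1 (3 * q.2 + q.1.1.2 + 1) :=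
    inferInstance
  have h3 := @CS.ex _ _ _ _ _ _ _ (fun (t : (FN E ℕ ℕ × ℕ) × ℕ) (k : ℕ) =>
    t.1.1.1 (3 * k + t.1.2) ≤ t.2 ∧ t.2 < t.1.1.1 (3 * k + t.1.2 + 1)) h2
  have h4 := h3.comp fun q : ((FN E ℕ ℕ × ℕ) × PW E ℕ) × ℕ => (q.1.1, q.2)
  have h5 : CS E fun q : ((FN E ℕ ℕ × ℕ) × PW E ℕ) × ℕ => q.2 ∈ q.1.2.1 := inferInstance
  have h6 := @CS.all _ _ _ _ _ _ _ (fun (t : (FN E ℕ ℕ × ℕ) × PW E ℕ) (n : ℕ) =>
    n ∈ t.2.1 ↔ ∃ k, t.1.1.1 (3 * k + t.1.2) ≤ n ∧ n < t.1.1.1 (3 * k + t.1.2 + 1))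
    (@CS.iff _ _ _ _ _ _ _ h5 h4)
  have h7 : CS E fun t : (FN E ℕ ℕ × ℕ) × PW E ℕ =>
      ¬ E (CT.code E t.2) U ∧ ¬ E (CT.code E t.2) V := inferInstance
  have h8 := @CS.all _ _ _ _ _ _ _ (fun (t : FN E ℕ ℕ × ℕ) (W : PW E ℕ) =>
    (∀ n, n ∈ W.1 ↔ ∃ k, t.1.1 (3 * k + t.2) ≤ n ∧ n < t.1.1 (3 * k + t.2 + 1)) →
      ¬ E (CT.code E W) U ∧ ¬ E (CT.code E W) V) (@CS.imp _ _ _ _ _ _ _ h6 h7)
  exact @CS.imp _ _ _ _ _ _ _ (h1.comp fun t : FN E ℕ ℕ × ℕ => t.1) h8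

theorem Ncf_ex {w U V : M} (hU : IsUlt E w U) (hV : IsUlt E w V) (P : FN E ℕ ℕ) :
    ∃ ε < 3, NcfRel E U V P ε := by
  by_contra hc
  have h1 : ∀ ε < 3, StrictMono P.1 ∧ ∃ W : PW E ℕ,
      (∀ n, n ∈ W.1 ↔ ∃ k, P.1 (3 * k + ε) ≤ n ∧ n < P.1 (3 * k + ε + 1)) ∧
        (E (CT.code E W) U ∨ E (CT.code E W) V) := fun ε hε => by
    by_contra h2
    refine hc ⟨ε, hε, fun a W b => ?_⟩
    by_contra h3
    exact h2 ⟨fun i j hij => a i j hij, W, b, by tauto⟩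
  have key : ∀ (X : M) (e e' : ℕ) (W W' : PW E ℕ), IsUlt E w X → e < e' → e' < 3 →
      (∀ n, n ∈ W.1 ↔ ∃ k, P.1 (3 * k + e) ≤ n ∧ n < P.1 (3 * k + e + 1)) →
      (∀ n, n ∈ W'.1 ↔ ∃ k, P.1 (3 * k + e') ≤ n ∧ n < P.1 (3 * k + e' + 1)) →
      E (CT.code E W) X → E (CT.code E W') X → False := by
    intro X e e' W W' hX a1 a2 b1 b2 c1 c2
    obtain ⟨n, d1, d2⟩ := (Ncf_inter hX W W' c1 c2).nonempty
    obtain ⟨k, e1, e2⟩ := (b1 n).1 d1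
    obtain ⟨l, e3, e4⟩ := (b2 n).1 d2
    have hP := (h1 0 (by omega)).1
    have f1 := hP.lt_iff_lt.1 (e1.trans_lt e4)
    have f2 := hP.lt_iff_lt.1 (e3.trans_lt e2)
    omega
  obtain ⟨-, W0, a0, b0⟩ := h1 0 (by omega)
  obtain ⟨-, W1, a1, b1⟩ := h1 1 (by omega)
  obtain ⟨-, W2, a2, b2⟩ := h1 2 (by omega)
  have k01 := fun X hX => key X 0 1 W0 W1 hX (by omega) (by omega) a0 a1
  have k02 := fun X hX => key X 0 2 W0 W2 hX (by omega) (by omega) a0 a2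
  have k12 := fun X hX => key X 1 2 W1 W2 hX (by omega) (by omega) a1 a2
  have := k01 U hU
  have := k02 U hU
  have := k12 U hU
  have := k01 V hV
  have := k02 V hV
  have := k12 V hV
  tauto

/-- `Rel P ε`: if `P` is strictly increasing, every `W : PW E ℕ` with
`n ∈ W ↔ ∃ k, P (3 * k + ε) ≤ n ∧ n < P (3 * k + ε + 1)` is neither in `U` nor in `V` (the three
sets are disjoint).  `f n` = least `i` with `n < z i` (`CF.least`).  For a preimage `P0` take `B`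
inside `P0` or disjoint from it; the complement of `P0`, resp. `P0`, is a union of fibres that
miss `B`, so it lies in `W` up to a finite set. -/
theorem ncf_of_ref (h : RefN E) : NCF E := by
  intro w U V hw0 hU hV
  have hw : Is E ℕ w := isOmega_iff.1 hw0
  obtain ⟨z, hz, hm, hA⟩ := h (NcfRel E U V) (Ncf_cs U V) (Ncf_ex hU hV)
  let z' : FN E ℕ ℕ := ⟨z, hz⟩
  obtain ⟨φ, hφ, h1⟩ := CF.least (E := E) (fun n i : ℕ => n < z'.1 i) fun n =>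
    ⟨n + 1, lt_of_lt_of_le n.lt_succ_self (hm.id_le (n + 1))⟩
  obtain ⟨f, hf, hr⟩ := isFun_of_cf hw hw φ
  refine ⟨f, hf, fun n P hP => ?_, fun A P hP => ?_⟩
  · rw [isFin_iff']
    by_cases hn : ∃ m : ℕ, n = CT.code E m
    · obtain ⟨m, rfl⟩ := hn
      refine ((Set.finite_lt_nat (z m)).image (CT.code E)).subset fun x hx => ?_
      obtain ⟨t, rfl, e⟩ := (hr _ _).1 ((hP x).1 hx)
      exact ⟨t, by rw [CT.inj e]; exact (h1 t).1, rfl⟩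
    · refine Set.finite_empty.subset fun x hx => ?_
      obtain ⟨t, -, e⟩ := (hr _ _).1 ((hP x).1 hx)
      exact hn ⟨_, e⟩
  · obtain ⟨P0, rfl⟩ := pw_of_sub hw (Y := P) fun x hx => by
      obtain ⟨y, -, a⟩ := (hP x).1 hx
      obtain ⟨t, rfl, -⟩ := (hr _ _).1 a
      exact (hw _).2 ⟨t, rfl⟩
    have hs : ∀ t, t ∈ P0.1 ↔ E (CT.code E (φ t)) A := fun t => by
      rw [← mem_code_pw, hP]
      constructor
      · rintro ⟨y, a, b⟩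
        obtain ⟨s, e, rfl⟩ := (hr _ _).1 b
        rw [CT.inj e]
        exact a
      · exact fun a => ⟨_, a, (hr _ _).2 ⟨t, rfl, rfl⟩⟩
    obtain ⟨B, hB, Q, ε, hR, hQ, hk⟩ := hA P0
    obtain ⟨i0, hk⟩ := hk fun a b hab => by
      show 3 * a + ε < 3 * b + ε
      omega
    let W : PW E ℕ := ⟨{n | ∃ k, Q.1 (3 * k + ε) ≤ n ∧ n < Q.1 (3 * k + ε + 1)},
      (inferInstance : CS E fun n : ℕ => ∃ k, Q.1 (3 * k + ε) ≤ n ∧ n < Q.1 (3 * k + ε + 1))⟩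
    obtain ⟨w1, w2⟩ := hR (fun i j hij => hQ hij) W fun _ => Iff.rfl
    have hφ' : ∀ i b, z i ≤ b → b < z (i + 1) → φ b = i + 1 := fun i b a1 a2 =>
      le_antisymm ((h1 b).2 _ a2) (hm.lt_iff_lt.1 (a1.trans_lt (h1 b).1))
    have key : ∀ C : PW E ℕ, (∀ s t, φ s = φ t → s ∈ C.1 → t ∈ C.1) → (∀ b ∈ B, b ∉ C.1) →
        ¬ E (CT.code E C) U ∧ ¬ E (CT.code E C) V := by
      intro C c1 c2
      have hfin : (C.1 \ W.1).Finite := by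
        refine (Set.finite_lt_nat (z i0)).subset fun n hn => ?_
        by_contra hc
        have d1 : z i0 ≤ n := not_lt.1 hc
        have d2 : i0 < φ n := hm.lt_iff_lt.1 (d1.trans_lt (h1 n).1)
        obtain ⟨i, hi⟩ : ∃ i, φ n = i + 1 := ⟨φ n - 1, by omega⟩
        have d3 : z i ≤ n := not_lt.1 fun a => by
          have := (h1 n).2 i a
          omega
        have d4 : n < z (i + 1) := hi ▸ (h1 n).1
        obtain ⟨k, e1, e2⟩ := hk i (by omega) fun b hb a =>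
          c2 b hb (c1 n b (hi.trans (hφ' i b a.1 a.2).symm) hn.1)
        exact hn.2 ⟨k, e1.trans d3, d4.trans_le e2⟩
      exact ⟨Ncf_not hw hU C W w1 hfin, Ncf_not hw hV C W w2 hfin⟩
    rcases hB with hB | hB
    · let D : PW E ℕ := ⟨P0.1ᶜ, (inferInstance : CS E fun n : ℕ => n ∉ P0.1)⟩
      obtain ⟨a, b⟩ := key D (fun s t e a b => a ((hs s).2 (e ▸ (hs t).1 b))) fun b hb a => a (hB hb)
      exact iff_of_true ((Ncf_compl hw hU P0 D fun _ => Iff.rfl).resolve_right a)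
        ((Ncf_compl hw hV P0 D fun _ => Iff.rfl).resolve_right b)
    · obtain ⟨a, b⟩ := key P0 (fun s t e a => (hs t).2 (e ▸ (hs s).1 a))
        fun b hb => Set.disjoint_left.1 hB hb
      exact iff_of_false a b

/-- use `ref0` with `Rel' H P η = ∃ ε < 3, (∀ k, η k = 3 * k + ε) ∧ Rel P ε`, the field `key` at
level `0` with `H = id` -/
theorem ref_of_iface0 (I : Iface0 E) : RefN E := by
  intro Rel hc hex
  have h1 := hc.comp fun q : (FN E ℕ ℕ × FN E ℕ ℕ × FN E ℕ ℕ) × ℕ => (q.1.2.1, q.2)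
  have h2 : CS E fun q : FN E ℕ ℕ × ℕ => ∀ k, q.1.1 k = 3 * k + q.2 := inferInstance
  have h3 := h2.comp fun q : (FN E ℕ ℕ × FN E ℕ ℕ × FN E ℕ ℕ) × ℕ => (q.1.2.2, q.2)
  have h4 := @CS.ex _ _ _ _ _ _ _ (fun (t : FN E ℕ ℕ × FN E ℕ ℕ × FN E ℕ ℕ) (ε : ℕ) =>
    (∀ k, t.2.2.1 k = 3 * k + ε) ∧ Rel t.2.1 ε) (@CS.and _ _ _ _ _ _ _ h3 h1)
  obtain ⟨d, -⟩ := I.ref0 (fun _ P η => ∃ ε, (∀ k, η.1 k = 3 * k + ε) ∧ Rel P ε) h4 fun _ P => by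
    obtain ⟨ε, -, a⟩ := hex P
    have h7 : CF E fun q : ℕ × ℕ => 3 * q.1 + q.2 := inferInstance
    have h8 := CF.comp (fun q : ℕ × ℕ => 3 * q.1 + q.2) (fun k : ℕ => (k, ε)) (hg := h7)
    exact ⟨⟨fun k => 3 * k + ε, h8⟩, ε, fun _ => rfl, a⟩
  refine ⟨d.z 0, d.z_cf 0, d.z_mono 0, fun A => ?_⟩
  obtain ⟨B, hB, h5⟩ := I.reap A
  obtain ⟨P, η, ⟨ε, a1, a2⟩, a3, a4⟩ := d.key 0 ⟨id, CF.id⟩ d.id_mem B hB
  have e : η.1 = fun k => 3 * k + ε := funext a1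
  rw [e] at a4
  exact ⟨B, h5, P, ε, a2, a3, a4⟩

end Pool.Agent.B8N
end

-- merged part: Pool.Agent.Work.MP_b8a914_gt.N.Main
section
namespace Pool.Agent.B8N
open Pool.Agent.Lib.ZFModel Pool.Agent.B8F

theorem main_yes : ∃ (M : Type 1) (E : M → M → Prop), IsZFC E ∧ NCF E ∧ Q1 E := by
  obtain ⟨g⟩ := exists_genW (CN.one II) ((⊤, genId) : II × VC II) genRN genW
  obtain ⟨x, hx⟩ := gen_x g
  obtain ⟨I⟩ := gen_iface hx
  have := gen1_natE g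
  exact ⟨g.toGen.M, g.toGen.E, g.zfc, ncf_of_ref (gen_ref hx), q1_of_iface I (gen1_small _)⟩

theorem main_no : ∃ (M : Type 1) (E : M → M → Prop), IsZFC E ∧ NCF E ∧ ¬ Q1 E := by
  obtain ⟨g⟩ := exists_genW (B8P.CD.one B8P.KK)
    ((⊤, B8P.genId, B8P.genId) : II × B8P.VD B8P.KK × B8P.VD B8P.KK) B8P.genRN B8P.genW
  obtain ⟨x, hx⟩ := B8P.gen_x g
  obtain ⟨I⟩ := B8P.gen_iface hx
  have := gen1_natE g
  exact ⟨g.toGen.M, g.toGen.E, g.zfc, ncf_of_ref (ref_of_iface0 I),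
    fun ⟨_, _, _, _, _, _, _, _, _, _, _, h1, h2, h3, h4, h5, h6, h7⟩ =>
      B8P.no_fan0 I (gen1_small _) h1 h2 h3.1 h4 h5 h6 h7⟩

end Pool.Agent.B8N
end
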